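import Pool.Agent.H9.MDim.Graph

/-! Kernel-friendly certificates for small cylinders. -/

set_option linter.unusedSimpArgs false
set_option linter.unusedVariables false

namespace Pool.Agent.H9.MDim

open SimpleGraph

def force (T : ℕ) (f : ℕ → Bool) : Bool := Nat.rec (f 0) (fun k _ => f (Nat.succ k)) T

theorem force_eq (T : ℕ) (f : ℕ → Bool) : force T f = f T := by
  cases T <;> rfl

def forceList (l : List ℕ) : (List ℕ → Bool) → Bool :=
  l.foldr (fun x r k => force x (fun x' => r (fun l' => k (x' :: l')))) (fun k => k [])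

theorem forceList_eq (l : List ℕ) (k : List ℕ → Bool) : forceList l k = k l := by
  induction l generalizing k with
  | nil => rfl
  | cons x l ih =>
    show force x (fun x' => forceList l (fun l' => k (x' :: l'))) = k (x :: l)
    rw [force_eq, ih]

def pack (w : ℕ) (l : List ℕ) : ℕ := l.foldr (fun x r => 2 ^ w * r + x) 0

@[simp] theorem pack_nil (w : ℕ) : pack w [] = 0 := rfl

@[simp] theorem pack_cons (w x : ℕ) (l : List ℕ) : pack w (x :: l) = 2 ^ w * pack w l + x := rfl

def chk (test : ℕ → Bool) (l : List ℕ) : ℕ → ℕ → Bool :=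
  l.foldr (fun p f k T => Nat.rec (test T) (fun k' _ => and (force (Nat.add T p)
    (fun T' => f k' T')) (f (Nat.succ k') T)) k)
   (fun k T => Nat.rec (test T) (fun _ _ => true) k)

theorem chk_sound (test : ℕ → Bool) (l : List ℕ) : ∀ (k T : ℕ), chk test l k T = true →
    ∀ L : List ℕ, L.Sublist l → L.length = k → test (T + L.sum) = true := by
  induction l with
  | nil =>
    intro k T h L hL hk
    have : L = [] := List.eq_nil_of_sublist_nil hL
    subst this
    simp only [List.length_nil] at hk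
    subst hk
    exact h
  | cons p l ih =>
    intro k T h L hL hk
    cases k with
    | zero =>
      have : L = [] := List.eq_nil_of_length_eq_zero hk
      subst this
      exact h
    | succ k =>
      have h' : (force (Nat.add T p) (fun T' => chk test l k T') && chk test l (k + 1) T) = true :=
        h
      rw [Bool.and_eq_true, force_eq] at h'
      obtain ⟨h1, h2⟩ := h'
      cases hL with
      | cons _ hL' => exact ih (k + 1) T h2 L hL' hk
      | cons_cons _ hL' =>
        rename_i L'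
        have := ih k (T + p) h1 L' hL' (by simpa using hk)
        rw [List.sum_cons, ← add_assoc]
        exact this

def tst (c1 c2 top T : ℕ) : Bool :=
  not (Nat.beq (Nat.land (Nat.add T c1) top) (Nat.land (Nat.add T c2) top))

theorem pack_map_add {α : Type*} (w : ℕ) (l : List α) (f g : α → ℕ) :
    pack w (l.map f) + pack w (l.map g) = pack w (l.map (fun p => f p + g p)) := by
  induction l with
  | nil => rfl
  | cons p l ih =>
    simp only [List.map_cons, pack_cons]
    rw [← ih]
    ring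

theorem pack_map_land {α : Type*} (w : ℕ) (l : List α) (f g : α → ℕ)
    (hf : ∀ p ∈ l, f p < 2 ^ w) (hg : ∀ p ∈ l, g p < 2 ^ w) :
    pack w (l.map f) &&& pack w (l.map g) = pack w (l.map (fun p => f p &&& g p)) := by
  induction l with
  | nil => simp
  | cons p l ih =>
    have h1 := hf p (by simp)
    have h2 := hg p (by simp)
    have h3 := ih (fun q hq => hf q (by simp [hq])) (fun q hq => hg q (by simp [hq]))
    simp only [List.map_cons, pack_cons]
    rw [← h3]
    apply Nat.eq_of_testBit_eq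
    intro j
    rw [Nat.testBit_and, Nat.testBit_two_pow_mul_add _ h1, Nat.testBit_two_pow_mul_add _ h2,
      Nat.testBit_two_pow_mul_add _ (lt_of_le_of_lt Nat.and_le_left h1)]
    split_ifs <;> simp [Nat.testBit_and]

theorem land_top {w x y : ℕ} (hx : x < 2 ^ (w + 1)) (hy : y < 2 ^ (w + 1))
    (h : 2 ^ w ≤ x ↔ 2 ^ w ≤ y) : x &&& 2 ^ w = y &&& 2 ^ w := by
  have h1 : x.testBit w = y.testBit w := by
    by_cases h2 : 2 ^ w ≤ x
    · rw [Nat.testBit_of_two_pow_le_and_two_pow_add_one_gt h2 hx,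
        Nat.testBit_of_two_pow_le_and_two_pow_add_one_gt (h.mp h2) hy]
    · rw [Nat.testBit_lt_two_pow (by omega), Nat.testBit_lt_two_pow (by omega)]
  apply Nat.eq_of_testBit_eq
  intro j
  rw [Nat.testBit_and, Nat.testBit_and, Nat.testBit_two_pow]
  by_cases hj : w = j
  · subst hj
    rw [h1]
  · simp [hj]

theorem tst_sound {α : Type*} (w K : ℕ) (l : List α) (z : α → ℕ)
    (hK : 2 * K ≤ 2 ^ w) (hK0 : 1 ≤ K) (hz : ∀ p ∈ l, z p < 2 * K)
    (h : tst (pack (w + 1) (l.map (fun _ => 2 ^ w - K)))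
      (pack (w + 1) (l.map (fun _ => 2 ^ w - K - 1)))
      (pack (w + 1) (l.map (fun _ => 2 ^ w))) (pack (w + 1) (l.map z)) = true) :
    ∃ p ∈ l, z p = K := by
  by_contra hcon
  push Not at hcon
  have hpow : 2 ^ (w + 1) = 2 * 2 ^ w := by rw [pow_succ]; ring
  unfold tst at h
  rw [Bool.not_eq_true', ← Bool.not_eq_true] at h
  apply h
  rw [Nat.beq_eq]
  show (pack (w + 1) (l.map z) + pack (w + 1) (l.map (fun _ => 2 ^ w - K))) &&&
      pack (w + 1) (l.map (fun _ => 2 ^ w)) =
    (pack (w + 1) (l.map z) + pack (w + 1) (l.map (fun _ => 2 ^ w - K - 1))) &&&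
      pack (w + 1) (l.map (fun _ => 2 ^ w))
  rw [pack_map_add, pack_map_add, pack_map_land, pack_map_land]
  · congr 1
    apply List.map_congr_left
    intro p hp
    have h1 := hz p hp
    have h2 := hcon p hp
    apply land_top <;> omega
  · intro p hp
    have h1 := hz p hp
    omega
  · intro p hp
    omega
  · intro p hp
    have h1 := hz p hp
    omega
  · intro p hp
    omega

theorem pack_sum {α β : Type*} (w : ℕ) (l : List α) (L : List β) (f : β → α → ℕ) :
    (L.map (fun s => pack w (l.map (f s)))).sum =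
      pack w (l.map (fun p => (L.map (fun s => f s p)).sum)) := by
  induction L with
  | nil =>
    simp only [List.map_nil, List.sum_nil]
    induction l with
    | nil => rfl
    | cons p l ih =>
      simp only [List.map_cons, pack_cons]
      rw [← ih]
      simp
  | cons s L ih =>
    simp only [List.map_cons, List.sum_cons]
    rw [ih, pack_map_add]

def fld (n B C : ℕ) (s : ℕ × ℕ) (p : (ℕ × ℕ) × (ℕ × ℕ)) : ℕ :=
  B ^ cyl n p.1.1 p.1.2 s.1 s.2 + (C - B ^ cyl n p.2.1 p.2.2 s.1 s.2)

def verts (n m : ℕ) : List (ℕ × ℕ) :=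
  (List.range n).flatMap (fun x => (List.range m).map (fun y => (x, y)))

def rp (w : ℕ) (l : List ((ℕ × ℕ) × (ℕ × ℕ))) (x : ℕ) : ℕ := pack w (l.map (fun _ => x))

/-- every set of `k` vertices of the cylinder fails to separate one of the listed pairs -/
def full (n m b k : ℕ) (prs : List ((ℕ × ℕ) × (ℕ × ℕ))) : Bool :=
  let D := n / 2 + m
  let w := b * D + 6
  let B := 2 ^ b
  let C := B ^ D
  force (rp (w + 1) prs (2 ^ w - k * C)) (fun c1 =>
   force (rp (w + 1) prs (2 ^ w - k * C - 1)) (fun c2 =>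
    force (rp (w + 1) prs (2 ^ w)) (fun top =>
     forceList ((verts n m).map (fun s => pack (w + 1) (prs.map (fld n B C s))))
       (fun l => chk (tst c1 c2 top) l k 0))))

def validPairs (n m : ℕ) (prs : List ((ℕ × ℕ) × (ℕ × ℕ))) : Bool :=
  prs.all (fun p => decide (p.1.1 < n ∧ p.1.2 < m ∧ p.2.1 < n ∧ p.2.2 < m ∧ p.1 ≠ p.2))

theorem cyl_lt {n m a b c d : ℕ} (ha : a < n) (hb : b < m) (hc : c < n) (hd : d < m) :
    cyl n a b c d < n / 2 + m := by
  unfold cyl nd
  omega

theorem sum_split {β : Type*} (L : List β) (f g : β → ℕ) (C : ℕ) (hg : ∀ s ∈ L, g s ≤ C) :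
    (L.map (fun s => f s + (C - g s))).sum + (L.map g).sum = (L.map f).sum + L.length * C := by
  induction L with
  | nil => simp
  | cons s L ih =>
    have h1 := ih (fun t ht => hg t (by simp [ht]))
    have h2 := hg s (by simp)
    simp only [List.map_cons, List.sum_cons, List.length_cons]
    have h3 : (L.length + 1) * C = L.length * C + C := by ring
    omega

theorem sum_lt {β : Type*} (L : List β) (f : β → ℕ) (C : ℕ) (h : ∀ s ∈ L, f s < C)
    (hL : L ≠ []) : (L.map f).sum < L.length * C := by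
  induction L with
  | nil => exact absurd rfl hL
  | cons s L ih =>
    have h2 := h s (by simp)
    by_cases hL' : L = []
    · subst hL'
      simpa using h2
    · have h1 := ih (fun t ht => h t (by simp [ht])) hL'
      simp only [List.map_cons, List.sum_cons, List.length_cons]
      have h3 : (L.length + 1) * C = L.length * C + C := by ring
      omega

theorem full_sound {n m b k : ℕ} {prs : List ((ℕ × ℕ) × (ℕ × ℕ))} (hk0 : 1 ≤ k) (hk : k ≤ 32)
    (h : full n m b k prs = true) (hv : validPairs n m prs = true)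
    (L : List (ℕ × ℕ)) (hL : L.Sublist (verts n m)) (hLk : L.length = k) :
    ∃ u v : ℕ × ℕ, (u.1 < n ∧ u.2 < m ∧ v.1 < n ∧ v.2 < m ∧ u ≠ v) ∧
      (L.map (fun s => (2 ^ b) ^ cyl n u.1 u.2 s.1 s.2)).sum =
      (L.map (fun s => (2 ^ b) ^ cyl n v.1 v.2 s.1 s.2)).sum := by
  unfold full at h
  simp only [force_eq, forceList_eq] at h
  obtain ⟨D, hD⟩ : ∃ D, D = n / 2 + m := ⟨_, rfl⟩
  rw [← hD] at h
  obtain ⟨w, hw⟩ : ∃ w, w = b * D + 6 := ⟨_, rfl⟩
  rw [← hw] at h
  obtain ⟨C, hC⟩ : ∃ C, C = (2 ^ b) ^ D := ⟨_, rfl⟩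
  rw [← hC] at h
  have hC0 : 1 ≤ C := by rw [hC]; exact Nat.one_le_pow _ _ (by positivity)
  have h2 := chk_sound _ _ _ _ h (L.map (fun s => pack (w + 1) (prs.map (fld n (2 ^ b) C s))))
    (hL.map _) (by simpa using hLk)
  rw [zero_add, pack_sum] at h2
  have hwC : 64 * C = 2 ^ w := by
    rw [hC, hw, pow_add, pow_mul]
    ring
  have hverts : ∀ s ∈ L, s.1 < n ∧ s.2 < m := by
    intro s hs
    have := hL.subset hs
    unfold verts at this
    simp only [List.mem_flatMap, List.mem_range, List.mem_map] at this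
    obtain ⟨x, hx, y, hy, rfl⟩ := this
    exact ⟨hx, hy⟩
  have hvp : ∀ p ∈ prs, p.1.1 < n ∧ p.1.2 < m ∧ p.2.1 < n ∧ p.2.2 < m ∧ p.1 ≠ p.2 := by
    intro p hp
    unfold validPairs at hv
    rw [List.all_eq_true] at hv
    exact of_decide_eq_true (hv p hp)
  have hlt : ∀ u : ℕ × ℕ, u.1 < n → u.2 < m → ∀ s ∈ L,
      (2 ^ b) ^ cyl n u.1 u.2 s.1 s.2 ≤ C := by
    intro u hu1 hu2 s hs
    obtain ⟨h3, h4⟩ := hverts s hs
    rw [hC]
    apply Nat.pow_le_pow_right (by positivity)
    have := cyl_lt hu1 hu2 h3 h4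
    omega
  have hLne : L ≠ [] := by
    intro h3
    rw [h3] at hLk
    simp at hLk
    omega
  have hsum : ∀ p ∈ prs, (L.map (fun s => fld n (2 ^ b) C s p)).sum < 2 * (k * C) := by
    intro p hp
    obtain ⟨h3, h4, h5, h6, h7⟩ := hvp p hp
    have := sum_lt L (fun s => fld n (2 ^ b) C s p) (2 * C) (by
      intro s hs
      have h8 := hlt p.1 h3 h4 s hs
      have h9 : 1 ≤ (2 ^ b) ^ cyl n p.2.1 p.2.2 s.1 s.2 := Nat.one_le_pow _ _ (by positivity)
      show (2 ^ b) ^ cyl n p.1.1 p.1.2 s.1 s.2 + (C - (2 ^ b) ^ cyl n p.2.1 p.2.2 s.1 s.2) < 2 * C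
      omega) hLne
    rw [hLk] at this
    calc _ < k * (2 * C) := this
      _ = 2 * (k * C) := by ring
  have hkC : k * C ≤ 32 * C := Nat.mul_le_mul_right C hk
  have hkC0 : 1 ≤ k * C := Nat.mul_pos hk0 hC0
  obtain ⟨p, hp, hpe⟩ := tst_sound w (k * C) prs
    (fun p => (L.map (fun s => fld n (2 ^ b) C s p)).sum) (by omega) hkC0 hsum h2
  obtain ⟨h3, h4, h5, h6, h7⟩ := hvp p hp
  refine ⟨p.1, p.2, ⟨h3, h4, h5, h6, h7⟩, ?_⟩
  have h8 := sum_split L (fun s => (2 ^ b) ^ cyl n p.1.1 p.1.2 s.1 s.2)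
    (fun s => (2 ^ b) ^ cyl n p.2.1 p.2.2 s.1 s.2) C (fun s hs => hlt p.2 h5 h6 s hs)
  have h9 : (L.map (fun s => (2 ^ b) ^ cyl n p.1.1 p.1.2 s.1 s.2 +
      (C - (2 ^ b) ^ cyl n p.2.1 p.2.2 s.1 s.2))).sum = k * C := hpe
  rw [h9, hLk] at h8
  omega

/-- base `B` codes determine small multisets -/
theorem code_inj (B : ℕ) (hB : 2 ≤ B) : ∀ (k : ℕ), k < B → ∀ X Y : Multiset ℕ,
    Multiset.card X = k → Multiset.card Y = k →
    (X.map (fun x => B ^ x)).sum = (Y.map (fun x => B ^ x)).sum → X = Y := by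
  intro k
  induction k with
  | zero =>
    intro _ X Y hX hY _
    rw [Multiset.card_eq_zero.mp hX, Multiset.card_eq_zero.mp hY]
  | succ k ih =>
    intro hk X Y hX hY h
    have key : ∀ Z : Multiset ℕ, Multiset.card Z = k + 1 →
        ∃ z ∈ Z, ∀ t ∈ Z, t ≤ z := by
      intro Z hZ
      have hne : Z.toFinset.Nonempty := by
        rw [Multiset.toFinset_nonempty]
        intro h0
        rw [h0] at hZ
        simp at hZ
      obtain ⟨z, hz, hz2⟩ := Finset.exists_max_image Z.toFinset id hne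
      exact ⟨z, Multiset.mem_toFinset.mp hz, fun t ht => hz2 t (Multiset.mem_toFinset.mpr ht)⟩
    have bound : ∀ Z : Multiset ℕ, Multiset.card Z = k + 1 → ∀ z, (∀ t ∈ Z, t ≤ z) →
        (Z.map (fun x => B ^ x)).sum < B ^ (z + 1) := by
      intro Z hZ z hz
      have h1 : (Z.map (fun x => B ^ x)).sum ≤ Multiset.card (Z.map (fun x => B ^ x)) • B ^ z := by
        apply Multiset.sum_le_card_nsmul
        intro x hx
        obtain ⟨t, ht, rfl⟩ := Multiset.mem_map.mp hx
        exact Nat.pow_le_pow_right (by omega) (hz t ht)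
      rw [Multiset.card_map, hZ, smul_eq_mul] at h1
      calc _ ≤ (k + 1) * B ^ z := h1
        _ < B * B ^ z := Nat.mul_lt_mul_of_pos_right hk (Nat.pow_pos (by omega))
        _ = B ^ (z + 1) := by rw [pow_succ]; ring
    have lower : ∀ Z : Multiset ℕ, ∀ z ∈ Z, B ^ z ≤ (Z.map (fun x => B ^ x)).sum := by
      intro Z z hz
      exact Multiset.single_le_sum (fun _ _ => Nat.zero_le _) _ (Multiset.mem_map_of_mem _ hz)
    obtain ⟨x, hx, hx2⟩ := key X hX
    obtain ⟨y, hy, hy2⟩ := key Y hY
    have hxy : x = y := by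
      have a1 := lower X x hx
      have a2 := bound X hX x hx2
      have a3 := lower Y y hy
      have a4 := bound Y hY y hy2
      have a5 : B ^ x < B ^ (y + 1) := by omega
      have a6 : B ^ y < B ^ (x + 1) := by omega
      have a7 := (Nat.pow_lt_pow_iff_right (by omega)).mp a5
      have a8 := (Nat.pow_lt_pow_iff_right (by omega)).mp a6
      omega
    subst hxy
    obtain ⟨X', rfl⟩ := Multiset.exists_cons_of_mem hx
    obtain ⟨Y', rfl⟩ := Multiset.exists_cons_of_mem hy
    congr 1
    rw [Multiset.card_cons] at hX hY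
    rw [Multiset.map_cons, Multiset.map_cons, Multiset.sum_cons, Multiset.sum_cons] at h
    exact ih (by omega) X' Y' (by omega) (by omega) (by omega)

/-- coordinates of a vertex -/
def crd {n m : ℕ} (u : Fin n × Fin m) : ℕ × ℕ := (u.1.val, u.2.val)

theorem crd_inj {n m : ℕ} : Function.Injective (crd (n := n) (m := m)) := by
  intro u v h
  unfold crd at h
  simp only [Prod.mk.injEq] at h
  exact Prod.ext (Fin.ext h.1) (Fin.ext h.2)

theorem rep_eq {n m : ℕ} (hn : 3 ≤ n) (S : Finset (Fin n × Fin m)) (u : Fin n × Fin m) :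
    multisetRep (cycleGraph n □ pathGraph m) S u =
      (S.val.map crd).map (fun s => cyl n u.1.val u.2.val s.1 s.2) := by
  unfold multisetRep
  rw [Multiset.map_map]
  apply Multiset.map_congr rfl
  intro s _
  rw [dist_cylinder hn]
  rfl

theorem mem_verts {n m : ℕ} (s : ℕ × ℕ) : s ∈ verts n m ↔ s.1 < n ∧ s.2 < m := by
  unfold verts
  simp only [List.mem_flatMap, List.mem_range, List.mem_map]
  constructor
  · rintro ⟨x, hx, y, hy, rfl⟩
    exact ⟨hx, hy⟩
  · rintro ⟨h1, h2⟩
    exact ⟨s.1, h1, s.2, h2, rfl⟩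

theorem nodup_verts (n m : ℕ) : (verts n m).Nodup := by
  unfold verts
  rw [List.nodup_flatMap]
  refine ⟨?_, ?_⟩
  · intro x _
    exact List.nodup_range.map (fun a b h => by simpa using h)
  · apply List.Pairwise.imp _ (List.nodup_range (n := n))
    intro a b hab
    rw [Function.onFun, List.disjoint_left]
    intro p hp1 hp2
    rw [List.mem_map] at hp1 hp2
    obtain ⟨y, _, rfl⟩ := hp1
    obtain ⟨y', _, h⟩ := hp2
    simp only [Prod.mk.injEq] at h
    exact hab h.1.symm

/-- the coordinates of a set of vertices form a sublist of `verts` -/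
theorem coords_sublist {n m : ℕ} (S : Finset (Fin n × Fin m)) :
    ∃ L : List (ℕ × ℕ), L.Sublist (verts n m) ∧ (S.val.map crd) = ↑L := by
  classical
  refine ⟨(verts n m).filter (fun s => decide (s ∈ S.val.map crd)), List.filter_sublist, ?_⟩
  have h1 : (S.val.map crd).Nodup := S.nodup.map crd_inj
  have h2 : ((verts n m).filter (fun s => decide (s ∈ S.val.map crd)) : Multiset (ℕ × ℕ)).Nodup :=
    Multiset.coe_nodup.mpr ((nodup_verts n m).filter _)
  rw [h1.ext h2]
  intro s
  rw [Multiset.mem_coe, List.mem_filter, decide_eq_true_eq, mem_verts]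
  constructor
  · intro h
    refine ⟨?_, h⟩
    obtain ⟨u, _, rfl⟩ := Multiset.mem_map.mp h
    exact ⟨u.1.isLt, u.2.isLt⟩
  · exact fun h => h.2

theorem not_resolving_of_full {n m b k : ℕ} {prs : List ((ℕ × ℕ) × (ℕ × ℕ))} (hn : 3 ≤ n)
    (hk0 : 1 ≤ k) (hk : k ≤ 32) (hkb : k < 2 ^ b)
    (h : full n m b k prs = true) (hv : validPairs n m prs = true)
    (S : Finset (Fin n × Fin m)) (hS : S.card = k) :
    ¬ IsMultisetResolving (cycleGraph n □ pathGraph m) S := by
  intro hR
  obtain ⟨L, hL, hLe⟩ := coords_sublist S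
  have hLk : L.length = k := by
    rw [← Multiset.coe_card, ← hLe, Multiset.card_map]
    exact hS
  obtain ⟨u, v, ⟨h1, h2, h3, h4, h5⟩, h6⟩ := full_sound hk0 hk h hv L hL hLk
  apply hR (⟨u.1, h1⟩, ⟨u.2, h2⟩) (⟨v.1, h3⟩, ⟨v.2, h4⟩)
  · intro he
    apply h5
    exact Prod.ext (congrArg (fun p => p.1.val) he) (congrArg (fun p => p.2.val) he)
  · rw [rep_eq hn, rep_eq hn, hLe]
    simp only
    apply code_inj (2 ^ b) (by
      have : 1 < 2 ^ b := by omega
      omega) k hkb
    · simpa using hLk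
    · simpa using hLk
    · rw [Multiset.map_map, Multiset.map_map, Multiset.map_coe, Multiset.map_coe,
        Multiset.sum_coe, Multiset.sum_coe]
      exact h6

/-- the code of a vertex with respect to a list of landmarks -/
def code (n b : ℕ) (Sl : List (ℕ × ℕ)) (u : ℕ × ℕ) : ℕ :=
  (Sl.map (fun s => (2 ^ b) ^ cyl n u.1 u.2 s.1 s.2)).sum

theorem mdim_le_of_code {n m : ℕ} (hn : 3 ≤ n) (b : ℕ) (Sl : List (ℕ × ℕ))
    (hval : ∀ s ∈ Sl, s.1 < n ∧ s.2 < m) (hnd : Sl.Nodup)
    (hinj : ((verts n m).map (code n b Sl)).Nodup) :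
    mdim (cycleGraph n □ pathGraph m) ≤ (Sl.length : ℕ) := by
  classical
  let S : Finset (Fin n × Fin m) := Finset.univ.filter (fun u => crd u ∈ Sl)
  have hS : S.val.map crd = ↑Sl := by
    have h1 : (S.val.map crd).Nodup := S.nodup.map crd_inj
    rw [h1.ext (Multiset.coe_nodup.mpr hnd)]
    intro s
    rw [Multiset.mem_map, Multiset.mem_coe]
    constructor
    · rintro ⟨u, hu, rfl⟩
      exact (Finset.mem_filter.mp hu).2
    · intro hs
      obtain ⟨h2, h3⟩ := hval s hs
      exact ⟨(⟨s.1, h2⟩, ⟨s.2, h3⟩), Finset.mem_filter.mpr ⟨Finset.mem_univ _, hs⟩, rfl⟩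
  have hcard : S.card = Sl.length := by
    have := congrArg Multiset.card hS
    simpa using this
  rw [← hcard]
  unfold mdim
  refine iInf₂_le S ?_
  intro u v huv heq
  apply huv
  rw [rep_eq hn, rep_eq hn, hS] at heq
  have h1 := congrArg (fun X : Multiset ℕ => (X.map (fun x => (2 ^ b) ^ x)).sum) heq
  simp only [Multiset.map_coe, Multiset.sum_coe, List.map_map] at h1
  have h2 : code n b Sl (crd u) = code n b Sl (crd v) := h1
  have h3 := List.inj_on_of_nodup_map hinj
    (show crd u ∈ verts n m from (mem_verts _).mpr ⟨u.1.isLt, u.2.isLt⟩)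
    (show crd v ∈ verts n m from (mem_verts _).mpr ⟨v.1.isLt, v.2.isLt⟩) h2
  exact crd_inj h3

end Pool.Agent.H9.MDim
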