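import Pool.Agent.H9.MDim.Dist

/-! Explicit coincidences of distance multisets on the cylinder. -/

namespace Pool.Agent.H9.MDim

/-- two different points of the cylinder (columns mod `n`, rows `0..M`) have the same
multiset of distances to three given points. -/
def Coll (n M a1 b1 a2 b2 a3 b3 : ℤ) : Prop :=
  ∃ x y x' y' : ℤ, 0 ≤ y ∧ y ≤ M ∧ 0 ≤ y' ∧ y' ≤ M ∧ ((y = y' → ¬ n ∣ x - x')) ∧
    ({D n x y a1 b1, D n x y a2 b2, D n x y a3 b3} : Multiset ℤ) =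
      {D n x' y' a1 b1, D n x' y' a2 b2, D n x' y' a3 b3}

theorem ms_swap23 {α : Type*} (a b c : α) : ({a, b, c} : Multiset α) = {a, c, b} := by
  show a ::ₘ b ::ₘ c ::ₘ 0 = a ::ₘ c ::ₘ b ::ₘ 0
  rw [Multiset.cons_swap b c]

theorem ms_swap12 {α : Type*} (a b c : α) : ({a, b, c} : Multiset α) = {b, a, c} := by
  show a ::ₘ b ::ₘ c ::ₘ 0 = b ::ₘ a ::ₘ c ::ₘ 0
  rw [Multiset.cons_swap a b]

theorem Coll.swap12 {n M a1 b1 a2 b2 a3 b3 : ℤ} (h : Coll n M a1 b1 a2 b2 a3 b3) :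
    Coll n M a2 b2 a1 b1 a3 b3 := by
  obtain ⟨x, y, x', y', h1, h2, h3, h4, h5, h6⟩ := h
  refine ⟨x, y, x', y', h1, h2, h3, h4, h5, ?_⟩
  rw [ms_swap12, h6, ms_swap12]

theorem Coll.swap23 {n M a1 b1 a2 b2 a3 b3 : ℤ} (h : Coll n M a1 b1 a2 b2 a3 b3) :
    Coll n M a1 b1 a3 b3 a2 b2 := by
  obtain ⟨x, y, x', y', h1, h2, h3, h4, h5, h6⟩ := h
  refine ⟨x, y, x', y', h1, h2, h3, h4, h5, ?_⟩
  rw [ms_swap23, h6, ms_swap23]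

theorem Coll.swap13 {n M a1 b1 a2 b2 a3 b3 : ℤ} (h : Coll n M a1 b1 a2 b2 a3 b3) :
    Coll n M a3 b3 a2 b2 a1 b1 := h.swap12.swap23.swap12

theorem not_dvd_small {n x : ℤ} (h1 : -n < x) (h2 : x < n) (h3 : x ≠ 0) : ¬ n ∣ x := by
  intro h
  rcases lt_trichotomy x 0 with h4 | h4 | h4
  · have := Int.le_of_dvd (by omega) ((dvd_neg).mpr h)
    omega
  · omega
  · have := Int.le_of_dvd h4 h
    omega

/-- same column differences: translation -/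
theorem Coll.trans {n M a1 b1 a2 b2 a3 b3 : ℤ} (h : Coll n M a1 b1 a2 b2 a3 b3)
    (t c1 c2 c3 : ℤ) (h1 : c1 = a1 + t ∨ c1 = a1 + t + n ∨ c1 = a1 + t - n)
    (h2 : c2 = a2 + t ∨ c2 = a2 + t + n ∨ c2 = a2 + t - n)
    (h3 : c3 = a3 + t ∨ c3 = a3 + t + n ∨ c3 = a3 + t - n) :
    Coll n M c1 b1 c2 b2 c3 b3 := by
  obtain ⟨x, y, x', y', e1, e2, e3, e4, e5, e6⟩ := h
  have key : ∀ c a b u v : ℤ, (c = a + t ∨ c = a + t + n ∨ c = a + t - n) →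
      D n (u + t) v c b = D n u v a b := by
    intro c a b u v hc
    unfold D
    congr 1
    apply cd_congr
    rcases hc with hc | hc | hc
    · exact ⟨0, by rw [hc]; ring⟩
    · exact ⟨-1, by rw [hc]; ring⟩
    · exact ⟨1, by rw [hc]; ring⟩
  refine ⟨x + t, y, x' + t, y', e1, e2, e3, e4, ?_, ?_⟩
  · intro hy
    have := e5 hy
    rwa [show x + t - (x' + t) = x - x' by ring]
  · rw [key c1 a1 b1 x y h1, key c2 a2 b2 x y h2, key c3 a3 b3 x y h3,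
      key c1 a1 b1 x' y' h1, key c2 a2 b2 x' y' h2, key c3 a3 b3 x' y' h3]
    exact e6

/-- reflection of the columns -/
theorem Coll.refl {n M a1 b1 a2 b2 a3 b3 : ℤ} (hn : 0 < n) (h : Coll n M a1 b1 a2 b2 a3 b3)
    (t c1 c2 c3 : ℤ) (h1 : c1 = t - a1 ∨ c1 = t - a1 + n ∨ c1 = t - a1 - n)
    (h2 : c2 = t - a2 ∨ c2 = t - a2 + n ∨ c2 = t - a2 - n)
    (h3 : c3 = t - a3 ∨ c3 = t - a3 + n ∨ c3 = t - a3 - n) :
    Coll n M c1 b1 c2 b2 c3 b3 := by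
  obtain ⟨x, y, x', y', e1, e2, e3, e4, e5, e6⟩ := h
  have key : ∀ c a b u v : ℤ, (c = t - a ∨ c = t - a + n ∨ c = t - a - n) →
      D n (t - u) v c b = D n u v a b := by
    intro c a b u v hc
    unfold D
    congr 1
    rw [← cd_neg hn (u - a)]
    apply cd_congr
    rcases hc with hc | hc | hc
    · exact ⟨0, by rw [hc]; ring⟩
    · exact ⟨-1, by rw [hc]; ring⟩
    · exact ⟨1, by rw [hc]; ring⟩
  refine ⟨t - x, y, t - x', y', e1, e2, e3, e4, ?_, ?_⟩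
  · intro hy
    have := e5 hy
    intro h7
    apply this
    rw [show x - x' = -(t - x - (t - x')) by ring]
    exact (dvd_neg).mpr h7
  · rw [key c1 a1 b1 x y h1, key c2 a2 b2 x y h2, key c3 a3 b3 x y h3,
      key c1 a1 b1 x' y' h1, key c2 a2 b2 x' y' h2, key c3 a3 b3 x' y' h3]
    exact e6

/-- flipping the rows -/
theorem Coll.flip {n M a1 b1 a2 b2 a3 b3 : ℤ} (h : Coll n M a1 (M - b1) a2 (M - b2) a3 (M - b3)) :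
    Coll n M a1 b1 a2 b2 a3 b3 := by
  obtain ⟨x, y, x', y', e1, e2, e3, e4, e5, e6⟩ := h
  have key : ∀ a b u v : ℤ, D n u v a (M - b) = D n u (M - v) a b := by
    intro a b u v
    unfold D
    omega
  refine ⟨x, M - y, x', M - y', by omega, by omega, by omega, by omega, ?_, ?_⟩
  · intro hy
    exact e5 (by omega)
  · rw [← key, ← key, ← key, ← key, ← key, ← key]
    exact e6

theorem coll_mk {n M a1 b1 a2 b2 a3 b3 : ℤ} (x y x' y' : ℤ) (h1 : 0 ≤ y ∧ y ≤ M)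
    (h2 : 0 ≤ y' ∧ y' ≤ M) (h3 : y ≠ y' ∨ (-n < x - x' ∧ x - x' < n ∧ x ≠ x'))
    (h4 : (D n x y a1 b1 = D n x' y' a1 b1 ∧ D n x y a2 b2 = D n x' y' a2 b2 ∧
        D n x y a3 b3 = D n x' y' a3 b3) ∨
      (D n x y a1 b1 = D n x' y' a1 b1 ∧ D n x y a2 b2 = D n x' y' a3 b3 ∧
        D n x y a3 b3 = D n x' y' a2 b2) ∨
      (D n x y a1 b1 = D n x' y' a2 b2 ∧ D n x y a2 b2 = D n x' y' a1 b1 ∧
        D n x y a3 b3 = D n x' y' a3 b3) ∨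
      (D n x y a1 b1 = D n x' y' a3 b3 ∧ D n x y a2 b2 = D n x' y' a2 b2 ∧
        D n x y a3 b3 = D n x' y' a1 b1) ∨
      (D n x y a1 b1 = D n x' y' a2 b2 ∧ D n x y a2 b2 = D n x' y' a3 b3 ∧
        D n x y a3 b3 = D n x' y' a1 b1) ∨
      (D n x y a1 b1 = D n x' y' a3 b3 ∧ D n x y a2 b2 = D n x' y' a1 b1 ∧
        D n x y a3 b3 = D n x' y' a2 b2)) :
    Coll n M a1 b1 a2 b2 a3 b3 := by
  refine ⟨x, y, x', y', h1.1, h1.2, h2.1, h2.2, ?_, ?_⟩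
  · intro hy
    rcases h3 with h3 | ⟨h3, h5, h6⟩
    · exact absurd hy h3
    · exact not_dvd_small h3 h5 (by omega)
  · rcases h4 with ⟨e1, e2, e3⟩ | ⟨e1, e2, e3⟩ | ⟨e1, e2, e3⟩ | ⟨e1, e2, e3⟩ | ⟨e1, e2, e3⟩ |
      ⟨e1, e2, e3⟩
    · rw [e1, e2, e3]
    · rw [e1, e2, e3, ms_swap23]
    · rw [e1, e2, e3, ms_swap12]
    · rw [e1, e2, e3, ms_swap12, ms_swap23, ms_swap12]
    · rw [e1, e2, e3, ms_swap23, ms_swap12]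
    · rw [e1, e2, e3, ms_swap12, ms_swap23]

/-- identity matching -/
theorem coll_id {n M a1 b1 a2 b2 a3 b3 : ℤ} (x y x' y' : ℤ) (h1 : 0 ≤ y ∧ y ≤ M)
    (h2 : 0 ≤ y' ∧ y' ≤ M) (h3 : y ≠ y' ∨ (-n < x - x' ∧ x - x' < n ∧ x ≠ x'))
    (e1 : D n x y a1 b1 = D n x' y' a1 b1) (e2 : D n x y a2 b2 = D n x' y' a2 b2)
    (e3 : D n x y a3 b3 = D n x' y' a3 b3) :
    Coll n M a1 b1 a2 b2 a3 b3 := coll_mk x y x' y' h1 h2 h3 (Or.inl ⟨e1, e2, e3⟩)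

theorem coll_23 {n M a1 b1 a2 b2 a3 b3 : ℤ} (x y x' y' : ℤ) (h1 : 0 ≤ y ∧ y ≤ M)
    (h2 : 0 ≤ y' ∧ y' ≤ M) (h3 : y ≠ y' ∨ (-n < x - x' ∧ x - x' < n ∧ x ≠ x'))
    (e1 : D n x y a1 b1 = D n x' y' a1 b1) (e2 : D n x y a2 b2 = D n x' y' a3 b3)
    (e3 : D n x y a3 b3 = D n x' y' a2 b2) :
    Coll n M a1 b1 a2 b2 a3 b3 := coll_mk x y x' y' h1 h2 h3 (Or.inr (Or.inl ⟨e1, e2, e3⟩))

theorem coll_12 {n M a1 b1 a2 b2 a3 b3 : ℤ} (x y x' y' : ℤ) (h1 : 0 ≤ y ∧ y ≤ M)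
    (h2 : 0 ≤ y' ∧ y' ≤ M) (h3 : y ≠ y' ∨ (-n < x - x' ∧ x - x' < n ∧ x ≠ x'))
    (e1 : D n x y a1 b1 = D n x' y' a2 b2) (e2 : D n x y a2 b2 = D n x' y' a1 b1)
    (e3 : D n x y a3 b3 = D n x' y' a3 b3) :
    Coll n M a1 b1 a2 b2 a3 b3 :=
  coll_mk x y x' y' h1 h2 h3 (Or.inr (Or.inr (Or.inl ⟨e1, e2, e3⟩)))

theorem coll_13 {n M a1 b1 a2 b2 a3 b3 : ℤ} (x y x' y' : ℤ) (h1 : 0 ≤ y ∧ y ≤ M)
    (h2 : 0 ≤ y' ∧ y' ≤ M) (h3 : y ≠ y' ∨ (-n < x - x' ∧ x - x' < n ∧ x ≠ x'))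
    (e1 : D n x y a1 b1 = D n x' y' a3 b3) (e2 : D n x y a2 b2 = D n x' y' a2 b2)
    (e3 : D n x y a3 b3 = D n x' y' a1 b1) :
    Coll n M a1 b1 a2 b2 a3 b3 :=
  coll_mk x y x' y' h1 h2 h3 (Or.inr (Or.inr (Or.inr (Or.inl ⟨e1, e2, e3⟩))))

theorem coll_231 {n M a1 b1 a2 b2 a3 b3 : ℤ} (x y x' y' : ℤ) (h1 : 0 ≤ y ∧ y ≤ M)
    (h2 : 0 ≤ y' ∧ y' ≤ M) (h3 : y ≠ y' ∨ (-n < x - x' ∧ x - x' < n ∧ x ≠ x'))
    (e1 : D n x y a1 b1 = D n x' y' a2 b2) (e2 : D n x y a2 b2 = D n x' y' a3 b3)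
    (e3 : D n x y a3 b3 = D n x' y' a1 b1) :
    Coll n M a1 b1 a2 b2 a3 b3 :=
  coll_mk x y x' y' h1 h2 h3 (Or.inr (Or.inr (Or.inr (Or.inr (Or.inl ⟨e1, e2, e3⟩)))))

theorem coll_312 {n M a1 b1 a2 b2 a3 b3 : ℤ} (x y x' y' : ℤ) (h1 : 0 ≤ y ∧ y ≤ M)
    (h2 : 0 ≤ y' ∧ y' ≤ M) (h3 : y ≠ y' ∨ (-n < x - x' ∧ x - x' < n ∧ x ≠ x'))
    (e1 : D n x y a1 b1 = D n x' y' a3 b3) (e2 : D n x y a2 b2 = D n x' y' a1 b1)
    (e3 : D n x y a3 b3 = D n x' y' a2 b2) :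
    Coll n M a1 b1 a2 b2 a3 b3 :=
  coll_mk x y x' y' h1 h2 h3 (Or.inr (Or.inr (Or.inr (Or.inr (Or.inr ⟨e1, e2, e3⟩)))))

end Pool.Agent.H9.MDim
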