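import Mathlib.Combinatorics.SimpleGraph.Metric
import Mathlib.Data.ENat.Lattice

/-! Multiset dimension of a graph. -/

namespace Pool.Agent.H9.MDim

/-- The multiset of the distances from `v` to the elements of `S`. -/
noncomputable def multisetRep {V : Type*} (G : SimpleGraph V) (S : Finset V) (v : V) :
    Multiset ℕ :=
  S.val.map (fun s => G.dist v s)

/-- `S` is a multiset resolving set: distinct vertices have distinct distance multisets. -/
def IsMultisetResolving {V : Type*} (G : SimpleGraph V) (S : Finset V) : Prop :=
  ∀ u v : V, u ≠ v → multisetRep G S u ≠ multisetRep G S v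

/-- The multiset dimension: the least cardinality of a multiset resolving set, `⊤` if there is
none. -/
noncomputable def mdim {V : Type*} (G : SimpleGraph V) : ℕ∞ :=
  ⨅ (S : Finset V) (_ : IsMultisetResolving G S), (S.card : ℕ∞)

end Pool.Agent.H9.MDim
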