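import Mathlib.Combinatorics.SimpleGraph.Prod
import Mathlib.Combinatorics.SimpleGraph.CycleGraph
import Mathlib.Combinatorics.SimpleGraph.Metric
import Mathlib.Tactic

/-! Distances in the cylinder `cycleGraph n □ pathGraph m`. -/

namespace Pool.Agent.H9.MDim

open SimpleGraph

/-- A function which vanishes on the diagonal, is one-Lipschitz along edges and can always be
decreased by one is the distance. -/
theorem dist_eq_of_potential {V : Type*} (G : SimpleGraph V) (f : V → V → ℕ)
    (h0 : ∀ u, f u u = 0) (h0' : ∀ u v, f u v = 0 → u = v)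
    (h1 : ∀ u v w, G.Adj v w → f u w ≤ f u v + 1)
    (h2 : ∀ u v, f u v ≠ 0 → ∃ w, G.Adj w v ∧ f u w + 1 = f u v) (u v : V) :
    G.edist u v = f u v := by
  apply le_antisymm
  · obtain ⟨k, hk⟩ : ∃ k, f u v = k := ⟨_, rfl⟩
    induction k generalizing v with
    | zero =>
      rw [h0' u v hk]
      simp
    | succ k ih =>
      obtain ⟨w, hw, hw2⟩ := h2 u v (by omega)
      have h3 := ih w (by omega)
      calc G.edist u v ≤ G.edist u w + G.edist w v := SimpleGraph.edist_triangle
        _ ≤ f u w + 1 := by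
            refine add_le_add h3 ?_
            rw [SimpleGraph.edist_eq_one_iff_adj.mpr hw]
        _ = (f u v : ℕ∞) := by rw [← hw2]; push_cast; rfl
  · by_cases hr : G.Reachable u v
    · obtain ⟨p, hp⟩ := hr.exists_walk_length_eq_edist
      rw [← hp]
      have key : ∀ (a b : V) (q : G.Walk a b), f u b ≤ f u a + q.length := by
        intro a b q
        induction q with
        | nil => simp
        | cons hadj q ih =>
          have := h1 u _ _ hadj
          simp only [Walk.length_cons]
          omega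
      have := key u v p
      rw [h0 u] at this
      exact_mod_cast (by omega : f u v ≤ p.length)
    · rw [SimpleGraph.edist_eq_top_of_not_reachable hr]
      exact le_top

/-- cyclic distance on `ℤ` modulo `n` -/
def cd (n x : ℤ) : ℤ := min (x % n) (n - x % n)

theorem cd_range {n x : ℤ} (hn : 0 < n) (k : ℤ) (h0 : n * k ≤ x) (h1 : x ≤ n * k + n) :
    cd n x = min (x - n * k) (n - (x - n * k)) := by
  unfold cd
  rcases eq_or_lt_of_le h1 with h | h
  · subst h
    have : (n * k + n) % n = 0 := by
      rw [show n * k + n = n * (k + 1) by ring]; exact Int.mul_emod_right n (k + 1)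
    rw [this]
    have : n * k + n - n * k = n := by ring
    rw [this]
    simp [hn.le]
  · have : x % n = x - n * k := by
      have h3 : (x - n * k) % n = x % n := by
        rw [Int.sub_mul_emod_self_left]
      rw [← h3]
      exact Int.emod_eq_of_lt (by linarith) (by linarith)
    rw [this]

theorem cd_a {n x : ℤ} (hn : 0 < n) (h0 : 0 ≤ x) (h1 : 2 * x ≤ n) : cd n x = x := by
  rw [cd_range hn 0 (by omega) (by omega)]; omega

theorem cd_b {n x : ℤ} (hn : 0 < n) (h0 : x ≤ 0) (h1 : -n ≤ 2 * x) : cd n x = -x := by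
  rw [cd_range hn (-1) (by omega) (by omega)]; omega

theorem cd_c {n x : ℤ} (hn : 0 < n) (h0 : x ≤ n) (h1 : n ≤ 2 * x) : cd n x = n - x := by
  rw [cd_range hn 0 (by omega) (by omega)]; omega

theorem cd_d {n x : ℤ} (hn : 0 < n) (h0 : -n ≤ x) (h1 : 2 * x ≤ -n) : cd n x = n + x := by
  rw [cd_range hn (-1) (by omega) (by omega)]; omega

theorem cd_e {n x : ℤ} (hn : 0 < n) (h0 : n ≤ x) (h1 : 2 * x ≤ 3 * n) : cd n x = x - n := by
  rw [cd_range hn 1 (by omega) (by omega)]; omega

theorem cd_f {n x : ℤ} (hn : 0 < n) (h0 : x ≤ -n) (h1 : -3 * n ≤ 2 * x) : cd n x = -x - n := by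
  rw [cd_range hn (-2) (by omega) (by omega)]; omega

theorem cd_g {n x : ℤ} (hn : 0 < n) (h0 : x ≤ 2 * n) (h1 : 3 * n ≤ 2 * x) :
    cd n x = 2 * n - x := by
  rw [cd_range hn 1 (by omega) (by omega)]; omega

theorem cd_h {n x : ℤ} (hn : 0 < n) (h0 : -2 * n ≤ x) (h1 : 2 * x ≤ -3 * n) :
    cd n x = 2 * n + x := by
  rw [cd_range hn (-2) (by omega) (by omega)]; omega

theorem cd_emod (n x : ℤ) : cd n (x % n) = cd n x := by
  unfold cd; rw [Int.emod_emod_of_dvd _ (dvd_refl n)]

theorem cd_congr {n x y : ℤ} (h : n ∣ x - y) : cd n x = cd n y := by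
  have h2 : x % n = y % n :=
    Int.emod_eq_emod_iff_emod_sub_eq_zero.mpr (Int.emod_eq_zero_of_dvd h)
  unfold cd
  rw [h2]

theorem cd_neg {n : ℤ} (hn : 0 < n) (x : ℤ) : cd n (-x) = cd n x := by
  have h0 : 0 ≤ x % n := Int.emod_nonneg _ (by omega)
  have h1 : x % n < n := Int.emod_lt_of_pos _ hn
  have h2 : cd n x = cd n (x % n) := (cd_emod n x).symm
  have h3 : cd n (-x) = cd n (-(x % n)) := by
    apply cd_congr
    have : -x - -(x % n) = n * (-(x / n)) := by
      have := Int.emod_add_mul_ediv x n
      linarith [this, mul_neg n (x / n)]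
    rw [this]
    exact dvd_mul_right _ _
  rw [h2, h3]
  by_cases h : 2 * (x % n) ≤ n
  · rw [cd_b hn (by omega) (by omega), cd_a hn h0 h]; omega
  · rw [cd_d hn (by omega) (by omega), cd_c hn (by omega) (by omega)]; omega

/-- cyclic distance of two residues below `n` -/
def nd (n a b : ℕ) : ℕ := min (max a b - min a b) (n - (max a b - min a b))

theorem cycle_adj {n : ℕ} (u v : Fin n) (hn : 3 ≤ n) :
    (cycleGraph n).Adj u v ↔ (u.val = v.val + 1 ∨ v.val = u.val + 1 ∨
      (u.val = 0 ∧ v.val + 1 = n) ∨ (v.val = 0 ∧ u.val + 1 = n)) := by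
  rw [cycleGraph_adj']
  have hu := u.isLt
  have hv := v.isLt
  rw [Fin.val_sub, Fin.val_sub]
  have h1 : ∀ a b : ℕ, a < n → b < n →
      ((n - b + a) % n = if b ≤ a then a - b else n - b + a) := by
    intro a b ha hb
    split_ifs with h
    · have : n - b + a = (a - b) + n := by omega
      rw [this, Nat.add_mod_right]
      exact Nat.mod_eq_of_lt (by omega)
    · exact Nat.mod_eq_of_lt (by omega)
  rw [h1 _ _ hu hv, h1 _ _ hv hu]
  split_ifs <;> omega

theorem edist_cycle {n : ℕ} (hn : 3 ≤ n) (u v : Fin n) :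
    (cycleGraph n).edist u v = nd n u.val v.val := by
  apply dist_eq_of_potential (cycleGraph n) (fun u v => nd n u.val v.val)
  · intro u; simp [nd]
  · intro u v h
    have hu := u.isLt
    have hv := v.isLt
    unfold nd at h
    apply Fin.ext
    omega
  · intro u v w h
    rw [cycle_adj _ _ hn] at h
    have hu := u.isLt
    have hv := v.isLt
    have hw := w.isLt
    unfold nd
    omega
  · intro u v h
    have hu := u.isLt
    have hv := v.isLt
    unfold nd at h
    have key : ∀ w : ℕ, w < n → (w = v.val + 1 ∨ v.val = w + 1 ∨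
      (w = 0 ∧ v.val + 1 = n) ∨ (v.val = 0 ∧ w + 1 = n)) →
      nd n u.val w + 1 = nd n u.val v.val →
      ∃ w, (cycleGraph n).Adj w v ∧ nd n u.val w.val + 1 = nd n u.val v.val := by
      intro w hw h1 h2
      exact ⟨⟨w, hw⟩, (cycle_adj _ _ hn).mpr h1, h2⟩
    unfold nd at key
    by_cases hle : u.val ≤ v.val
    · by_cases hs : 2 * (v.val - u.val) ≤ n
      · exact key (v.val - 1) (by omega) (by omega) (by omega)
      · by_cases hv1 : v.val + 1 = n
        · exact key 0 (by omega) (by omega) (by omega)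
        · exact key (v.val + 1) (by omega) (by omega) (by omega)
    · by_cases hs : 2 * (u.val - v.val) ≤ n
      · exact key (v.val + 1) (by omega) (by omega) (by omega)
      · by_cases hv1 : v.val = 0
        · exact key (n - 1) (by omega) (by omega) (by omega)
        · exact key (v.val - 1) (by omega) (by omega) (by omega)

theorem edist_path {m : ℕ} (u v : Fin m) :
    (pathGraph m).edist u v = ((max u.val v.val - min u.val v.val : ℕ) : ℕ∞) := by
  apply dist_eq_of_potential (pathGraph m)
    (fun u v => (max u.val v.val - min u.val v.val : ℕ))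
  · intro u; simp
  · intro u v h
    apply Fin.ext
    omega
  · intro u v w h
    rw [pathGraph_adj] at h
    omega
  · intro u v h
    have hu := u.isLt
    have hv := v.isLt
    have h' : max u.val v.val - min u.val v.val ≠ 0 := h
    clear h
    have h3 : u.val ≠ v.val := by
      intro h4
      rw [h4] at h'
      simp at h'
    by_cases hle : u.val ≤ v.val
    · refine ⟨⟨v.val - 1, by omega⟩, ?_, ?_⟩
      · rw [pathGraph_adj]; simp only; omega
      · simp only; omega
    · refine ⟨⟨v.val + 1, by omega⟩, ?_, ?_⟩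
      · rw [pathGraph_adj]; exact Or.inr rfl
      · simp only; omega

/-- the distance in the cylinder, as a natural number -/
def cyl (n : ℕ) (a b c d : ℕ) : ℕ := nd n a c + (max b d - min b d)

theorem dist_cylinder {n m : ℕ} (hn : 3 ≤ n) (u v : Fin n × Fin m) :
    (cycleGraph n □ pathGraph m).dist u v = cyl n u.1.val u.2.val v.1.val v.2.val := by
  rw [SimpleGraph.dist, edist_boxProd, edist_cycle hn, edist_path]
  unfold cyl
  rw [← Nat.cast_add]
  rfl

/-- integral distance on the (unrolled) cylinder -/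
def D (n x y a b : ℤ) : ℤ := cd n (x - a) + max (y - b) (b - y)

theorem nd_eq_cd {n a b : ℕ} (ha : a < n) (hb : b < n) :
    (nd n a b : ℤ) = cd n ((a : ℤ) - b) := by
  have hn : (0 : ℤ) < n := by omega
  unfold nd
  by_cases h : b ≤ a
  · by_cases h2 : 2 * (a - b) ≤ n
    · rw [cd_a hn (by omega) (by omega)]; omega
    · rw [cd_c hn (by omega) (by omega)]; omega
  · by_cases h2 : 2 * (b - a) ≤ n
    · rw [cd_b hn (by omega) (by omega)]; omega
    · rw [cd_d hn (by omega) (by omega)]; omega

theorem cyl_eq_D {n a b c d : ℕ} (ha : a < n) (hc : c < n) :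
    (cyl n a b c d : ℤ) = D n a b c d := by
  unfold cyl D
  rw [Nat.cast_add, nd_eq_cd ha hc]
  omega

end Pool.Agent.H9.MDim
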