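import Pool.Agent.H9.MDim.Coll

/-! Explicit coincidences for three points on a cylinder with an even cycle. -/

set_option linter.unusedSimpArgs false
set_option linter.unusedVariables false

namespace Pool.Agent.H9.MDim

/-- three different rows, the outer columns are different -/
theorem IVe_local {N M y1 y2 y3 s t : ℤ} (hN : 2 ≤ N) (h0 : 0 ≤ y1) (h1 : y1 < y2) (h2 : y2 < y3)
    (h3 : y3 ≤ M) (ht0 : 1 ≤ t) (ht1 : t ≤ N) (hs0 : 0 ≤ s) (hs1 : s < 2 * N) :
    Coll (2 * N) M 0 y1 s y2 t y3 := by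
  by_cases h : 1 ≤ s ∧ s ≤ N
  · apply coll_id 1 y1 0 (y1 + 1) (by omega) (by omega) (by omega) <;>
    · unfold D
      simp (disch := omega) only [cd_a, cd_b, cd_c, cd_d, cd_e, cd_f]
      omega
  · by_cases h' : s = 0
    · subst h'
      apply coll_id 1 y2 0 (y2 + 1) (by omega) (by omega) (by omega) <;>
      · unfold D
        simp (disch := omega) only [cd_a, cd_b, cd_c, cd_d, cd_e, cd_f]
        omega
    · apply coll_id 1 y2 0 (y2 + 1) (by omega) (by omega) (by omega) <;>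
      · unfold D
        simp (disch := omega) only [cd_a, cd_b, cd_c, cd_d, cd_e, cd_f]
        omega

/-- three different rows, the outer columns are equal -/
theorem IVe_eq {N M y1 y2 y3 a : ℤ} (hN : 2 ≤ N) (h0 : 0 ≤ y1) (h1 : y1 < y2) (h2 : y2 < y3)
    (h3 : y3 ≤ M) (ha0 : 0 ≤ a) (ha1 : a ≤ N) :
    Coll (2 * N) M 0 y1 a y2 0 y3 := by
  by_cases c1 : a = 0
  · subst c1
    apply coll_id 1 y1 (-1) y1 (by omega) (by omega) (by omega) <;>
    · unfold D
      simp (disch := omega) only [cd_a, cd_b, cd_c, cd_d, cd_e, cd_f]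
      try omega
  by_cases c2 : a = N
  · subst c2
    apply coll_id 1 y1 (-1) y1 (by omega) (by omega) (by omega) <;>
    · unfold D
      simp (disch := omega) only [cd_a, cd_b, cd_c, cd_d, cd_e, cd_f]
      try omega
  by_cases c3 : (a - (y3 - y1) - (y2 - y1)) % 2 = 0
  · obtain ⟨x, hx⟩ : ∃ x, x = a / 2 + 1 := ⟨_, rfl⟩
    obtain ⟨y, hy⟩ : ∃ y, y = (a + (y2 - y1) + (y3 - y1)) / 2 - x := ⟨_, rfl⟩
    apply coll_23 x (y1 + y) (a - x) (y2 + (y3 - y1) - y) (by omega) (by omega) (by omega) <;>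
    · unfold D
      simp (disch := omega) only [cd_a, cd_b, cd_c, cd_d, cd_e, cd_f]
      omega
  by_cases c4 : (a - (y2 - y1)) % 2 = 0
  · obtain ⟨x, hx⟩ : ∃ x, x = a / 2 + 1 := ⟨_, rfl⟩
    obtain ⟨y, hy⟩ : ∃ y, y = x - (a - (y2 - y1)) / 2 := ⟨_, rfl⟩
    apply coll_12 x (y1 + y) (a - x) (y2 - y) (by omega) (by omega) (by omega) <;>
    · unfold D
      simp (disch := omega) only [cd_a, cd_b, cd_c, cd_d, cd_e, cd_f]
      omega
  obtain ⟨k, hk⟩ : ∃ k, y3 - y1 = 2 * k := ⟨(y3 - y1) / 2, by omega⟩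
  rcases lt_trichotomy (y2 - y1) k with c5 | c5 | c5
  · apply coll_13 1 (y1 + k + 1) (-1) (y1 + k - 1) (by omega) (by omega) (by omega) <;>
    · unfold D
      simp (disch := omega) only [cd_a, cd_b, cd_c, cd_d, cd_e, cd_f]
      omega
  · apply coll_13 0 y1 0 y3 (by omega) (by omega) (by omega) <;>
    · unfold D
      simp (disch := omega) only [cd_a, cd_b, cd_c, cd_d, cd_e, cd_f]
      omega
  · apply coll_13 1 (y1 + k - 1) (-1) (y1 + k + 1) (by omega) (by omega) (by omega) <;>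
    · unfold D
      simp (disch := omega) only [cd_a, cd_b, cd_c, cd_d, cd_e, cd_f]
      omega

/-- two points in row `y1`, antipodal columns, the third in a higher row -/
theorem T4e {N M y1 y3 s : ℤ} (hN : 2 ≤ N) (h0 : 0 ≤ y1) (h1 : y1 < y3)
    (h3 : y3 ≤ M) (hs0 : 0 ≤ s) (hs1 : s ≤ N) :
    Coll (2 * N) M 0 y1 N y1 s y3 := by
  by_cases c1 : s = 0
  · subst c1
    apply coll_id 1 y1 (-1) y1 (by omega) (by omega) (by omega) <;>
    · unfold D
      simp (disch := omega) only [cd_a, cd_b, cd_c, cd_d, cd_e, cd_f, cd_g, cd_h]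
      try omega
  by_cases c2 : s = N
  · subst c2
    apply coll_id 1 y1 (-1) y1 (by omega) (by omega) (by omega) <;>
    · unfold D
      simp (disch := omega) only [cd_a, cd_b, cd_c, cd_d, cd_e, cd_f, cd_g, cd_h]
      try omega
  by_cases c3 : (s - (y3 - y1)) % 2 = 0
  · obtain ⟨x, hx⟩ : ∃ x, x = s / 2 + 1 := ⟨_, rfl⟩
    obtain ⟨y, hy⟩ : ∃ y, y = x - (s - (y3 - y1)) / 2 := ⟨_, rfl⟩
    apply coll_13 x (y1 + y) (s - x) (y3 - y) (by omega) (by omega) (by omega) <;>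
    · unfold D
      simp (disch := omega) only [cd_a, cd_b, cd_c, cd_d, cd_e, cd_f, cd_g, cd_h]
      try omega
  by_cases c4 : (N - s - (y3 - y1)) % 2 = 0
  · obtain ⟨x, hx⟩ : ∃ x, x = (N - s) / 2 + 1 := ⟨_, rfl⟩
    obtain ⟨y, hy⟩ : ∃ y, y = x - (N - s - (y3 - y1)) / 2 := ⟨_, rfl⟩
    apply coll_23 (N - x) (y1 + y) (s + x) (y3 - y) (by omega) (by omega) (by omega) <;>
    · unfold D
      simp (disch := omega) only [cd_a, cd_b, cd_c, cd_d, cd_e, cd_f, cd_g, cd_h]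
      try omega
  obtain ⟨k, hk⟩ : ∃ k, N = 2 * k := ⟨N / 2, by omega⟩
  by_cases c5 : s ≤ k
  · apply coll_12 (s + k) y1 (s - k) y1 (by omega) (by omega) (by omega) <;>
    · unfold D
      simp (disch := omega) only [cd_a, cd_b, cd_c, cd_d, cd_e, cd_f, cd_g, cd_h]
      try omega
  · apply coll_12 (s + k) y1 (s - k) y1 (by omega) (by omega) (by omega) <;>
    · unfold D
      simp (disch := omega) only [cd_a, cd_b, cd_c, cd_d, cd_e, cd_f, cd_g, cd_h]
      try omega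

/-- two points in row `y1 < y3`, third point outside the short arc, or rows not extreme -/
theorem IIe_local {N M y1 y3 a s : ℤ} (hN : 2 ≤ N) (h0 : 0 ≤ y1) (h1 : y1 < y3)
    (h3 : y3 ≤ M) (ha0 : 1 ≤ a) (ha1 : a < N) (hs0 : 0 ≤ s) (hs1 : s < 2 * N)
    (h : a < s ∨ 0 < y1 ∨ y3 < M) :
    Coll (2 * N) M 0 y1 a y1 s y3 := by
  by_cases c1 : a < s ∧ s ≤ a + N
  · apply coll_id (a + 1) y1 a (y1 + 1) (by omega) (by omega) (by omega) <;>
    · unfold D
      simp (disch := omega) only [cd_a, cd_b, cd_c, cd_d, cd_e, cd_f, cd_g, cd_h]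
      try omega
  by_cases c2 : a + N < s
  · apply coll_id (-1) y1 0 (y1 + 1) (by omega) (by omega) (by omega) <;>
    · unfold D
      simp (disch := omega) only [cd_a, cd_b, cd_c, cd_d, cd_e, cd_f, cd_g, cd_h]
      try omega
  have c3 : s ≤ a := by omega
  by_cases c4 : 0 < y1
  · apply coll_id a (y1 - 1) (a + 1) y1 (by omega) (by omega) (by omega) <;>
    · unfold D
      simp (disch := omega) only [cd_a, cd_b, cd_c, cd_d, cd_e, cd_f, cd_g, cd_h]
      try omega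
  have c5 : y3 < M := by omega
  apply coll_id (a + 1) y3 a (y3 + 1) (by omega) (by omega) (by omega) <;>
  · unfold D
    simp (disch := omega) only [cd_a, cd_b, cd_c, cd_d, cd_e, cd_f, cd_g, cd_h]
    try omega

/-- two points in row `0`, third point in row `M` above the short arc -/
theorem T2e {N M b c : ℤ} (hN : 2 ≤ N) (hM : 1 ≤ M) (hb : 0 ≤ b) (hbc : b ≤ c) (hc : 1 ≤ c)
    (ha : b + c < N) (hcond : N < 3 * (M + 1) ∨ (N = 3 * (M + 1) + 1 ∧ N % 2 = 0)) :
    Coll (2 * N) M 0 0 (b + c) 0 b M := by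
  by_cases c1 : b = c
  · subst c1
    apply coll_12 (b + 1) 0 (b - 1) 0 (by omega) (by omega) (by omega) <;>
    · unfold D
      simp (disch := omega) only [cd_a, cd_b, cd_c, cd_d, cd_e, cd_f, cd_g, cd_h]
      try omega
  by_cases c2 : (b - M) % 2 = 0 ∧ 1 ≤ b
  · obtain ⟨x, hx⟩ : ∃ x, x = min (b - 1) ((b + M) / 2 - 1) := ⟨_, rfl⟩
    obtain ⟨y, hy⟩ : ∃ y, y = (b + M) / 2 - 1 - x := ⟨_, rfl⟩
    apply coll_13 x y (x + 1) (y + 1) (by omega) (by omega) (by omega) <;>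
    · unfold D
      simp (disch := omega) only [cd_a, cd_b, cd_c, cd_d, cd_e, cd_f, cd_g, cd_h]
      try omega
  by_cases c3 : (c - M) % 2 = 0
  · obtain ⟨x, hx⟩ : ∃ x, x = min (c - 1) ((c + M) / 2 - 1) := ⟨_, rfl⟩
    obtain ⟨y, hy⟩ : ∃ y, y = (c + M) / 2 - 1 - x := ⟨_, rfl⟩
    apply coll_23 (b + c - x) y (b + c - x - 1) (y + 1) (by omega) (by omega) (by omega) <;>
    · unfold D
      simp (disch := omega) only [cd_a, cd_b, cd_c, cd_d, cd_e, cd_f, cd_g, cd_h]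
      try omega
  by_cases c4 : (c - b) % 2 = 0
  · obtain ⟨d, hd⟩ : ∃ d, c - b = 2 * d := ⟨(c - b) / 2, by omega⟩
    obtain ⟨e, he⟩ : ∃ e, e = N - (b + c) := ⟨_, rfl⟩
    by_cases c5 : d ≤ e ∧ d ≤ M
    · apply coll_12 (b + c) d (0 - d) 0 (by omega) (by omega) (by omega) <;>
      · unfold D
        simp (disch := omega) only [cd_a, cd_b, cd_c, cd_d, cd_e, cd_f, cd_g, cd_h]
        try omega
    have c6 : e ≤ d ∧ e ≤ M := by omega
    obtain ⟨t, ht⟩ : ∃ t, t = d - e := ⟨_, rfl⟩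
    apply coll_12 (b + c - t) e (b + c - t - N) 0 (by omega) (by omega) (by omega) <;>
    · unfold D
      simp (disch := omega) only [cd_a, cd_b, cd_c, cd_d, cd_e, cd_f, cd_g, cd_h]
      try omega
  obtain ⟨k, hk⟩ : ∃ k, M = 2 * k := ⟨M / 2, by omega⟩
  have c7 : b = 0 := by omega
  subst c7
  apply coll_13 1 (k + 1) (-1) (k - 1) (by omega) (by omega) (by omega) <;>
  · unfold D
    simp (disch := omega) only [cd_a, cd_b, cd_c, cd_d, cd_e, cd_f, cd_g, cd_h]
    try omega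

/-- three points in row `0` inside a short arc -/
theorem T1e_long {N M p q : ℤ} (hM : 1 ≤ M) (hp : 1 ≤ p) (hq : 1 ≤ q) (h : p + q < N) :
    Coll (2 * N) M 0 0 p 0 (p + q) 0 := by
  apply coll_id (p + q + 1) 0 (p + q) 1 (by omega) (by omega) (by omega) <;>
  · unfold D
    simp (disch := omega) only [cd_a, cd_b, cd_c, cd_d, cd_e, cd_f, cd_g, cd_h]
    try omega

/-- three points in row `0` with arcs `p, q, r` of length at most `N`, `q ≡ r` mod 2 -/
theorem T1e_pair {N M p q r d : ℤ} (hN : 2 ≤ N) (hM : 1 ≤ M) (hp : 1 ≤ p) (hq : 1 ≤ q) (hr : 1 ≤ r)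
    (hs : p + q + r = 2 * N) (hpN : p ≤ N) (hqN : q ≤ N) (hrN : r ≤ N) (hd : q - r = 2 * d)
    (hd0 : 0 ≤ d) (h : d ≤ M ∨ N - p ≤ M) :
    Coll (2 * N) M 0 0 p 0 (p + q) 0 := by
  obtain ⟨e, he⟩ : ∃ e, e = N - p := ⟨_, rfl⟩
  by_cases c1 : d ≤ e ∧ d ≤ M
  · apply coll_12 0 d (p + d) 0 (by omega) (by omega) (by omega) <;>
    · unfold D
      simp (disch := omega) only [cd_a, cd_b, cd_c, cd_d, cd_e, cd_f, cd_g, cd_h]
      try omega
  have c2 : e ≤ d ∧ e ≤ M := by omega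
  obtain ⟨t, ht⟩ : ∃ t, t = d - e := ⟨_, rfl⟩
  apply coll_12 t e (t + N) 0 (by omega) (by omega) (by omega) <;>
  · unfold D
    simp (disch := omega) only [cd_a, cd_b, cd_c, cd_d, cd_e, cd_f, cd_g, cd_h]
    try omega

theorem T1_rot {n M p q r : ℤ} (hs : p + q + r = n) (h : Coll n M 0 0 q 0 (q + r) 0) :
    Coll n M 0 0 p 0 (p + q) 0 := by
  have h1 : Coll n M 0 0 q 0 (-p) 0 := h.trans 0 _ _ _ (by omega) (by omega) (by omega)
  have h2 : Coll n M p 0 (p + q) 0 0 0 := h1.trans p _ _ _ (by omega) (by omega) (by omega)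
  exact h2.swap23.swap12

theorem T1_refl {n M p q r : ℤ} (hn : 0 < n) (hs : p + q + r = n)
    (h : Coll n M 0 0 r 0 (r + q) 0) :
    Coll n M 0 0 p 0 (p + q) 0 := by
  have h1 : Coll n M 0 0 (p + q) 0 p 0 :=
    Coll.refl hn h 0 _ _ _ (by omega) (by omega) (by omega)
  exact h1.swap23

/-- three points in row `0`, even cycle -/
theorem T1e_sorted {N M p q r : ℤ} (hN : 2 ≤ N) (hM : 1 ≤ M) (hr : 1 ≤ r) (hqr : r ≤ q)
    (hpq : q ≤ p) (hs : p + q + r = 2 * N)
    (hcond : N < 3 * (M + 1) ∨ (N = 3 * (M + 1) + 1 ∧ N % 2 = 0)) :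
    Coll (2 * N) M 0 0 p 0 (p + q) 0 := by
  by_cases c0 : N < p
  · apply T1_rot hs
    exact T1e_long hM (by omega) (by omega) (by omega)
  by_cases c1 : (q - r) % 2 = 0 ∧ ((q - r) / 2 ≤ M ∨ N - p ≤ M)
  · exact T1e_pair (d := (q - r) / 2) (r := r) hN hM (by omega) (by omega) (by omega) hs
      (by omega) (by omega) (by omega) (by omega) (by omega) c1.2
  by_cases c2 : (p - q) % 2 = 0 ∧ ((p - q) / 2 ≤ M ∨ N - r ≤ M)
  · -- arcs (r, p, q)
    apply T1_rot hs
    apply T1_rot (r := p) (by omega)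
    exact T1e_pair (d := (p - q) / 2) (r := q) hN hM (by omega) (by omega) (by omega) (by omega)
      (by omega) (by omega) (by omega) (by omega) (by omega) c2.2
  by_cases c3 : (p - r) % 2 = 0 ∧ ((p - r) / 2 ≤ M ∨ N - q ≤ M)
  · -- arcs (q, p, r)
    apply T1_rot hs
    apply T1_refl (r := p) (by omega) (by omega)
    apply T1_rot (r := q) (by omega)
    apply T1_rot (r := p) (by omega)
    exact T1e_pair (d := (p - r) / 2) (r := r) hN hM (by omega) (by omega) (by omega) (by omega)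
      (by omega) (by omega) (by omega) (by omega) (by omega) c3.2
  exfalso
  omega

theorem T1e {N M p q r : ℤ} (hN : 2 ≤ N) (hM : 1 ≤ M) (hp : 1 ≤ p) (hq : 1 ≤ q)
    (hr : 1 ≤ r) (hs : p + q + r = 2 * N)
    (hcond : N < 3 * (M + 1) ∨ (N = 3 * (M + 1) + 1 ∧ N % 2 = 0)) :
    Coll (2 * N) M 0 0 p 0 (p + q) 0 := by
  rcases le_total p q with h1 | h1 <;> rcases le_total q r with h2 | h2 <;>
    rcases le_total p r with h3 | h3
  · -- p ≤ q ≤ r
    exact T1_refl (by omega) hs (T1e_sorted hN hM hp h1 h2 (by omega) hcond)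
  · exact T1_refl (by omega) hs (T1e_sorted hN hM hp h1 h2 (by omega) hcond)
  · -- r ≤ q, p ≤ r : q ≥ r ≥ p
    exact T1_rot hs (T1e_sorted hN hM hp h3 h2 (by omega) hcond)
  · -- q ≥ p ≥ r
    apply T1_refl (by omega) hs
    apply T1_rot (r := p) (by omega)
    exact T1e_sorted hN hM hr h3 h1 (by omega) hcond
  · -- q ≤ p, q ≤ r, p ≤ r: r ≥ p ≥ q
    apply T1_rot hs
    apply T1_rot (r := p) (by omega)
    exact T1e_sorted hN hM hq h1 h3 (by omega) hcond
  · -- p ≥ r ≥ q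
    apply T1_rot hs
    apply T1_refl (r := p) (by omega) (by omega)
    exact T1e_sorted hN hM hq h2 h3 (by omega) hcond
  · exact T1e_sorted hN hM hr h2 h1 hs hcond
  · exact T1e_sorted hN hM hr h2 h1 hs hcond

end Pool.Agent.H9.MDim
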