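import Pool.Agent.H9.MDim.Even

set_option linter.unusedSimpArgs false
set_option linter.unusedVariables false

namespace Pool.Agent.H9.MDim

theorem norm_col {n a c : ℤ} (ha0 : 0 ≤ a) (ha1 : a < n) (hc0 : 0 ≤ c) (hc1 : c < n) :
    ∃ s, 0 ≤ s ∧ s < n ∧ (c = s + a ∨ c = s + a + n ∨ c = s + a - n) := by
  by_cases h : a ≤ c
  · exact ⟨c - a, by omega, by omega, by omega⟩
  · exact ⟨c - a + n, by omega, by omega, by omega⟩

/-- all rows different -/
theorem IVe {N M a1 b1 a2 b2 a3 b3 : ℤ} (hN : 2 ≤ N) (ha1 : 0 ≤ a1 ∧ a1 < 2 * N)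
    (ha2 : 0 ≤ a2 ∧ a2 < 2 * N) (ha3 : 0 ≤ a3 ∧ a3 < 2 * N) (hb1 : 0 ≤ b1) (hb12 : b1 < b2)
    (hb23 : b2 < b3) (hb3 : b3 ≤ M) : Coll (2 * N) M a1 b1 a2 b2 a3 b3 := by
  obtain ⟨s, hs0, hs1, hs⟩ := norm_col ha1.1 ha1.2 ha2.1 ha2.2
  obtain ⟨t, ht0, ht1, ht⟩ := norm_col ha1.1 ha1.2 ha3.1 ha3.2
  suffices h : Coll (2 * N) M 0 b1 s b2 t b3 from h.trans a1 _ _ _ (by omega) hs ht
  by_cases h1 : t = 0
  · subst h1
    by_cases h2 : s ≤ N
    · exact IVe_eq hN hb1 hb12 hb23 hb3 hs0 h2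
    · exact Coll.refl (by omega) (IVe_eq (a := 2 * N - s) hN hb1 hb12 hb23 hb3 (by omega)
        (by omega)) 0 _ _ _ (by omega) (by omega) (by omega)
  · by_cases h2 : t ≤ N
    · exact IVe_local hN hb1 hb12 hb23 hb3 (by omega) h2 hs0 hs1
    · by_cases h3 : s = 0
      · subst h3
        exact Coll.refl (by omega) (IVe_local (t := 2 * N - t) (s := 0) hN hb1 hb12 hb23 hb3
          (by omega) (by omega) (by omega) (by omega)) 0 _ _ _ (by omega) (by omega) (by omega)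
      · exact Coll.refl (by omega) (IVe_local (t := 2 * N - t) (s := 2 * N - s) hN hb1 hb12 hb23
          hb3 (by omega) (by omega) (by omega) (by omega)) 0 _ _ _ (by omega) (by omega) (by omega)

/-- two points in the lowest row, third one higher -/
theorem IIe {N M a1 a2 a3 b b3 : ℤ} (hN : 2 ≤ N) (ha1 : 0 ≤ a1 ∧ a1 < 2 * N)
    (ha2 : 0 ≤ a2 ∧ a2 < 2 * N) (ha3 : 0 ≤ a3 ∧ a3 < 2 * N) (hb1 : 0 ≤ b)
    (hb3 : b < b3) (hbM : b3 ≤ M) (hne : a1 ≠ a2)
    (hcond : N < 3 * (M + 1) ∨ (N = 3 * (M + 1) + 1 ∧ N % 2 = 0)) :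
    Coll (2 * N) M a1 b a2 b a3 b3 := by
  obtain ⟨s, hs0, hs1, hs⟩ := norm_col ha1.1 ha1.2 ha2.1 ha2.2
  obtain ⟨t, ht0, ht1, ht⟩ := norm_col ha1.1 ha1.2 ha3.1 ha3.2
  suffices h : Coll (2 * N) M 0 b s b t b3 from h.trans a1 _ _ _ (by omega) hs ht
  have hs2 : 1 ≤ s := by omega
  -- the statement for `s < N`
  have key : ∀ s t : ℤ, 1 ≤ s → s < N → 0 ≤ t → t < 2 * N →
      Coll (2 * N) M 0 b s b t b3 := by
    intro s t hs2 hs3 ht0 ht1
    by_cases h1 : s < t ∨ 0 < b ∨ b3 < M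
    · exact IIe_local hN hb1 hb3 hbM hs2 hs3 ht0 ht1 h1
    · have h2 : b = 0 := by omega
      have h3 : b3 = M := by omega
      subst h2
      subst h3
      by_cases h4 : t ≤ s - t
      · have := T2e (b := t) (c := s - t) hN (by omega) (by omega) h4 (by omega) (by omega) hcond
        rw [show t + (s - t) = s by ring] at this
        exact this
      · have := T2e (b := s - t) (c := t) hN (by omega) (by omega) (by omega) (by omega)
          (by omega) hcond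
        rw [show s - t + t = s by ring] at this
        exact (Coll.refl (by omega) this s s 0 t (by omega) (by omega) (by omega)).swap12
  by_cases h1 : s < N
  · exact key s t hs2 h1 ht0 ht1
  by_cases h2 : s = N
  · subst h2
    by_cases h3 : t ≤ s
    · exact T4e hN hb1 hb3 hbM ht0 h3
    · exact Coll.refl (by omega) (T4e (s := 2 * s - t) hN hb1 hb3 hbM (by omega) (by omega))
        0 _ _ _ (by omega) (by omega) (by omega)
  · by_cases h3 : t = 0
    · subst h3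
      exact Coll.refl (by omega) (key (2 * N - s) 0 (by omega) (by omega) (by omega) (by omega))
        0 _ _ _ (by omega) (by omega) (by omega)
    · exact Coll.refl (by omega) (key (2 * N - s) (2 * N - t) (by omega) (by omega) (by omega)
        (by omega)) 0 _ _ _ (by omega) (by omega) (by omega)

/-- all points in row 0 -/
theorem Ie {N M a1 a2 a3 : ℤ} (hN : 2 ≤ N) (hM : 1 ≤ M) (ha1 : 0 ≤ a1 ∧ a1 < 2 * N)
    (ha2 : 0 ≤ a2 ∧ a2 < 2 * N) (ha3 : 0 ≤ a3 ∧ a3 < 2 * N) (h12 : a1 ≠ a2) (h13 : a1 ≠ a3)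
    (h23 : a2 ≠ a3)
    (hcond : N < 3 * (M + 1) ∨ (N = 3 * (M + 1) + 1 ∧ N % 2 = 0)) :
    Coll (2 * N) M a1 0 a2 0 a3 0 := by
  have key : ∀ a1 a2 a3 : ℤ, 0 ≤ a1 → a1 < a2 → a2 < a3 → a3 < 2 * N →
      Coll (2 * N) M a1 0 a2 0 a3 0 := by
    intro a1 a2 a3 h1 h2 h3 h4
    have := T1e (p := a2 - a1) (q := a3 - a2) (r := 2 * N - (a3 - a1)) hN hM (by omega)
      (by omega) (by omega) (by omega) hcond
    exact this.trans a1 _ _ _ (by omega) (by omega) (by omega)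
  rcases lt_or_gt_of_ne h12 with h1 | h1 <;> rcases lt_or_gt_of_ne h23 with h2 | h2 <;>
    rcases lt_or_gt_of_ne h13 with h3 | h3
  · exact key _ _ _ ha1.1 h1 h2 ha3.2
  · omega
  · exact (key a1 a3 a2 ha1.1 h3 h2 ha2.2).swap23
  · exact (key a3 a1 a2 ha3.1 h3 h1 ha2.2).swap12.swap23
  · exact (key a2 a1 a3 ha2.1 h1 h3 ha3.2).swap12
  · exact (key a2 a3 a1 ha2.1 h2 h3 ha1.2).swap23.swap12
  · omega
  · exact (key a3 a2 a1 ha3.1 h2 h1 ha1.2).swap13

end Pool.Agent.H9.MDim
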