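import Pool.Agent.H9.MDim.Upper

/-! Resolving sets. -/

set_option linter.unusedSimpArgs false
set_option linter.unusedVariables false

namespace Pool.Agent.H9.MDim

open SimpleGraph

theorem fam1_D {N m x y : ℤ} (hm : 1 ≤ m) (h : 3 * m ≤ N) (hodd : N % 2 = 1) (hx0 : 0 ≤ x) (hx1 : x ≤ 2 * N - 1)
    (hy : 0 ≤ y) (hy1 : y < m) :
    (0 ≤ x ∧ x ≤ 2 * m ∧ D (2 * N) x y 0 0 = x + y ∧ D (2 * N) x y (2 * m) 0 = (2 * m - x) + y ∧ D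
      (2 * N) x y N 0 = (N - x) + y) ∨
    (2 * m ≤ x ∧ x ≤ N ∧ D (2 * N) x y 0 0 = x + y ∧ D (2 * N) x y (2 * m) 0 = (x - 2 * m) + y ∧ D
      (2 * N) x y N 0 = (N - x) + y) ∨
    (N ≤ x ∧ x ≤ N + 2 * m ∧ D (2 * N) x y 0 0 = (2 * N - x) + y ∧ D (2 * N) x y (2 * m) 0 = (x - 2
      * m) + y ∧ D (2 * N) x y N 0 = (x - N) + y) ∨
    (N + 2 * m ≤ x ∧ x ≤ 2 * N - 1 ∧ D (2 * N) x y 0 0 = (2 * N - x) + y ∧ D (2 * N) x y (2 * m) 0 =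
      (2 * N - (x - 2 * m)) + y ∧ D (2 * N) x y N 0 = (x - N) + y) := by
  have hmax1 : max (y - 0) (0 - y) = y := by omega
  unfold D
  rw [hmax1]
  by_cases c0 : x ≤ 2 * m
  · left
    refine ⟨by omega, by omega, ?_, ?_, ?_⟩ <;>
    · simp (disch := omega) only [cd_a, cd_b, cd_c, cd_d, cd_e, cd_f, cd_g, cd_h]
      try omega
  by_cases c1 : x ≤ N
  · right; left
    refine ⟨by omega, by omega, ?_, ?_, ?_⟩ <;>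
    · simp (disch := omega) only [cd_a, cd_b, cd_c, cd_d, cd_e, cd_f, cd_g, cd_h]
      try omega
  by_cases c2 : x ≤ N + 2 * m
  · right; right; left
    refine ⟨by omega, by omega, ?_, ?_, ?_⟩ <;>
    · simp (disch := omega) only [cd_a, cd_b, cd_c, cd_d, cd_e, cd_f, cd_g, cd_h]
      try omega
  · right; right; right
    refine ⟨by omega, by omega, ?_, ?_, ?_⟩ <;>
    · simp (disch := omega) only [cd_a, cd_b, cd_c, cd_d, cd_e, cd_f, cd_g, cd_h]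
      try omega

theorem fam1 {N m x y x' y' : ℤ} (hm : 1 ≤ m) (h : 3 * m ≤ N) (hodd : N % 2 = 1)
    (hx0 : 0 ≤ x) (hx1 : x ≤ 2 * N - 1) (hx0' : 0 ≤ x') (hx1' : x' ≤ 2 * N - 1)
    (hy0 : 0 ≤ y) (hy1 : y < m) (hy0' : 0 ≤ y') (hy1' : y' < m)
    (he : ({D (2 * N) x y 0 0, D (2 * N) x y (2 * m) 0, D (2 * N) x y N 0} : Multiset ℤ) =
      {D (2 * N) x' y' 0 0, D (2 * N) x' y' (2 * m) 0, D (2 * N) x' y' N 0}) :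
    x = x' ∧ y = y' := by
  have h1 := fam1_D hm h hodd hx0 hx1 hy0 hy1
  have h2 := fam1_D hm h hodd hx0' hx1' hy0' hy1'
  have h3 := ms3 he
  clear he
  rcases h1 with ⟨c1, c1', e1, e2, e3⟩ | ⟨c1, c1', e1, e2, e3⟩ | ⟨c1, c1', e1, e2, e3⟩ | ⟨c1, c1', e1, e2, e3⟩ <;>
    rw [e1, e2, e3] at h3 <;> clear e1 e2 e3 <;>
  rcases h2 with ⟨c2, c2', e1, e2, e3⟩ | ⟨c2, c2', e1, e2, e3⟩ | ⟨c2, c2', e1, e2, e3⟩ | ⟨c2, c2', e1, e2, e3⟩ <;>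
    rw [e1, e2, e3] at h3 <;> clear e1 e2 e3 <;>
  rcases h3 with ⟨f1, (⟨f2, f3⟩ | ⟨f2, f3⟩)⟩ | ⟨f1, (⟨f2, f3⟩ | ⟨f2, f3⟩)⟩ | ⟨f1, (⟨f2, f3⟩ | ⟨f2, f3⟩)⟩ <;> omega

theorem fam2_D {N m x y : ℤ} (hm : 1 ≤ m) (h : 3 * m + 2 ≤ N) (heven : N % 2 = 0) (hx0 : 1 ≤ x) (hx1 : x ≤ 2 * N)
    (hy : 0 ≤ y) (hy1 : y < m) :
    (1 ≤ x ∧ x ≤ 2 * m + 2 ∧ D (2 * N) x y 0 0 = x + y ∧ D (2 * N) x y (2 * m + 2) 0 = (2 * m + 2 -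
      x) + y ∧ D (2 * N) x y (N + 1) 0 = (N + 1 - x) + y) ∨
    (2 * m + 2 ≤ x ∧ x ≤ N ∧ D (2 * N) x y 0 0 = x + y ∧ D (2 * N) x y (2 * m + 2) 0 = (x - 2 * m -
      2) + y ∧ D (2 * N) x y (N + 1) 0 = (N + 1 - x) + y) ∨
    (N + 1 ≤ x ∧ x ≤ N + 2 * m + 2 ∧ D (2 * N) x y 0 0 = (2 * N - x) + y ∧ D (2 * N) x y (2 * m + 2)
      0 = (x - 2 * m - 2) + y ∧ D (2 * N) x y (N + 1) 0 = (x - N - 1) + y) ∨
    (N + 2 * m + 2 ≤ x ∧ x ≤ 2 * N ∧ D (2 * N) x y 0 0 = (2 * N - x) + y ∧ D (2 * N) x y (2 * m + 2)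
      0 = (2 * N - (x - 2 * m - 2)) + y ∧ D (2 * N) x y (N + 1) 0 = (x - N - 1) + y) := by
  have hmax1 : max (y - 0) (0 - y) = y := by omega
  unfold D
  rw [hmax1]
  by_cases c0 : x ≤ 2 * m + 2
  · left
    refine ⟨by omega, by omega, ?_, ?_, ?_⟩ <;>
    · simp (disch := omega) only [cd_a, cd_b, cd_c, cd_d, cd_e, cd_f, cd_g, cd_h]
      try omega
  by_cases c1 : x ≤ N
  · right; left
    refine ⟨by omega, by omega, ?_, ?_, ?_⟩ <;>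
    · simp (disch := omega) only [cd_a, cd_b, cd_c, cd_d, cd_e, cd_f, cd_g, cd_h]
      try omega
  by_cases c2 : x ≤ N + 2 * m + 2
  · right; right; left
    refine ⟨by omega, by omega, ?_, ?_, ?_⟩ <;>
    · simp (disch := omega) only [cd_a, cd_b, cd_c, cd_d, cd_e, cd_f, cd_g, cd_h]
      try omega
  · right; right; right
    refine ⟨by omega, by omega, ?_, ?_, ?_⟩ <;>
    · simp (disch := omega) only [cd_a, cd_b, cd_c, cd_d, cd_e, cd_f, cd_g, cd_h]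
      try omega

theorem fam2 {N m x y x' y' : ℤ} (hm : 1 ≤ m) (h : 3 * m + 2 ≤ N) (heven : N % 2 = 0)
    (hx0 : 1 ≤ x) (hx1 : x ≤ 2 * N) (hx0' : 1 ≤ x') (hx1' : x' ≤ 2 * N)
    (hy0 : 0 ≤ y) (hy1 : y < m) (hy0' : 0 ≤ y') (hy1' : y' < m)
    (he : ({D (2 * N) x y 0 0, D (2 * N) x y (2 * m + 2) 0, D (2 * N) x y (N + 1) 0} : Multiset ℤ) =
      {D (2 * N) x' y' 0 0, D (2 * N) x' y' (2 * m + 2) 0, D (2 * N) x' y' (N + 1) 0}) :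
    x = x' ∧ y = y' := by
  have h1 := fam2_D hm h heven hx0 hx1 hy0 hy1
  have h2 := fam2_D hm h heven hx0' hx1' hy0' hy1'
  have h3 := ms3 he
  clear he
  rcases h1 with ⟨c1, c1', e1, e2, e3⟩ | ⟨c1, c1', e1, e2, e3⟩ | ⟨c1, c1', e1, e2, e3⟩ | ⟨c1, c1', e1, e2, e3⟩ <;>
    rw [e1, e2, e3] at h3 <;> clear e1 e2 e3 <;>
  rcases h2 with ⟨c2, c2', e1, e2, e3⟩ | ⟨c2, c2', e1, e2, e3⟩ | ⟨c2, c2', e1, e2, e3⟩ | ⟨c2, c2', e1, e2, e3⟩ <;>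
    rw [e1, e2, e3] at h3 <;> clear e1 e2 e3 <;>
  rcases h3 with ⟨f1, (⟨f2, f3⟩ | ⟨f2, f3⟩)⟩ | ⟨f1, (⟨f2, f3⟩ | ⟨f2, f3⟩)⟩ | ⟨f1, (⟨f2, f3⟩ | ⟨f2, f3⟩)⟩ <;> omega

theorem fam3_D {N m x y : ℤ} (hm : 1 ≤ m) (h : N = 3 * m) (heven : m % 2 = 0) (hx0 : 0 ≤ x) (hx1 : x ≤ 2 * N - 1)
    (hy : 0 ≤ y) (hy1 : y < m) :
    (0 ≤ x ∧ x ≤ 2 * m ∧ D (2 * N) x y 0 0 = x + y ∧ D (2 * N) x y (2 * m) 0 = (2 * m - x) + y ∧ D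
      (2 * N) x y 0 (m - 1) = x + (m - 1 - y)) ∨
    (2 * m ≤ x ∧ x ≤ N ∧ D (2 * N) x y 0 0 = x + y ∧ D (2 * N) x y (2 * m) 0 = (x - 2 * m) + y ∧ D
      (2 * N) x y 0 (m - 1) = x + (m - 1 - y)) ∨
    (N ≤ x ∧ x ≤ N + 2 * m ∧ D (2 * N) x y 0 0 = (2 * N - x) + y ∧ D (2 * N) x y (2 * m) 0 = (x - 2
      * m) + y ∧ D (2 * N) x y 0 (m - 1) = (2 * N - x) + (m - 1 - y)) ∨
    (N + 2 * m ≤ x ∧ x ≤ 2 * N - 1 ∧ D (2 * N) x y 0 0 = (2 * N - x) + y ∧ D (2 * N) x y (2 * m) 0 =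
      (2 * N - (x - 2 * m)) + y ∧ D (2 * N) x y 0 (m - 1) = (2 * N - x) + (m - 1 - y)) := by
  have hmax1 : max (y - 0) (0 - y) = y := by omega
  have hmax2 : max (y - (m - 1)) ((m - 1) - y) = (m - 1 - y) := by omega
  unfold D
  rw [hmax1, hmax2]
  by_cases c0 : x ≤ 2 * m
  · left
    refine ⟨by omega, by omega, ?_, ?_, ?_⟩ <;>
    · simp (disch := omega) only [cd_a, cd_b, cd_c, cd_d, cd_e, cd_f, cd_g, cd_h]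
      try omega
  by_cases c1 : x ≤ N
  · right; left
    refine ⟨by omega, by omega, ?_, ?_, ?_⟩ <;>
    · simp (disch := omega) only [cd_a, cd_b, cd_c, cd_d, cd_e, cd_f, cd_g, cd_h]
      try omega
  by_cases c2 : x ≤ N + 2 * m
  · right; right; left
    refine ⟨by omega, by omega, ?_, ?_, ?_⟩ <;>
    · simp (disch := omega) only [cd_a, cd_b, cd_c, cd_d, cd_e, cd_f, cd_g, cd_h]
      try omega
  · right; right; right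
    refine ⟨by omega, by omega, ?_, ?_, ?_⟩ <;>
    · simp (disch := omega) only [cd_a, cd_b, cd_c, cd_d, cd_e, cd_f, cd_g, cd_h]
      try omega

theorem fam3 {N m x y x' y' : ℤ} (hm : 1 ≤ m) (h : N = 3 * m) (heven : m % 2 = 0)
    (hx0 : 0 ≤ x) (hx1 : x ≤ 2 * N - 1) (hx0' : 0 ≤ x') (hx1' : x' ≤ 2 * N - 1)
    (hy0 : 0 ≤ y) (hy1 : y < m) (hy0' : 0 ≤ y') (hy1' : y' < m)
    (he : ({D (2 * N) x y 0 0, D (2 * N) x y (2 * m) 0, D (2 * N) x y 0 (m - 1)} : Multiset ℤ) =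
      {D (2 * N) x' y' 0 0, D (2 * N) x' y' (2 * m) 0, D (2 * N) x' y' 0 (m - 1)}) :
    x = x' ∧ y = y' := by
  have h1 := fam3_D hm h heven hx0 hx1 hy0 hy1
  have h2 := fam3_D hm h heven hx0' hx1' hy0' hy1'
  have h3 := ms3 he
  clear he
  rcases h1 with ⟨c1, c1', e1, e2, e3⟩ | ⟨c1, c1', e1, e2, e3⟩ | ⟨c1, c1', e1, e2, e3⟩ | ⟨c1, c1', e1, e2, e3⟩ <;>
    rw [e1, e2, e3] at h3 <;> clear e1 e2 e3 <;>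
  rcases h2 with ⟨c2, c2', e1, e2, e3⟩ | ⟨c2, c2', e1, e2, e3⟩ | ⟨c2, c2', e1, e2, e3⟩ | ⟨c2, c2', e1, e2, e3⟩ <;>
    rw [e1, e2, e3] at h3 <;> clear e1 e2 e3 <;>
  rcases h3 with ⟨f1, (⟨f2, f3⟩ | ⟨f2, f3⟩)⟩ | ⟨f1, (⟨f2, f3⟩ | ⟨f2, f3⟩)⟩ | ⟨f1, (⟨f2, f3⟩ | ⟨f2, f3⟩)⟩ <;> omega

theorem fam4_D {N m x y : ℤ} (hm : 2 ≤ m) (h : 3 * m - 1 ≤ N) (hodd : N % 2 = 1) (hx0 : 0 ≤ x) (hx1 : x ≤ 2 * N)
    (hy : 0 ≤ y) (hy1 : y < m) :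
    (0 ≤ x ∧ x ≤ 2 * m - 1 ∧ D (2 * N + 1) x y 0 0 = x + y ∧ D (2 * N + 1) x y (2 * m - 1) 0 = (2 *
      m - 1 - x) + y ∧ D (2 * N + 1) x y N 0 = (N - x) + y) ∨
    (2 * m - 1 ≤ x ∧ x ≤ N ∧ D (2 * N + 1) x y 0 0 = x + y ∧ D (2 * N + 1) x y (2 * m - 1) 0 = (x -
      2 * m + 1) + y ∧ D (2 * N + 1) x y N 0 = (N - x) + y) ∨
    (N + 1 ≤ x ∧ x ≤ N + 2 * m - 1 ∧ D (2 * N + 1) x y 0 0 = (2 * N + 1 - x) + y ∧ D (2 * N + 1) x y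
      (2 * m - 1) 0 = (x - 2 * m + 1) + y ∧ D (2 * N + 1) x y N 0 = (x - N) + y) ∨
    (N + 2 * m ≤ x ∧ x ≤ 2 * N ∧ D (2 * N + 1) x y 0 0 = (2 * N + 1 - x) + y ∧ D (2 * N + 1) x y (2
      * m - 1) 0 = (2 * N + 1 - (x - 2 * m + 1)) + y ∧ D (2 * N + 1) x y N 0 = (x - N) + y) := by
  have hmax1 : max (y - 0) (0 - y) = y := by omega
  unfold D
  rw [hmax1]
  by_cases c0 : x ≤ 2 * m - 1
  · left
    refine ⟨by omega, by omega, ?_, ?_, ?_⟩ <;>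
    · simp (disch := omega) only [cd_a, cd_b, cd_c, cd_d, cd_e, cd_f, cd_g, cd_h]
      try omega
  by_cases c1 : x ≤ N
  · right; left
    refine ⟨by omega, by omega, ?_, ?_, ?_⟩ <;>
    · simp (disch := omega) only [cd_a, cd_b, cd_c, cd_d, cd_e, cd_f, cd_g, cd_h]
      try omega
  by_cases c2 : x ≤ N + 2 * m - 1
  · right; right; left
    refine ⟨by omega, by omega, ?_, ?_, ?_⟩ <;>
    · simp (disch := omega) only [cd_a, cd_b, cd_c, cd_d, cd_e, cd_f, cd_g, cd_h]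
      try omega
  · right; right; right
    refine ⟨by omega, by omega, ?_, ?_, ?_⟩ <;>
    · simp (disch := omega) only [cd_a, cd_b, cd_c, cd_d, cd_e, cd_f, cd_g, cd_h]
      try omega

theorem fam4 {N m x y x' y' : ℤ} (hm : 2 ≤ m) (h : 3 * m - 1 ≤ N) (hodd : N % 2 = 1)
    (hx0 : 0 ≤ x) (hx1 : x ≤ 2 * N) (hx0' : 0 ≤ x') (hx1' : x' ≤ 2 * N)
    (hy0 : 0 ≤ y) (hy1 : y < m) (hy0' : 0 ≤ y') (hy1' : y' < m)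
    (he : ({D (2 * N + 1) x y 0 0, D (2 * N + 1) x y (2 * m - 1) 0, D (2 * N + 1) x y N 0} : Multiset ℤ) =
      {D (2 * N + 1) x' y' 0 0, D (2 * N + 1) x' y' (2 * m - 1) 0, D (2 * N + 1) x' y' N 0}) :
    x = x' ∧ y = y' := by
  have h1 := fam4_D hm h hodd hx0 hx1 hy0 hy1
  have h2 := fam4_D hm h hodd hx0' hx1' hy0' hy1'
  have h3 := ms3 he
  clear he
  rcases h1 with ⟨c1, c1', e1, e2, e3⟩ | ⟨c1, c1', e1, e2, e3⟩ | ⟨c1, c1', e1, e2, e3⟩ | ⟨c1, c1', e1, e2, e3⟩ <;>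
    rw [e1, e2, e3] at h3 <;> clear e1 e2 e3 <;>
  rcases h2 with ⟨c2, c2', e1, e2, e3⟩ | ⟨c2, c2', e1, e2, e3⟩ | ⟨c2, c2', e1, e2, e3⟩ | ⟨c2, c2', e1, e2, e3⟩ <;>
    rw [e1, e2, e3] at h3 <;> clear e1 e2 e3 <;>
  rcases h3 with ⟨f1, (⟨f2, f3⟩ | ⟨f2, f3⟩)⟩ | ⟨f1, (⟨f2, f3⟩ | ⟨f2, f3⟩)⟩ | ⟨f1, (⟨f2, f3⟩ | ⟨f2, f3⟩)⟩ <;> omega

theorem fam5_D {N m x y : ℤ} (hm : 1 ≤ m) (h : 3 * m + 1 ≤ N) (heven : N % 2 = 0) (hx0 : 1 ≤ x) (hx1 : x ≤ 2 * N + 1)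
    (hy : 0 ≤ y) (hy1 : y < m) :
    (1 ≤ x ∧ x ≤ 2 * m + 1 ∧ D (2 * N + 1) x y 0 0 = x + y ∧ D (2 * N + 1) x y (2 * m + 1) 0 = (2 *
      m + 1 - x) + y ∧ D (2 * N + 1) x y (N + 1) 0 = (N + 1 - x) + y) ∨
    (2 * m + 1 ≤ x ∧ x ≤ N ∧ D (2 * N + 1) x y 0 0 = x + y ∧ D (2 * N + 1) x y (2 * m + 1) 0 = (x -
      2 * m - 1) + y ∧ D (2 * N + 1) x y (N + 1) 0 = (N + 1 - x) + y) ∨
    (N + 1 ≤ x ∧ x ≤ N + 2 * m + 1 ∧ D (2 * N + 1) x y 0 0 = (2 * N + 1 - x) + y ∧ D (2 * N + 1) x y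
      (2 * m + 1) 0 = (x - 2 * m - 1) + y ∧ D (2 * N + 1) x y (N + 1) 0 = (x - N - 1) + y) ∨
    (N + 2 * m + 2 ≤ x ∧ x ≤ 2 * N + 1 ∧ D (2 * N + 1) x y 0 0 = (2 * N + 1 - x) + y ∧ D (2 * N + 1)
      x y (2 * m + 1) 0 = (2 * N + 1 - (x - 2 * m - 1)) + y ∧ D (2 * N + 1) x y (N + 1) 0 = (x -
      N - 1) + y) := by
  have hmax1 : max (y - 0) (0 - y) = y := by omega
  unfold D
  rw [hmax1]
  by_cases c0 : x ≤ 2 * m + 1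
  · left
    refine ⟨by omega, by omega, ?_, ?_, ?_⟩ <;>
    · simp (disch := omega) only [cd_a, cd_b, cd_c, cd_d, cd_e, cd_f, cd_g, cd_h]
      try omega
  by_cases c1 : x ≤ N
  · right; left
    refine ⟨by omega, by omega, ?_, ?_, ?_⟩ <;>
    · simp (disch := omega) only [cd_a, cd_b, cd_c, cd_d, cd_e, cd_f, cd_g, cd_h]
      try omega
  by_cases c2 : x ≤ N + 2 * m + 1
  · right; right; left
    refine ⟨by omega, by omega, ?_, ?_, ?_⟩ <;>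
    · simp (disch := omega) only [cd_a, cd_b, cd_c, cd_d, cd_e, cd_f, cd_g, cd_h]
      try omega
  · right; right; right
    refine ⟨by omega, by omega, ?_, ?_, ?_⟩ <;>
    · simp (disch := omega) only [cd_a, cd_b, cd_c, cd_d, cd_e, cd_f, cd_g, cd_h]
      try omega

theorem fam5 {N m x y x' y' : ℤ} (hm : 1 ≤ m) (h : 3 * m + 1 ≤ N) (heven : N % 2 = 0)
    (hx0 : 1 ≤ x) (hx1 : x ≤ 2 * N + 1) (hx0' : 1 ≤ x') (hx1' : x' ≤ 2 * N + 1)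
    (hy0 : 0 ≤ y) (hy1 : y < m) (hy0' : 0 ≤ y') (hy1' : y' < m)
    (he : ({D (2 * N + 1) x y 0 0, D (2 * N + 1) x y (2 * m + 1) 0, D (2 * N + 1) x y (N + 1) 0} : Multiset ℤ) =
      {D (2 * N + 1) x' y' 0 0, D (2 * N + 1) x' y' (2 * m + 1) 0, D (2 * N + 1) x' y' (N + 1) 0}) :
    x = x' ∧ y = y' := by
  have h1 := fam5_D hm h heven hx0 hx1 hy0 hy1
  have h2 := fam5_D hm h heven hx0' hx1' hy0' hy1'
  have h3 := ms3 he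
  clear he
  rcases h1 with ⟨c1, c1', e1, e2, e3⟩ | ⟨c1, c1', e1, e2, e3⟩ | ⟨c1, c1', e1, e2, e3⟩ | ⟨c1, c1', e1, e2, e3⟩ <;>
    rw [e1, e2, e3] at h3 <;> clear e1 e2 e3 <;>
  rcases h2 with ⟨c2, c2', e1, e2, e3⟩ | ⟨c2, c2', e1, e2, e3⟩ | ⟨c2, c2', e1, e2, e3⟩ | ⟨c2, c2', e1, e2, e3⟩ <;>
    rw [e1, e2, e3] at h3 <;> clear e1 e2 e3 <;>
  rcases h3 with ⟨f1, (⟨f2, f3⟩ | ⟨f2, f3⟩)⟩ | ⟨f1, (⟨f2, f3⟩ | ⟨f2, f3⟩)⟩ | ⟨f1, (⟨f2, f3⟩ | ⟨f2, f3⟩)⟩ <;> omega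

theorem fam6_D {N x y : ℤ} (h : 3 ≤ N) (hx0 : 0 ≤ x) (hx1 : x ≤ 2 * N - 1)
    (hy : 0 ≤ y) (hy1 : y < 1) :
    (0 ≤ x ∧ x ≤ 1 ∧ D (2 * N) x y 0 0 = x + y ∧ D (2 * N) x y 1 0 = (1 - x) + y ∧ D (2 * N) x y 3 0
      = (3 - x) + y) ∨
    (2 ≤ x ∧ x ≤ 3 ∧ D (2 * N) x y 0 0 = x + y ∧ D (2 * N) x y 1 0 = (x - 1) + y ∧ D (2 * N) x y 3 0
      = (3 - x) + y) ∨
    (4 ≤ x ∧ x ≤ N ∧ D (2 * N) x y 0 0 = x + y ∧ D (2 * N) x y 1 0 = (x - 1) + y ∧ D (2 * N) x y 3 0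
      = (x - 3) + y) ∨
    (N + 1 ≤ x ∧ x ≤ N + 3 ∧ D (2 * N) x y 0 0 = (2 * N - x) + y ∧ D (2 * N) x y 1 0 = (2 * N + 1 -
      x) + y ∧ D (2 * N) x y 3 0 = (x - 3) + y) ∨
    (N + 4 ≤ x ∧ x ≤ 2 * N - 1 ∧ D (2 * N) x y 0 0 = (2 * N - x) + y ∧ D (2 * N) x y 1 0 = (2 * N +
      1 - x) + y ∧ D (2 * N) x y 3 0 = (2 * N + 3 - x) + y) := by
  have hmax1 : max (y - 0) (0 - y) = y := by omega
  unfold D
  rw [hmax1]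
  by_cases c0 : x ≤ 1
  · left
    refine ⟨by omega, by omega, ?_, ?_, ?_⟩ <;>
    · simp (disch := omega) only [cd_a, cd_b, cd_c, cd_d, cd_e, cd_f, cd_g, cd_h]
      try omega
  by_cases c1 : x ≤ 3
  · right; left
    refine ⟨by omega, by omega, ?_, ?_, ?_⟩ <;>
    · simp (disch := omega) only [cd_a, cd_b, cd_c, cd_d, cd_e, cd_f, cd_g, cd_h]
      try omega
  by_cases c2 : x ≤ N
  · right; right; left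
    refine ⟨by omega, by omega, ?_, ?_, ?_⟩ <;>
    · simp (disch := omega) only [cd_a, cd_b, cd_c, cd_d, cd_e, cd_f, cd_g, cd_h]
      try omega
  by_cases c3 : x ≤ N + 3
  · right; right; right; left
    refine ⟨by omega, by omega, ?_, ?_, ?_⟩ <;>
    · simp (disch := omega) only [cd_a, cd_b, cd_c, cd_d, cd_e, cd_f, cd_g, cd_h]
      try omega
  · right; right; right; right
    refine ⟨by omega, by omega, ?_, ?_, ?_⟩ <;>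
    · simp (disch := omega) only [cd_a, cd_b, cd_c, cd_d, cd_e, cd_f, cd_g, cd_h]
      try omega

theorem fam6 {N x y x' y' : ℤ} (h : 3 ≤ N)
    (hx0 : 0 ≤ x) (hx1 : x ≤ 2 * N - 1) (hx0' : 0 ≤ x') (hx1' : x' ≤ 2 * N - 1)
    (hy0 : 0 ≤ y) (hy1 : y < 1) (hy0' : 0 ≤ y') (hy1' : y' < 1)
    (he : ({D (2 * N) x y 0 0, D (2 * N) x y 1 0, D (2 * N) x y 3 0} : Multiset ℤ) =
      {D (2 * N) x' y' 0 0, D (2 * N) x' y' 1 0, D (2 * N) x' y' 3 0}) :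
    x = x' ∧ y = y' := by
  have h1 := fam6_D h hx0 hx1 hy0 hy1
  have h2 := fam6_D h hx0' hx1' hy0' hy1'
  have h3 := ms3 he
  clear he
  rcases h1 with ⟨c1, c1', e1, e2, e3⟩ | ⟨c1, c1', e1, e2, e3⟩ | ⟨c1, c1', e1, e2, e3⟩ | ⟨c1, c1', e1, e2, e3⟩ |
    ⟨c1, c1', e1, e2, e3⟩ <;>
    rw [e1, e2, e3] at h3 <;> clear e1 e2 e3 <;>
  rcases h2 with ⟨c2, c2', e1, e2, e3⟩ | ⟨c2, c2', e1, e2, e3⟩ | ⟨c2, c2', e1, e2, e3⟩ | ⟨c2, c2', e1, e2, e3⟩ |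
    ⟨c2, c2', e1, e2, e3⟩ <;>
    rw [e1, e2, e3] at h3 <;> clear e1 e2 e3 <;>
  rcases h3 with ⟨f1, (⟨f2, f3⟩ | ⟨f2, f3⟩)⟩ | ⟨f1, (⟨f2, f3⟩ | ⟨f2, f3⟩)⟩ | ⟨f1, (⟨f2, f3⟩ | ⟨f2, f3⟩)⟩ <;> omega

theorem fam7_D {N x y : ℤ} (h : 3 ≤ N) (hx0 : 0 ≤ x) (hx1 : x ≤ 2 * N)
    (hy : 0 ≤ y) (hy1 : y < 1) :
    (0 ≤ x ∧ x ≤ 1 ∧ D (2 * N + 1) x y 0 0 = x + y ∧ D (2 * N + 1) x y 1 0 = (1 - x) + y ∧ D (2 * N
      + 1) x y 3 0 = (3 - x) + y) ∨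
    (2 ≤ x ∧ x ≤ 3 ∧ D (2 * N + 1) x y 0 0 = x + y ∧ D (2 * N + 1) x y 1 0 = (x - 1) + y ∧ D (2 * N
      + 1) x y 3 0 = (3 - x) + y) ∨
    (4 ≤ x ∧ x ≤ N ∧ D (2 * N + 1) x y 0 0 = x + y ∧ D (2 * N + 1) x y 1 0 = (x - 1) + y ∧ D (2 * N
      + 1) x y 3 0 = (x - 3) + y) ∨
    (x = N + 1 ∧ D (2 * N + 1) x y 0 0 = N + y ∧ D (2 * N + 1) x y 1 0 = N + y ∧ D (2 * N + 1) x y 3
      0 = (N - 2) + y) ∨
    (N + 2 ≤ x ∧ x ≤ N + 3 ∧ D (2 * N + 1) x y 0 0 = (2 * N + 1 - x) + y ∧ D (2 * N + 1) x y 1 0 =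
      (2 * N + 2 - x) + y ∧ D (2 * N + 1) x y 3 0 = (x - 3) + y) ∨
    (N + 4 ≤ x ∧ x ≤ 2 * N ∧ D (2 * N + 1) x y 0 0 = (2 * N + 1 - x) + y ∧ D (2 * N + 1) x y 1 0 =
      (2 * N + 2 - x) + y ∧ D (2 * N + 1) x y 3 0 = (2 * N + 4 - x) + y) := by
  have hmax1 : max (y - 0) (0 - y) = y := by omega
  unfold D
  rw [hmax1]
  by_cases c0 : x ≤ 1
  · left
    refine ⟨by omega, by omega, ?_, ?_, ?_⟩ <;>
    · simp (disch := omega) only [cd_a, cd_b, cd_c, cd_d, cd_e, cd_f, cd_g, cd_h]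
      try omega
  by_cases c1 : x ≤ 3
  · right; left
    refine ⟨by omega, by omega, ?_, ?_, ?_⟩ <;>
    · simp (disch := omega) only [cd_a, cd_b, cd_c, cd_d, cd_e, cd_f, cd_g, cd_h]
      try omega
  by_cases c2 : x ≤ N
  · right; right; left
    refine ⟨by omega, by omega, ?_, ?_, ?_⟩ <;>
    · simp (disch := omega) only [cd_a, cd_b, cd_c, cd_d, cd_e, cd_f, cd_g, cd_h]
      try omega
  by_cases c3 : x ≤ N + 1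
  · right; right; right; left
    have hx : x = N + 1 := by omega
    refine ⟨hx, ?_, ?_, ?_⟩ <;>
    · simp (disch := omega) only [cd_a, cd_b, cd_c, cd_d, cd_e, cd_f, cd_g, cd_h]
      try omega
  by_cases c4 : x ≤ N + 3
  · right; right; right; right; left
    refine ⟨by omega, by omega, ?_, ?_, ?_⟩ <;>
    · simp (disch := omega) only [cd_a, cd_b, cd_c, cd_d, cd_e, cd_f, cd_g, cd_h]
      try omega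
  · right; right; right; right; right
    refine ⟨by omega, by omega, ?_, ?_, ?_⟩ <;>
    · simp (disch := omega) only [cd_a, cd_b, cd_c, cd_d, cd_e, cd_f, cd_g, cd_h]
      try omega

theorem fam7 {N x y x' y' : ℤ} (h : 3 ≤ N)
    (hx0 : 0 ≤ x) (hx1 : x ≤ 2 * N) (hx0' : 0 ≤ x') (hx1' : x' ≤ 2 * N)
    (hy0 : 0 ≤ y) (hy1 : y < 1) (hy0' : 0 ≤ y') (hy1' : y' < 1)
    (he : ({D (2 * N + 1) x y 0 0, D (2 * N + 1) x y 1 0, D (2 * N + 1) x y 3 0} : Multiset ℤ) =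
      {D (2 * N + 1) x' y' 0 0, D (2 * N + 1) x' y' 1 0, D (2 * N + 1) x' y' 3 0}) :
    x = x' ∧ y = y' := by
  have h1 := fam7_D h hx0 hx1 hy0 hy1
  have h2 := fam7_D h hx0' hx1' hy0' hy1'
  have h3 := ms3 he
  clear he
  rcases h1 with ⟨c1, c1', e1, e2, e3⟩ | ⟨c1, c1', e1, e2, e3⟩ | ⟨c1, c1', e1, e2, e3⟩ | ⟨c1, e1, e2, e3⟩ | ⟨c1,
    c1', e1, e2, e3⟩ | ⟨c1, c1', e1, e2, e3⟩ <;>
    rw [e1, e2, e3] at h3 <;> clear e1 e2 e3 <;>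
  rcases h2 with ⟨c2, c2', e1, e2, e3⟩ | ⟨c2, c2', e1, e2, e3⟩ | ⟨c2, c2', e1, e2, e3⟩ | ⟨c2, e1, e2, e3⟩ | ⟨c2,
    c2', e1, e2, e3⟩ | ⟨c2, c2', e1, e2, e3⟩ <;>
    rw [e1, e2, e3] at h3 <;> clear e1 e2 e3 <;>
  rcases h3 with ⟨f1, (⟨f2, f3⟩ | ⟨f2, f3⟩)⟩ | ⟨f1, (⟨f2, f3⟩ | ⟨f2, f3⟩)⟩ | ⟨f1, (⟨f2, f3⟩ | ⟨f2, f3⟩)⟩ <;> omega

end Pool.Agent.H9.MDim
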