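import Pool.Agent.H9.MDim.Upper

/-! Resolving sets. -/

set_option linter.unusedSimpArgs false
set_option linter.unusedVariables false

namespace Pool.Agent.H9.MDim

open SimpleGraph

theorem fam8_D {N m x y : ℤ} (h : 4 ≤ N) (hx0 : 1 ≤ x) (hx1 : x ≤ 2 * N)
    (hy : 0 ≤ y) (hy1 : y < m) :
    (x = 1 ∧ D (2 * N) x y 0 0 = 1 + y ∧ D (2 * N) x y 1 0 = 0 + y ∧ D (2 * N) x y N 0 = (N - 1) + y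
      ∧ D (2 * N) x y (N + 2) 0 = (N - 1) + y) ∨
    (2 ≤ x ∧ x ≤ N ∧ D (2 * N) x y 0 0 = x + y ∧ D (2 * N) x y 1 0 = (x - 1) + y ∧ D (2 * N) x y N 0
      = (N - x) + y ∧ D (2 * N) x y (N + 2) 0 = (N + 2 - x) + y) ∨
    (x = N + 1 ∧ D (2 * N) x y 0 0 = (N - 1) + y ∧ D (2 * N) x y 1 0 = N + y ∧ D (2 * N) x y N 0 = 1
      + y ∧ D (2 * N) x y (N + 2) 0 = 1 + y) ∨
    (N + 2 ≤ x ∧ x ≤ 2 * N ∧ D (2 * N) x y 0 0 = (2 * N - x) + y ∧ D (2 * N) x y 1 0 = (2 * N + 1 -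
      x) + y ∧ D (2 * N) x y N 0 = (x - N) + y ∧ D (2 * N) x y (N + 2) 0 = (x - N - 2) + y) := by
  have hmax1 : max (y - 0) (0 - y) = y := by omega
  unfold D
  rw [hmax1]
  by_cases c0 : x ≤ 1
  · left
    have hx : x = 1 := by omega
    refine ⟨hx, ?_, ?_, ?_, ?_⟩ <;>
    · simp (disch := omega) only [cd_a, cd_b, cd_c, cd_d, cd_e, cd_f, cd_g, cd_h]
      try omega
  by_cases c1 : x ≤ N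
  · right; left
    refine ⟨by omega, by omega, ?_, ?_, ?_, ?_⟩ <;>
    · simp (disch := omega) only [cd_a, cd_b, cd_c, cd_d, cd_e, cd_f, cd_g, cd_h]
      try omega
  by_cases c2 : x ≤ N + 1
  · right; right; left
    have hx : x = N + 1 := by omega
    refine ⟨hx, ?_, ?_, ?_, ?_⟩ <;>
    · simp (disch := omega) only [cd_a, cd_b, cd_c, cd_d, cd_e, cd_f, cd_g, cd_h]
      try omega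
  · right; right; right
    refine ⟨by omega, by omega, ?_, ?_, ?_, ?_⟩ <;>
    · simp (disch := omega) only [cd_a, cd_b, cd_c, cd_d, cd_e, cd_f, cd_g, cd_h]
      try omega

theorem fam8 {N m x y x' y' : ℤ} (h : 4 ≤ N)
    (hx0 : 1 ≤ x) (hx1 : x ≤ 2 * N) (hx0' : 1 ≤ x') (hx1' : x' ≤ 2 * N)
    (hy0 : 0 ≤ y) (hy1 : y < m) (hy0' : 0 ≤ y') (hy1' : y' < m)
    (he : ({D (2 * N) x y 0 0, D (2 * N) x y 1 0, D (2 * N) x y N 0, D (2 * N) x y (N + 2) 0} : Multiset ℤ) =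
      {D (2 * N) x' y' 0 0, D (2 * N) x' y' 1 0, D (2 * N) x' y' N 0, D (2 * N) x' y' (N + 2) 0}) :
    x = x' ∧ y = y' := by
  have h1 := fam8_D h hx0 hx1 hy0 hy1
  have h2 := fam8_D h hx0' hx1' hy0' hy1'
  have h3 := ms4 he
  clear he
  rcases h1 with ⟨c1, e1, e2, e3, e4⟩ | ⟨c1, c1', e1, e2, e3, e4⟩ | ⟨c1, e1, e2, e3, e4⟩ | ⟨c1, c1', e1, e2, e3,
    e4⟩ <;>
    rw [e1, e2, e3, e4] at h3 <;> clear e1 e2 e3 e4 <;>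
  rcases h2 with ⟨c2, e1, e2, e3, e4⟩ | ⟨c2, c2', e1, e2, e3, e4⟩ | ⟨c2, e1, e2, e3, e4⟩ | ⟨c2, c2', e1, e2, e3,
    e4⟩ <;>
    rw [e1, e2, e3, e4] at h3 <;> clear e1 e2 e3 e4 <;>
  rcases h3 with ⟨f1, (⟨f2, (⟨f3, f4⟩ | ⟨f3, f4⟩)⟩ | ⟨f2, (⟨f3, f4⟩ | ⟨f3, f4⟩)⟩ | ⟨f2, (⟨f3, f4⟩ | ⟨f3, f4⟩)⟩)⟩
    | ⟨f1, (⟨f2, (⟨f3, f4⟩ | ⟨f3, f4⟩)⟩ | ⟨f2, (⟨f3, f4⟩ | ⟨f3, f4⟩)⟩ | ⟨f2, (⟨f3, f4⟩ | ⟨f3,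
    f4⟩)⟩)⟩ | ⟨f1, (⟨f2, (⟨f3, f4⟩ | ⟨f3, f4⟩)⟩ | ⟨f2, (⟨f3, f4⟩ | ⟨f3, f4⟩)⟩ | ⟨f2, (⟨f3, f4⟩ |
    ⟨f3, f4⟩)⟩)⟩ | ⟨f1, (⟨f2, (⟨f3, f4⟩ | ⟨f3, f4⟩)⟩ | ⟨f2, (⟨f3, f4⟩ | ⟨f3, f4⟩)⟩ | ⟨f2, (⟨f3,
    f4⟩ | ⟨f3, f4⟩)⟩)⟩ <;> omega

theorem fam9_D {N m x y : ℤ} (h : 6 ≤ N) (hx0 : 1 ≤ x) (hx1 : x ≤ 2 * N + 1)
    (hy : 0 ≤ y) (hy1 : y < m) :
    (x = 1 ∧ D (2 * N + 1) x y 0 0 = 1 + y ∧ D (2 * N + 1) x y 2 0 = 1 + y ∧ D (2 * N + 1) x y 3 0 =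
      2 + y ∧ D (2 * N + 1) x y (N + 2) 0 = N + y) ∨
    (x = 2 ∧ D (2 * N + 1) x y 0 0 = 2 + y ∧ D (2 * N + 1) x y 2 0 = 0 + y ∧ D (2 * N + 1) x y 3 0 =
      1 + y ∧ D (2 * N + 1) x y (N + 2) 0 = N + y) ∨
    (3 ≤ x ∧ x ≤ N ∧ D (2 * N + 1) x y 0 0 = x + y ∧ D (2 * N + 1) x y 2 0 = (x - 2) + y ∧ D (2 * N
      + 1) x y 3 0 = (x - 3) + y ∧ D (2 * N + 1) x y (N + 2) 0 = (N + 2 - x) + y) ∨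
    (N + 1 ≤ x ∧ x ≤ N + 2 ∧ D (2 * N + 1) x y 0 0 = (2 * N + 1 - x) + y ∧ D (2 * N + 1) x y 2 0 =
      (x - 2) + y ∧ D (2 * N + 1) x y 3 0 = (x - 3) + y ∧ D (2 * N + 1) x y (N + 2) 0 = (N + 2 -
      x) + y) ∨
    (x = N + 3 ∧ D (2 * N + 1) x y 0 0 = (N - 2) + y ∧ D (2 * N + 1) x y 2 0 = N + y ∧ D (2 * N + 1)
      x y 3 0 = N + y ∧ D (2 * N + 1) x y (N + 2) 0 = 1 + y) ∨
    (N + 4 ≤ x ∧ x ≤ 2 * N + 1 ∧ D (2 * N + 1) x y 0 0 = (2 * N + 1 - x) + y ∧ D (2 * N + 1) x y 2 0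
      = (2 * N + 3 - x) + y ∧ D (2 * N + 1) x y 3 0 = (2 * N + 4 - x) + y ∧ D (2 * N + 1) x y (N
      + 2) 0 = (x - N - 2) + y) := by
  have hmax1 : max (y - 0) (0 - y) = y := by omega
  unfold D
  rw [hmax1]
  by_cases c0 : x ≤ 1
  · left
    have hx : x = 1 := by omega
    refine ⟨hx, ?_, ?_, ?_, ?_⟩ <;>
    · simp (disch := omega) only [cd_a, cd_b, cd_c, cd_d, cd_e, cd_f, cd_g, cd_h]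
      try omega
  by_cases c1 : x ≤ 2
  · right; left
    have hx : x = 2 := by omega
    refine ⟨hx, ?_, ?_, ?_, ?_⟩ <;>
    · simp (disch := omega) only [cd_a, cd_b, cd_c, cd_d, cd_e, cd_f, cd_g, cd_h]
      try omega
  by_cases c2 : x ≤ N
  · right; right; left
    refine ⟨by omega, by omega, ?_, ?_, ?_, ?_⟩ <;>
    · simp (disch := omega) only [cd_a, cd_b, cd_c, cd_d, cd_e, cd_f, cd_g, cd_h]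
      try omega
  by_cases c3 : x ≤ N + 2
  · right; right; right; left
    refine ⟨by omega, by omega, ?_, ?_, ?_, ?_⟩ <;>
    · simp (disch := omega) only [cd_a, cd_b, cd_c, cd_d, cd_e, cd_f, cd_g, cd_h]
      try omega
  by_cases c4 : x ≤ N + 3
  · right; right; right; right; left
    have hx : x = N + 3 := by omega
    refine ⟨hx, ?_, ?_, ?_, ?_⟩ <;>
    · simp (disch := omega) only [cd_a, cd_b, cd_c, cd_d, cd_e, cd_f, cd_g, cd_h]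
      try omega
  · right; right; right; right; right
    refine ⟨by omega, by omega, ?_, ?_, ?_, ?_⟩ <;>
    · simp (disch := omega) only [cd_a, cd_b, cd_c, cd_d, cd_e, cd_f, cd_g, cd_h]
      try omega

theorem fam9 {N m x y x' y' : ℤ} (h : 6 ≤ N)
    (hx0 : 1 ≤ x) (hx1 : x ≤ 2 * N + 1) (hx0' : 1 ≤ x') (hx1' : x' ≤ 2 * N + 1)
    (hy0 : 0 ≤ y) (hy1 : y < m) (hy0' : 0 ≤ y') (hy1' : y' < m)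
    (he : ({D (2 * N + 1) x y 0 0, D (2 * N + 1) x y 2 0, D (2 * N + 1) x y 3 0, D (2 * N + 1) x y (N + 2) 0} : Multiset ℤ) =
      {D (2 * N + 1) x' y' 0 0, D (2 * N + 1) x' y' 2 0, D (2 * N + 1) x' y' 3 0, D (2 * N + 1) x' y'
      (N + 2) 0}) :
    x = x' ∧ y = y' := by
  have h1 := fam9_D h hx0 hx1 hy0 hy1
  have h2 := fam9_D h hx0' hx1' hy0' hy1'
  have h3 := ms4 he
  clear he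
  rcases h1 with ⟨c1, e1, e2, e3, e4⟩ | ⟨c1, e1, e2, e3, e4⟩ | ⟨c1, c1', e1, e2, e3, e4⟩ | ⟨c1, c1', e1, e2, e3,
    e4⟩ | ⟨c1, e1, e2, e3, e4⟩ | ⟨c1, c1', e1, e2, e3, e4⟩ <;>
    rw [e1, e2, e3, e4] at h3 <;> clear e1 e2 e3 e4 <;>
  rcases h2 with ⟨c2, e1, e2, e3, e4⟩ | ⟨c2, e1, e2, e3, e4⟩ | ⟨c2, c2', e1, e2, e3, e4⟩ | ⟨c2, c2', e1, e2, e3,
    e4⟩ | ⟨c2, e1, e2, e3, e4⟩ | ⟨c2, c2', e1, e2, e3, e4⟩ <;>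
    rw [e1, e2, e3, e4] at h3 <;> clear e1 e2 e3 e4 <;>
  rcases h3 with ⟨f1, (⟨f2, (⟨f3, f4⟩ | ⟨f3, f4⟩)⟩ | ⟨f2, (⟨f3, f4⟩ | ⟨f3, f4⟩)⟩ | ⟨f2, (⟨f3, f4⟩ | ⟨f3, f4⟩)⟩)⟩
    | ⟨f1, (⟨f2, (⟨f3, f4⟩ | ⟨f3, f4⟩)⟩ | ⟨f2, (⟨f3, f4⟩ | ⟨f3, f4⟩)⟩ | ⟨f2, (⟨f3, f4⟩ | ⟨f3,
    f4⟩)⟩)⟩ | ⟨f1, (⟨f2, (⟨f3, f4⟩ | ⟨f3, f4⟩)⟩ | ⟨f2, (⟨f3, f4⟩ | ⟨f3, f4⟩)⟩ | ⟨f2, (⟨f3, f4⟩ |
    ⟨f3, f4⟩)⟩)⟩ | ⟨f1, (⟨f2, (⟨f3, f4⟩ | ⟨f3, f4⟩)⟩ | ⟨f2, (⟨f3, f4⟩ | ⟨f3, f4⟩)⟩ | ⟨f2, (⟨f3,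
    f4⟩ | ⟨f3, f4⟩)⟩)⟩ <;> omega

theorem fam10_D {N m x y : ℤ} (h : N = 4 ∨ N = 5) (hx0 : 1 ≤ x) (hx1 : x ≤ 2 * N + 1)
    (hy : 0 ≤ y) (hy1 : y < m) :
    (x = 1 ∧ D (2 * N + 1) x y 0 0 = 1 + y ∧ D (2 * N + 1) x y N 0 = (N - 1) + y ∧ D (2 * N + 1) x y
      (N + 1) 1 = N + max (y - 1) (1 - y) ∧ D (2 * N + 1) x y (N + 2) 1 = N + max (y - 1) (1 -
      y)) ∨
    (2 ≤ x ∧ x ≤ N ∧ D (2 * N + 1) x y 0 0 = x + y ∧ D (2 * N + 1) x y N 0 = (N - x) + y ∧ D (2 * N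
      + 1) x y (N + 1) 1 = (N + 1 - x) + max (y - 1) (1 - y) ∧ D (2 * N + 1) x y (N + 2) 1 = (N
      + 2 - x) + max (y - 1) (1 - y)) ∨
    (x = N + 1 ∧ D (2 * N + 1) x y 0 0 = N + y ∧ D (2 * N + 1) x y N 0 = 1 + y ∧ D (2 * N + 1) x y
      (N + 1) 1 = 0 + max (y - 1) (1 - y) ∧ D (2 * N + 1) x y (N + 2) 1 = 1 + max (y - 1) (1 -
      y)) ∨
    (N + 2 ≤ x ∧ x ≤ 2 * N ∧ D (2 * N + 1) x y 0 0 = (2 * N + 1 - x) + y ∧ D (2 * N + 1) x y N 0 =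
      (x - N) + y ∧ D (2 * N + 1) x y (N + 1) 1 = (x - N - 1) + max (y - 1) (1 - y) ∧ D (2 * N +
      1) x y (N + 2) 1 = (x - N - 2) + max (y - 1) (1 - y)) ∨
    (x = 2 * N + 1 ∧ D (2 * N + 1) x y 0 0 = 0 + y ∧ D (2 * N + 1) x y N 0 = N + y ∧ D (2 * N + 1) x
      y (N + 1) 1 = N + max (y - 1) (1 - y) ∧ D (2 * N + 1) x y (N + 2) 1 = (N - 1) + max (y -
      1) (1 - y)) := by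
  have hmax1 : max (y - 0) (0 - y) = y := by omega
  unfold D
  rw [hmax1]
  by_cases c0 : x ≤ 1
  · left
    have hx : x = 1 := by omega
    refine ⟨hx, ?_, ?_, ?_, ?_⟩ <;>
    · simp (disch := omega) only [cd_a, cd_b, cd_c, cd_d, cd_e, cd_f, cd_g, cd_h]
      try omega
  by_cases c1 : x ≤ N
  · right; left
    refine ⟨by omega, by omega, ?_, ?_, ?_, ?_⟩ <;>
    · simp (disch := omega) only [cd_a, cd_b, cd_c, cd_d, cd_e, cd_f, cd_g, cd_h]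
      try omega
  by_cases c2 : x ≤ N + 1
  · right; right; left
    have hx : x = N + 1 := by omega
    refine ⟨hx, ?_, ?_, ?_, ?_⟩ <;>
    · simp (disch := omega) only [cd_a, cd_b, cd_c, cd_d, cd_e, cd_f, cd_g, cd_h]
      try omega
  by_cases c3 : x ≤ 2 * N
  · right; right; right; left
    refine ⟨by omega, by omega, ?_, ?_, ?_, ?_⟩ <;>
    · simp (disch := omega) only [cd_a, cd_b, cd_c, cd_d, cd_e, cd_f, cd_g, cd_h]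
      try omega
  · right; right; right; right
    have hx : x = 2 * N + 1 := by omega
    refine ⟨hx, ?_, ?_, ?_, ?_⟩ <;>
    · simp (disch := omega) only [cd_a, cd_b, cd_c, cd_d, cd_e, cd_f, cd_g, cd_h]
      try omega

theorem fam10 {N m x y x' y' : ℤ} (h : N = 4 ∨ N = 5)
    (hx0 : 1 ≤ x) (hx1 : x ≤ 2 * N + 1) (hx0' : 1 ≤ x') (hx1' : x' ≤ 2 * N + 1)
    (hy0 : 0 ≤ y) (hy1 : y < m) (hy0' : 0 ≤ y') (hy1' : y' < m)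
    (he : ({D (2 * N + 1) x y 0 0, D (2 * N + 1) x y N 0, D (2 * N + 1) x y (N + 1) 1, D (2 * N + 1) x y (N
      + 2) 1} : Multiset ℤ) =
      {D (2 * N + 1) x' y' 0 0, D (2 * N + 1) x' y' N 0, D (2 * N + 1) x' y' (N + 1) 1, D (2 * N + 1)
      x' y' (N + 2) 1}) :
    x = x' ∧ y = y' := by
  have h1 := fam10_D h hx0 hx1 hy0 hy1
  have h2 := fam10_D h hx0' hx1' hy0' hy1'
  have h3 := ms4 he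
  clear he
  rcases h1 with ⟨c1, e1, e2, e3, e4⟩ | ⟨c1, c1', e1, e2, e3, e4⟩ | ⟨c1, e1, e2, e3, e4⟩ | ⟨c1, c1', e1, e2, e3,
    e4⟩ | ⟨c1, e1, e2, e3, e4⟩ <;>
    rw [e1, e2, e3, e4] at h3 <;> clear e1 e2 e3 e4 <;>
  rcases h2 with ⟨c2, e1, e2, e3, e4⟩ | ⟨c2, c2', e1, e2, e3, e4⟩ | ⟨c2, e1, e2, e3, e4⟩ | ⟨c2, c2', e1, e2, e3,
    e4⟩ | ⟨c2, e1, e2, e3, e4⟩ <;>
    rw [e1, e2, e3, e4] at h3 <;> clear e1 e2 e3 e4 <;>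
  rcases h3 with ⟨f1, (⟨f2, (⟨f3, f4⟩ | ⟨f3, f4⟩)⟩ | ⟨f2, (⟨f3, f4⟩ | ⟨f3, f4⟩)⟩ | ⟨f2, (⟨f3, f4⟩ | ⟨f3, f4⟩)⟩)⟩
    | ⟨f1, (⟨f2, (⟨f3, f4⟩ | ⟨f3, f4⟩)⟩ | ⟨f2, (⟨f3, f4⟩ | ⟨f3, f4⟩)⟩ | ⟨f2, (⟨f3, f4⟩ | ⟨f3,
    f4⟩)⟩)⟩ | ⟨f1, (⟨f2, (⟨f3, f4⟩ | ⟨f3, f4⟩)⟩ | ⟨f2, (⟨f3, f4⟩ | ⟨f3, f4⟩)⟩ | ⟨f2, (⟨f3, f4⟩ |
    ⟨f3, f4⟩)⟩)⟩ | ⟨f1, (⟨f2, (⟨f3, f4⟩ | ⟨f3, f4⟩)⟩ | ⟨f2, (⟨f3, f4⟩ | ⟨f3, f4⟩)⟩ | ⟨f2, (⟨f3,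
    f4⟩ | ⟨f3, f4⟩)⟩)⟩ <;> omega

theorem fam11_D {N m x y : ℤ} (h : N = 2 ∨ N = 3) (hm : 6 ≤ m) (hx0 : 1 ≤ x) (hx1 : x ≤ 2 * N)
    (hy : 0 ≤ y) (hy1 : y < m) :
    (1 ≤ x ∧ x ≤ N ∧ D (2 * N) x y 0 0 = x + y ∧ D (2 * N) x y 0 2 = x + max (y - 2) (2 - y) ∧ D (2
      * N) x y 0 (m - 1) = x + (m - 1 - y) ∧ D (2 * N) x y 1 (m - 1) = (x - 1) + (m - 1 - y)) ∨
    (N + 1 ≤ x ∧ x ≤ 2 * N ∧ D (2 * N) x y 0 0 = (2 * N - x) + y ∧ D (2 * N) x y 0 2 = (2 * N - x) +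
      max (y - 2) (2 - y) ∧ D (2 * N) x y 0 (m - 1) = (2 * N - x) + (m - 1 - y) ∧ D (2 * N) x y
      1 (m - 1) = (2 * N + 1 - x) + (m - 1 - y)) := by
  have hmax1 : max (y - 0) (0 - y) = y := by omega
  have hmax3 : max (y - (m - 1)) ((m - 1) - y) = (m - 1 - y) := by omega
  unfold D
  rw [hmax1, hmax3]
  by_cases c0 : x ≤ N
  · left
    refine ⟨by omega, by omega, ?_, ?_, ?_, ?_⟩ <;>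
    · simp (disch := omega) only [cd_a, cd_b, cd_c, cd_d, cd_e, cd_f, cd_g, cd_h]
      try omega
  · right
    refine ⟨by omega, by omega, ?_, ?_, ?_, ?_⟩ <;>
    · simp (disch := omega) only [cd_a, cd_b, cd_c, cd_d, cd_e, cd_f, cd_g, cd_h]
      try omega

theorem fam11 {N m x y x' y' : ℤ} (h : N = 2 ∨ N = 3) (hm : 6 ≤ m)
    (hx0 : 1 ≤ x) (hx1 : x ≤ 2 * N) (hx0' : 1 ≤ x') (hx1' : x' ≤ 2 * N)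
    (hy0 : 0 ≤ y) (hy1 : y < m) (hy0' : 0 ≤ y') (hy1' : y' < m)
    (he : ({D (2 * N) x y 0 0, D (2 * N) x y 0 2, D (2 * N) x y 0 (m - 1), D (2 * N) x y 1 (m - 1)} : Multiset ℤ) =
      {D (2 * N) x' y' 0 0, D (2 * N) x' y' 0 2, D (2 * N) x' y' 0 (m - 1), D (2 * N) x' y' 1 (m - 1)}) :
    x = x' ∧ y = y' := by
  have h1 := fam11_D h hm hx0 hx1 hy0 hy1
  have h2 := fam11_D h hm hx0' hx1' hy0' hy1'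
  have h3 := ms4 he
  clear he
  rcases h1 with ⟨c1, c1', e1, e2, e3, e4⟩ | ⟨c1, c1', e1, e2, e3, e4⟩ <;>
    rw [e1, e2, e3, e4] at h3 <;> clear e1 e2 e3 e4 <;>
  rcases h2 with ⟨c2, c2', e1, e2, e3, e4⟩ | ⟨c2, c2', e1, e2, e3, e4⟩ <;>
    rw [e1, e2, e3, e4] at h3 <;> clear e1 e2 e3 e4 <;>
  rcases h3 with ⟨f1, (⟨f2, (⟨f3, f4⟩ | ⟨f3, f4⟩)⟩ | ⟨f2, (⟨f3, f4⟩ | ⟨f3, f4⟩)⟩ | ⟨f2, (⟨f3, f4⟩ | ⟨f3, f4⟩)⟩)⟩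
    | ⟨f1, (⟨f2, (⟨f3, f4⟩ | ⟨f3, f4⟩)⟩ | ⟨f2, (⟨f3, f4⟩ | ⟨f3, f4⟩)⟩ | ⟨f2, (⟨f3, f4⟩ | ⟨f3,
    f4⟩)⟩)⟩ | ⟨f1, (⟨f2, (⟨f3, f4⟩ | ⟨f3, f4⟩)⟩ | ⟨f2, (⟨f3, f4⟩ | ⟨f3, f4⟩)⟩ | ⟨f2, (⟨f3, f4⟩ |
    ⟨f3, f4⟩)⟩)⟩ | ⟨f1, (⟨f2, (⟨f3, f4⟩ | ⟨f3, f4⟩)⟩ | ⟨f2, (⟨f3, f4⟩ | ⟨f3, f4⟩)⟩ | ⟨f2, (⟨f3,
    f4⟩ | ⟨f3, f4⟩)⟩)⟩ <;> omega

theorem fam12_D {N m x y : ℤ} (h : N = 2 ∨ N = 3) (hm : 6 ≤ m) (hx0 : 1 ≤ x) (hx1 : x ≤ 2 * N + 1)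
    (hy : 0 ≤ y) (hy1 : y < m) :
    (1 ≤ x ∧ x ≤ N ∧ D (2 * N + 1) x y 0 0 = x + y ∧ D (2 * N + 1) x y 0 2 = x + max (y - 2) (2 - y)
      ∧ D (2 * N + 1) x y 0 (m - 1) = x + (m - 1 - y) ∧ D (2 * N + 1) x y 1 (m - 1) = (x - 1) +
      (m - 1 - y)) ∨
    (x = N + 1 ∧ D (2 * N + 1) x y 0 0 = N + y ∧ D (2 * N + 1) x y 0 2 = N + max (y - 2) (2 - y) ∧ D
      (2 * N + 1) x y 0 (m - 1) = N + (m - 1 - y) ∧ D (2 * N + 1) x y 1 (m - 1) = N + (m - 1 -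
      y)) ∨
    (N + 2 ≤ x ∧ x ≤ 2 * N + 1 ∧ D (2 * N + 1) x y 0 0 = (2 * N + 1 - x) + y ∧ D (2 * N + 1) x y 0 2
      = (2 * N + 1 - x) + max (y - 2) (2 - y) ∧ D (2 * N + 1) x y 0 (m - 1) = (2 * N + 1 - x) +
      (m - 1 - y) ∧ D (2 * N + 1) x y 1 (m - 1) = (2 * N + 2 - x) + (m - 1 - y)) := by
  have hmax1 : max (y - 0) (0 - y) = y := by omega
  have hmax3 : max (y - (m - 1)) ((m - 1) - y) = (m - 1 - y) := by omega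
  unfold D
  rw [hmax1, hmax3]
  by_cases c0 : x ≤ N
  · left
    refine ⟨by omega, by omega, ?_, ?_, ?_, ?_⟩ <;>
    · simp (disch := omega) only [cd_a, cd_b, cd_c, cd_d, cd_e, cd_f, cd_g, cd_h]
      try omega
  by_cases c1 : x ≤ N + 1
  · right; left
    have hx : x = N + 1 := by omega
    refine ⟨hx, ?_, ?_, ?_, ?_⟩ <;>
    · simp (disch := omega) only [cd_a, cd_b, cd_c, cd_d, cd_e, cd_f, cd_g, cd_h]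
      try omega
  · right; right
    refine ⟨by omega, by omega, ?_, ?_, ?_, ?_⟩ <;>
    · simp (disch := omega) only [cd_a, cd_b, cd_c, cd_d, cd_e, cd_f, cd_g, cd_h]
      try omega

theorem fam12 {N m x y x' y' : ℤ} (h : N = 2 ∨ N = 3) (hm : 6 ≤ m)
    (hx0 : 1 ≤ x) (hx1 : x ≤ 2 * N + 1) (hx0' : 1 ≤ x') (hx1' : x' ≤ 2 * N + 1)
    (hy0 : 0 ≤ y) (hy1 : y < m) (hy0' : 0 ≤ y') (hy1' : y' < m)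
    (he : ({D (2 * N + 1) x y 0 0, D (2 * N + 1) x y 0 2, D (2 * N + 1) x y 0 (m - 1), D (2 * N + 1) x y 1
      (m - 1)} : Multiset ℤ) =
      {D (2 * N + 1) x' y' 0 0, D (2 * N + 1) x' y' 0 2, D (2 * N + 1) x' y' 0 (m - 1), D (2 * N + 1)
      x' y' 1 (m - 1)}) :
    x = x' ∧ y = y' := by
  have h1 := fam12_D h hm hx0 hx1 hy0 hy1
  have h2 := fam12_D h hm hx0' hx1' hy0' hy1'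
  have h3 := ms4 he
  clear he
  rcases h1 with ⟨c1, c1', e1, e2, e3, e4⟩ | ⟨c1, e1, e2, e3, e4⟩ | ⟨c1, c1', e1, e2, e3, e4⟩ <;>
    rw [e1, e2, e3, e4] at h3 <;> clear e1 e2 e3 e4 <;>
  rcases h2 with ⟨c2, c2', e1, e2, e3, e4⟩ | ⟨c2, e1, e2, e3, e4⟩ | ⟨c2, c2', e1, e2, e3, e4⟩ <;>
    rw [e1, e2, e3, e4] at h3 <;> clear e1 e2 e3 e4 <;>
  rcases h3 with ⟨f1, (⟨f2, (⟨f3, f4⟩ | ⟨f3, f4⟩)⟩ | ⟨f2, (⟨f3, f4⟩ | ⟨f3, f4⟩)⟩ | ⟨f2, (⟨f3, f4⟩ | ⟨f3, f4⟩)⟩)⟩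
    | ⟨f1, (⟨f2, (⟨f3, f4⟩ | ⟨f3, f4⟩)⟩ | ⟨f2, (⟨f3, f4⟩ | ⟨f3, f4⟩)⟩ | ⟨f2, (⟨f3, f4⟩ | ⟨f3,
    f4⟩)⟩)⟩ | ⟨f1, (⟨f2, (⟨f3, f4⟩ | ⟨f3, f4⟩)⟩ | ⟨f2, (⟨f3, f4⟩ | ⟨f3, f4⟩)⟩ | ⟨f2, (⟨f3, f4⟩ |
    ⟨f3, f4⟩)⟩)⟩ | ⟨f1, (⟨f2, (⟨f3, f4⟩ | ⟨f3, f4⟩)⟩ | ⟨f2, (⟨f3, f4⟩ | ⟨f3, f4⟩)⟩ | ⟨f2, (⟨f3,
    f4⟩ | ⟨f3, f4⟩)⟩)⟩ <;> omega

end Pool.Agent.H9.MDim
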