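import Pool.Agent.H9.MDim.Lower3

/-! Translation between the graph and integer coordinates. -/

set_option linter.unusedSimpArgs false
set_option linter.unusedVariables false

namespace Pool.Agent.H9.MDim

open SimpleGraph

/-- the vertex with integer coordinates `x` (mod `n`), `y` -/
def vtx (n m : ℕ) (hn : 0 < n) (x y : ℤ) (h0 : 0 ≤ y) (h1 : y < m) : Fin n × Fin m :=
  (⟨(x % n).toNat, by
      have h2 := Int.emod_nonneg x (by omega : (n : ℤ) ≠ 0)
      have h3 := Int.emod_lt_of_pos x (by omega : (0 : ℤ) < n)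
      omega⟩, ⟨y.toNat, by omega⟩)

theorem dist_vtx {n m : ℕ} (hn : 3 ≤ n) (x y : ℤ) (h0 : 0 ≤ y) (h1 : y < m)
    (p : Fin n × Fin m) :
    (((cycleGraph n □ pathGraph m).dist (vtx n m (by omega) x y h0 h1) p : ℕ) : ℤ) =
      D n x y p.1.val p.2.val := by
  rw [dist_cylinder hn, cyl_eq_D (by exact Fin.isLt _) (by exact Fin.isLt _)]
  unfold D
  have h2 := Int.emod_nonneg x (by omega : (n : ℤ) ≠ 0)
  have h3 := Int.emod_lt_of_pos x (by omega : (0 : ℤ) < n)
  have e1 : (((vtx n m (by omega) x y h0 h1).1.val : ℕ) : ℤ) = x % n := by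
    show (((x % n).toNat : ℕ) : ℤ) = x % n
    omega
  have e2 : (((vtx n m (by omega) x y h0 h1).2.val : ℕ) : ℤ) = y := by
    show ((y.toNat : ℕ) : ℤ) = y
    omega
  rw [e1, e2]
  congr 1
  apply cd_congr
  have := Int.emod_add_mul_ediv x n
  exact ⟨-(x / n), by rw [mul_neg]; linarith⟩

theorem vtx_ne {n m : ℕ} (hn : 0 < n) (x y x' y' : ℤ) (h0 : 0 ≤ y) (h1 : y < m)
    (h0' : 0 ≤ y') (h1' : y' < m) (h : y = y' → ¬ (n : ℤ) ∣ x - x') :
    vtx n m hn x y h0 h1 ≠ vtx n m hn x' y' h0' h1' := by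
  intro he
  have h2 := Int.emod_nonneg x (by omega : (n : ℤ) ≠ 0)
  have h3 := Int.emod_nonneg x' (by omega : (n : ℤ) ≠ 0)
  have e1 : (x % n).toNat = (x' % n).toNat := congrArg (fun p => p.1.val) he
  have e2 : y.toNat = y'.toNat := congrArg (fun p => p.2.val) he
  apply h (by omega)
  exact Int.dvd_of_emod_eq_zero (Int.emod_eq_emod_iff_emod_sub_eq_zero.mp (by omega))

theorem multisetRep_cast_inj {V : Type*} (G : SimpleGraph V) (S : Finset V) (u v : V)
    (h : S.val.map (fun s => ((G.dist u s : ℕ) : ℤ)) = S.val.map (fun s => ((G.dist v s : ℕ) : ℤ))) :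
    multisetRep G S u = multisetRep G S v := by
  unfold multisetRep
  apply Multiset.map_injective (Nat.cast_injective (R := ℤ))
  rw [Multiset.map_map, Multiset.map_map]
  exact h

theorem not_resolving_three {n m : ℕ} (hn : 4 ≤ n) (hm : 2 ≤ m) (hT : ¬ Three n m)
    (S : Finset (Fin n × Fin m)) (hS : S.card = 3) :
    ¬ IsMultisetResolving (cycleGraph n □ pathGraph m) S := by
  obtain ⟨p1, p2, p3, h12, h13, h23, rfl⟩ := Finset.card_eq_three.mp hS
  intro hR
  have hne : ∀ p q : Fin n × Fin m, p ≠ q →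
      ¬ (((p.1.val : ℤ) = q.1.val) ∧ ((p.2.val : ℤ) = q.2.val)) := by
    intro p q hpq h
    apply hpq
    exact Prod.ext (Fin.ext (by omega)) (Fin.ext (by omega))
  have b1 : ∀ p : Fin n × Fin m, 0 ≤ (p.1.val : ℤ) ∧ (p.1.val : ℤ) < n := by
    intro p
    have := p.1.isLt
    omega
  have b2 : ∀ p : Fin n × Fin m, 0 ≤ (p.2.val : ℤ) ∧ (p.2.val : ℤ) < m := by
    intro p
    have := p.2.isLt
    omega
  obtain ⟨x, y, x', y', h1, h2, h3, h4, h5, h6⟩ := coll_all hn hm hT p1.1.val p1.2.val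
    p2.1.val p2.2.val p3.1.val p3.2.val (b1 p1) (b1 p2) (b1 p3) (b2 p1) (b2 p2) (b2 p3)
    (hne _ _ h12) (hne _ _ h13) (hne _ _ h23)
  have hy : y < m := by omega
  have hy' : y' < m := by omega
  apply hR _ _ (vtx_ne (by omega) x y x' y' h1 hy h3 hy' h5)
  apply multisetRep_cast_inj
  rw [Finset.insert_val_of_notMem (by simp [h12, h13]),
    Finset.insert_val_of_notMem (by simp [h23]), Finset.singleton_val]
  simp only [Multiset.ndinsert_of_notMem, Multiset.map_cons, Multiset.map_singleton]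
  rw [dist_vtx (by omega), dist_vtx (by omega), dist_vtx (by omega), dist_vtx (by omega),
    dist_vtx (by omega), dist_vtx (by omega)]
  exact h6

end Pool.Agent.H9.MDim
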