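import Pool.Agent.H9.MDim.OddMain
import Pool.Agent.H9.MDim.Defs

/-! No multiset resolving set with at most three elements. -/

set_option linter.unusedSimpArgs false
set_option linter.unusedVariables false

namespace Pool.Agent.H9.MDim

open SimpleGraph

/-- the parameters for which a resolving set with three elements exists -/
def Three (n m : ℕ) : Prop :=
  (m = 1 ∧ 6 ≤ n) ∨ (2 ≤ m ∧ m % 2 = 1 ∧ 6 * m ≤ n ∧ n ≠ 6 * m + 2) ∨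
    (2 ≤ m ∧ m % 2 = 0 ∧ 6 * m ≤ n + 1 ∧ n ≠ 6 * m + 1)

theorem coll_assembly {n M : ℤ} (hM : 1 ≤ M) (hn : 4 ≤ n)
    (H4 : ∀ a1 b1 a2 b2 a3 b3 : ℤ, (0 ≤ a1 ∧ a1 < n) → (0 ≤ a2 ∧ a2 < n) → (0 ≤ a3 ∧ a3 < n) →
      0 ≤ b1 → b1 < b2 → b2 < b3 → b3 ≤ M → Coll n M a1 b1 a2 b2 a3 b3)
    (H2 : ∀ a1 a2 a3 b b3 : ℤ, (0 ≤ a1 ∧ a1 < n) → (0 ≤ a2 ∧ a2 < n) → (0 ≤ a3 ∧ a3 < n) →
      0 ≤ b → b < b3 → b3 ≤ M → a1 ≠ a2 → Coll n M a1 b a2 b a3 b3)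
    (H1 : ∀ p q r : ℤ, 1 ≤ p → 1 ≤ q → 1 ≤ r → p + q + r = n → Coll n M 0 0 p 0 (p + q) 0)
    (a1 b1 a2 b2 a3 b3 : ℤ) (ha1 : 0 ≤ a1 ∧ a1 < n) (ha2 : 0 ≤ a2 ∧ a2 < n)
    (ha3 : 0 ≤ a3 ∧ a3 < n) (hb1 : 0 ≤ b1 ∧ b1 ≤ M) (hb2 : 0 ≤ b2 ∧ b2 ≤ M)
    (hb3 : 0 ≤ b3 ∧ b3 ≤ M) (h12 : ¬ (a1 = a2 ∧ b1 = b2)) (h13 : ¬ (a1 = a3 ∧ b1 = b3))
    (h23 : ¬ (a2 = a3 ∧ b2 = b3)) : Coll n M a1 b1 a2 b2 a3 b3 := by
  have hI : ∀ a1 a2 a3 : ℤ, (0 ≤ a1 ∧ a1 < n) → (0 ≤ a2 ∧ a2 < n) → (0 ≤ a3 ∧ a3 < n) →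
      a1 ≠ a2 → a1 ≠ a3 → a2 ≠ a3 → Coll n M a1 0 a2 0 a3 0 :=
    fun a1 a2 a3 h1 h2 h3 h4 h5 h6 => I_of_T1 h1 h2 h3 h4 h5 h6 H1
  have key : ∀ a1 b1 a2 b2 a3 b3 : ℤ, (0 ≤ a1 ∧ a1 < n) → (0 ≤ a2 ∧ a2 < n) →
      (0 ≤ a3 ∧ a3 < n) → (0 ≤ b1 ∧ b1 ≤ M) → (0 ≤ b2 ∧ b2 ≤ M) → (0 ≤ b3 ∧ b3 ≤ M) →
      ¬ (a1 = a2 ∧ b1 = b2) → ¬ (a1 = a3 ∧ b1 = b3) → ¬ (a2 = a3 ∧ b2 = b3) →
      b1 ≤ b2 → b2 ≤ b3 → Coll n M a1 b1 a2 b2 a3 b3 := by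
    intro a1 b1 a2 b2 a3 b3 ha1 ha2 ha3 hb1 hb2 hb3 h12 h13 h23 hs1 hs2
    by_cases e1 : b1 = b2
    · subst e1
      by_cases e2 : b1 = b3
      · subst e2
        by_cases e3 : b1 = 0
        · subst e3
          exact hI a1 a2 a3 ha1 ha2 ha3 (by omega) (by omega) (by omega)
        by_cases e4 : b1 = M
        · subst e4
          apply Coll.flip
          rw [show b1 - b1 = 0 by ring]
          exact hI a1 a2 a3 ha1 ha2 ha3 (by omega) (by omega) (by omega)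
        · apply coll_id 0 (b1 - 1) 0 (b1 + 1) (by omega) (by omega) (by omega) <;>
          · unfold D
            omega
      · exact H2 a1 a2 a3 b1 b3 ha1 ha2 ha3 hb1.1 (by omega) hb3.2 (by omega)
    · by_cases e2 : b2 = b3
      · subst e2
        apply Coll.flip
        exact (H2 a2 a3 a1 (M - b2) (M - b1) ha2 ha3 ha1 (by omega) (by omega) (by omega)
          (by omega)).swap23.swap12
      · exact H4 a1 b1 a2 b2 a3 b3 ha1 ha2 ha3 hb1.1 (by omega) (by omega) hb3.2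
  rcases le_total b1 b2 with h1 | h1 <;> rcases le_total b2 b3 with h2 | h2 <;>
    rcases le_total b1 b3 with h3 | h3
  · exact key _ _ _ _ _ _ ha1 ha2 ha3 hb1 hb2 hb3 (by omega) (by omega) (by omega) h1 h2
  · exact key _ _ _ _ _ _ ha1 ha2 ha3 hb1 hb2 hb3 (by omega) (by omega) (by omega) h1 h2
  · exact (key _ _ _ _ _ _ ha1 ha3 ha2 hb1 hb3 hb2 (by omega) (by omega) (by omega) h3 h2).swap23
  · exact (key _ _ _ _ _ _ ha3 ha1 ha2 hb3 hb1 hb2 (by omega) (by omega) (by omega)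
      h3 h1).swap12.swap23
  · exact (key _ _ _ _ _ _ ha2 ha1 ha3 hb2 hb1 hb3 (by omega) (by omega) (by omega) h1 h3).swap12
  · exact (key _ _ _ _ _ _ ha2 ha3 ha1 hb2 hb3 hb1 (by omega) (by omega) (by omega)
      h2 h3).swap23.swap12
  · exact (key _ _ _ _ _ _ ha3 ha2 ha1 hb3 hb2 hb1 (by omega) (by omega) (by omega) h2 h1).swap13
  · exact (key _ _ _ _ _ _ ha3 ha2 ha1 hb3 hb2 hb1 (by omega) (by omega) (by omega) h2 h1).swap13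

theorem coll_all {n m : ℕ} (hn : 4 ≤ n) (hm : 2 ≤ m) (hT : ¬ Three n m)
    (a1 b1 a2 b2 a3 b3 : ℤ) (ha1 : 0 ≤ a1 ∧ a1 < n) (ha2 : 0 ≤ a2 ∧ a2 < n)
    (ha3 : 0 ≤ a3 ∧ a3 < n) (hb1 : 0 ≤ b1 ∧ b1 < m) (hb2 : 0 ≤ b2 ∧ b2 < m)
    (hb3 : 0 ≤ b3 ∧ b3 < m) (h12 : ¬ (a1 = a2 ∧ b1 = b2)) (h13 : ¬ (a1 = a3 ∧ b1 = b3))
    (h23 : ¬ (a2 = a3 ∧ b2 = b3)) : Coll n (m - 1) a1 b1 a2 b2 a3 b3 := by
  unfold Three at hT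
  rcases Nat.even_or_odd' n with ⟨N, hN | hN⟩
  · have hcond : (N : ℤ) < 3 * ((m - 1 : ℤ) + 1) ∨
        ((N : ℤ) = 3 * ((m - 1 : ℤ) + 1) + 1 ∧ (N : ℤ) % 2 = 0) := by omega
    subst hN
    push_cast at *
    apply coll_assembly (by omega) (by omega) _ _ _ a1 b1 a2 b2 a3 b3 ha1 ha2 ha3
      (by omega) (by omega) (by omega) h12 h13 h23
    · intro a1 b1 a2 b2 a3 b3 h1 h2 h3 h4 h5 h6 h7
      exact IVe (by omega) h1 h2 h3 h4 h5 h6 h7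
    · intro a1 a2 a3 b b3 h1 h2 h3 h4 h5 h6 h7
      exact IIe (by omega) h1 h2 h3 h4 h5 h6 h7 hcond
    · intro p q r h1 h2 h3 h4
      exact T1e (by omega) (by omega) h1 h2 h3 h4 hcond
  · have hcond : (N : ℤ) < 3 * ((m - 1 : ℤ) + 1) - 1 ∨
        ((N : ℤ) % 2 = 0 ∧ (N : ℤ) < 3 * ((m - 1 : ℤ) + 1) + 1) := by omega
    subst hN
    push_cast at *
    apply coll_assembly (by omega) (by omega) _ _ _ a1 b1 a2 b2 a3 b3 ha1 ha2 ha3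
      (by omega) (by omega) (by omega) h12 h13 h23
    · intro a1 b1 a2 b2 a3 b3 h1 h2 h3 h4 h5 h6 h7
      exact IVo (by omega) h1 h2 h3 h4 h5 h6 h7
    · intro a1 a2 a3 b b3 h1 h2 h3 h4 h5 h6 h7
      exact IIo (by omega) h1 h2 h3 h4 h5 h6 h7
    · intro p q r h1 h2 h3 h4
      exact T1o (by omega) (by omega) h1 h2 h3 h4 hcond

end Pool.Agent.H9.MDim
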