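import Pool.Agent.H9.MDim.Coll

/-! Explicit coincidences for three points on a cylinder with an odd cycle. -/

set_option linter.unusedSimpArgs false
set_option linter.unusedVariables false

namespace Pool.Agent.H9.MDim

/-- three different rows, the outer columns are different -/
theorem IVo_local {N M y1 y2 y3 s t : ℤ} (hN : 2 ≤ N) (h0 : 0 ≤ y1) (h1 : y1 < y2) (h2 : y2 < y3)
    (h3 : y3 ≤ M) (ht0 : 1 ≤ t) (ht1 : t ≤ N) (hs0 : 0 ≤ s) (hs1 : s < 2 * N + 1)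
    (hst : ¬ (s = N + 1 ∧ t = 1)) :
    Coll (2 * N + 1) M 0 y1 s y2 t y3 := by
  by_cases h : 1 ≤ s ∧ s ≤ N
  · apply coll_id 1 y1 0 (y1 + 1) (by omega) (by omega) (by omega) <;>
    · unfold D
      simp (disch := omega) only [cd_a, cd_b, cd_c, cd_d, cd_e, cd_f, cd_g, cd_h]
      try omega
  by_cases h' : s = 0
  · subst h'
    apply coll_id 1 y2 0 (y2 + 1) (by omega) (by omega) (by omega) <;>
    · unfold D
      simp (disch := omega) only [cd_a, cd_b, cd_c, cd_d, cd_e, cd_f, cd_g, cd_h]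
      try omega
  by_cases h'' : s = N + 1
  · subst h''
    apply coll_id t y1 (t - 1) (y1 + 1) (by omega) (by omega) (by omega) <;>
    · unfold D
      simp (disch := omega) only [cd_a, cd_b, cd_c, cd_d, cd_e, cd_f, cd_g, cd_h]
      try omega
  apply coll_id 1 y2 0 (y2 + 1) (by omega) (by omega) (by omega) <;>
  · unfold D
    simp (disch := omega) only [cd_a, cd_b, cd_c, cd_d, cd_e, cd_f, cd_g, cd_h]
    try omega

/-- three different rows, the outer columns are equal -/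
theorem IVo_eq {N M y1 y2 y3 a : ℤ} (hN : 2 ≤ N) (h0 : 0 ≤ y1) (h1 : y1 < y2) (h2 : y2 < y3)
    (h3 : y3 ≤ M) (ha0 : 0 ≤ a) (ha1 : a ≤ N) :
    Coll (2 * N + 1) M 0 y1 a y2 0 y3 := by
  by_cases c1 : a = 0
  · subst c1
    apply coll_id 1 y1 (-1) y1 (by omega) (by omega) (by omega) <;>
    · unfold D
      simp (disch := omega) only [cd_a, cd_b, cd_c, cd_d, cd_e, cd_f, cd_g, cd_h]
      try omega
  by_cases c3 : (a - (y3 - y1) - (y2 - y1)) % 2 = 0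
  · obtain ⟨x, hx⟩ : ∃ x, x = a / 2 + 1 := ⟨_, rfl⟩
    obtain ⟨y, hy⟩ : ∃ y, y = (a + (y2 - y1) + (y3 - y1)) / 2 - x := ⟨_, rfl⟩
    apply coll_23 x (y1 + y) (a - x) (y2 + (y3 - y1) - y) (by omega) (by omega) (by omega) <;>
    · unfold D
      simp (disch := omega) only [cd_a, cd_b, cd_c, cd_d, cd_e, cd_f, cd_g, cd_h]
      try omega
  by_cases c4 : (a - (y2 - y1)) % 2 = 0
  · obtain ⟨x, hx⟩ : ∃ x, x = a / 2 + 1 := ⟨_, rfl⟩
    obtain ⟨y, hy⟩ : ∃ y, y = x - (a - (y2 - y1)) / 2 := ⟨_, rfl⟩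
    apply coll_12 x (y1 + y) (a - x) (y2 - y) (by omega) (by omega) (by omega) <;>
    · unfold D
      simp (disch := omega) only [cd_a, cd_b, cd_c, cd_d, cd_e, cd_f, cd_g, cd_h]
      try omega
  obtain ⟨k, hk⟩ : ∃ k, y3 - y1 = 2 * k := ⟨(y3 - y1) / 2, by omega⟩
  by_cases c6 : a = N
  · subst c6
    obtain ⟨v, hv⟩ : ∃ v, v = (a + 1) / 2 + 1 := ⟨_, rfl⟩
    obtain ⟨y, hy⟩ : ∃ y, y = (a + 1 + (y2 - y1) + (y3 - y1)) / 2 - v := ⟨_, rfl⟩
    apply coll_23 (-v) (y1 + y) (-(a + 1 - v)) (y2 + (y3 - y1) - y) (by omega) (by omega)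
      (by omega) <;>
    · unfold D
      simp (disch := omega) only [cd_a, cd_b, cd_c, cd_d, cd_e, cd_f, cd_g, cd_h]
      try omega
  rcases lt_trichotomy (y2 - y1) k with c5 | c5 | c5
  · apply coll_13 1 (y1 + k + 1) (-1) (y1 + k - 1) (by omega) (by omega) (by omega) <;>
    · unfold D
      simp (disch := omega) only [cd_a, cd_b, cd_c, cd_d, cd_e, cd_f, cd_g, cd_h]
      try omega
  · apply coll_13 0 y1 0 y3 (by omega) (by omega) (by omega) <;>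
    · unfold D
      simp (disch := omega) only [cd_a, cd_b, cd_c, cd_d, cd_e, cd_f, cd_g, cd_h]
      try omega
  · apply coll_13 1 (y1 + k - 1) (-1) (y1 + k + 1) (by omega) (by omega) (by omega) <;>
    · unfold D
      simp (disch := omega) only [cd_a, cd_b, cd_c, cd_d, cd_e, cd_f, cd_g, cd_h]
      try omega

/-- three different rows, outer columns adjacent, the middle one antipodal to both -/
theorem IVo_anti {N M y1 y2 y3 : ℤ} (hN : 2 ≤ N) (h0 : 0 ≤ y1) (h1 : y1 < y2) (h2 : y2 < y3)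
    (h3 : y3 ≤ M) :
    Coll (2 * N + 1) M 0 y1 (N + 1) y2 1 y3 := by
  obtain ⟨h, hh⟩ : ∃ h, h = y2 - y1 := ⟨_, rfl⟩
  obtain ⟨p, hp⟩ : ∃ p, p = y3 - y1 := ⟨_, rfl⟩
  by_cases c1 : p % 2 = 0
  · apply coll_13 0 (y1 + p / 2) 1 (y1 + p / 2) (by omega) (by omega) (by omega) <;>
    · unfold D
      simp (disch := omega) only [cd_a, cd_b, cd_c, cd_d, cd_e, cd_f, cd_g, cd_h]
      try omega
  by_cases c2 : (N - h) % 2 = 1
  · obtain ⟨k, hk⟩ : ∃ k, N + 2 - h - p = 2 * k := ⟨(N + 2 - h - p) / 2, by omega⟩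
    obtain ⟨x, hx⟩ : ∃ x, x = (N + 1) / 2 := ⟨_, rfl⟩
    apply coll_23 x (y1 + (x + 1 - k)) (x + 1) (y1 + (x - k)) (by omega) (by omega) (by omega) <;>
    · unfold D
      simp (disch := omega) only [cd_a, cd_b, cd_c, cd_d, cd_e, cd_f, cd_g, cd_h]
      try omega
  obtain ⟨k, hk⟩ : ∃ k, N - 1 - h - p = 2 * k := ⟨(N - 1 - h - p) / 2, by omega⟩
  obtain ⟨u, hu⟩ : ∃ u, u = (N - 1) / 2 := ⟨_, rfl⟩
  apply coll_23 (-u) (y1 + (u + 1 - k)) (-(u + 1)) (y1 + (u - k)) (by omega) (by omega)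
    (by omega) <;>
  · unfold D
    simp (disch := omega) only [cd_a, cd_b, cd_c, cd_d, cd_e, cd_f, cd_g, cd_h]
    try omega

/-- two points in row `y1` at distance `N`, the third above the short arc (left half) -/
theorem T4o_short {N M y1 y3 s : ℤ} (hN : 2 ≤ N) (h0 : 0 ≤ y1) (h1 : y1 < y3)
    (h3 : y3 ≤ M) (hs0 : 0 ≤ s) (hs1 : 2 * s ≤ N) :
    Coll (2 * N + 1) M 0 y1 N y1 s y3 := by
  by_cases c0 : 2 * s = N
  · apply coll_12 0 y1 N y1 (by omega) (by omega) (by omega) <;>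
    · unfold D
      simp (disch := omega) only [cd_a, cd_b, cd_c, cd_d, cd_e, cd_f, cd_g, cd_h]
      try omega
  by_cases c3 : 1 ≤ s ∧ (s - (y3 - y1)) % 2 = 0
  · obtain ⟨x, hx⟩ : ∃ x, x = s / 2 + 1 := ⟨_, rfl⟩
    obtain ⟨y, hy⟩ : ∃ y, y = x - (s - (y3 - y1)) / 2 := ⟨_, rfl⟩
    apply coll_13 x (y1 + y) (s - x) (y3 - y) (by omega) (by omega) (by omega) <;>
    · unfold D
      simp (disch := omega) only [cd_a, cd_b, cd_c, cd_d, cd_e, cd_f, cd_g, cd_h]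
      try omega
  by_cases c4 : (N - s - (y3 - y1)) % 2 = 0
  · obtain ⟨x, hx⟩ : ∃ x, x = (N - s) / 2 + 1 := ⟨_, rfl⟩
    obtain ⟨y, hy⟩ : ∃ y, y = x - (N - s - (y3 - y1)) / 2 := ⟨_, rfl⟩
    apply coll_23 (N - x) (y1 + y) (s + x) (y3 - y) (by omega) (by omega) (by omega) <;>
    · unfold D
      simp (disch := omega) only [cd_a, cd_b, cd_c, cd_d, cd_e, cd_f, cd_g, cd_h]
      try omega
  obtain ⟨k, hk⟩ : ∃ k, N + 1 - s - (y3 - y1) = 2 * k :=
    ⟨(N + 1 - s - (y3 - y1)) / 2, by omega⟩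
  obtain ⟨u, hu⟩ : ∃ u, u = (N + 1 - s) / 2 := ⟨_, rfl⟩
  apply coll_23 (-u) (y1 + (u + 1 - k)) (-(u + 1)) (y1 + (u - k)) (by omega) (by omega)
    (by omega) <;>
  · unfold D
    simp (disch := omega) only [cd_a, cd_b, cd_c, cd_d, cd_e, cd_f, cd_g, cd_h]
    try omega

/-- two points in row `y1` at distance `N`, the third above the long arc (near the first) -/
theorem T4o_long {N M y1 y3 g : ℤ} (hN : 2 ≤ N) (h0 : 0 ≤ y1) (h1 : y1 < y3)
    (h3 : y3 ≤ M) (hg0 : 1 ≤ g) (hg1 : 2 * g ≤ N + 1) :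
    Coll (2 * N + 1) M 0 y1 N y1 (-g) y3 := by
  by_cases c1 : (N + 1 - g - (y3 - y1)) % 2 = 0
  · obtain ⟨w, hw⟩ : ∃ w, N + 1 - g + (y3 - y1) = 2 * w := ⟨(N + 1 - g + (y3 - y1)) / 2, by omega⟩
    obtain ⟨u, hu⟩ : ∃ u, u = min (N + 1 - g - 1) (w - 1) := ⟨_, rfl⟩
    obtain ⟨y, hy⟩ : ∃ y, y = w - 1 - u := ⟨_, rfl⟩
    apply coll_23 (N + u) (y1 + y) (N + u + 1) (y1 + (y + 1)) (by omega) (by omega)
      (by omega) <;>
    · unfold D
      simp (disch := omega) only [cd_a, cd_b, cd_c, cd_d, cd_e, cd_f, cd_g, cd_h]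
      try omega
  obtain ⟨k, hk⟩ : ∃ k, N - g - (y3 - y1) = 2 * k := ⟨(N - g - (y3 - y1)) / 2, by omega⟩
  obtain ⟨x, hx⟩ : ∃ x, x = (N - g) / 2 := ⟨_, rfl⟩
  apply coll_23 x (y1 + (x + 1 - k)) (x + 1) (y1 + (x - k)) (by omega) (by omega)
    (by omega) <;>
  · unfold D
    simp (disch := omega) only [cd_a, cd_b, cd_c, cd_d, cd_e, cd_f, cd_g, cd_h]
    try omega

/-- two points in row `y1 < y3`, third point outside the short arc, or rows not extreme -/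
theorem IIo_local {N M y1 y3 a s : ℤ} (hN : 2 ≤ N) (h0 : 0 ≤ y1) (h1 : y1 < y3)
    (h3 : y3 ≤ M) (ha0 : 1 ≤ a) (ha1 : a < N) (hs0 : 0 ≤ s) (hs1 : s < 2 * N + 1)
    (h : a < s ∨ 0 < y1 ∨ y3 < M) :
    Coll (2 * N + 1) M 0 y1 a y1 s y3 := by
  by_cases c1 : a < s ∧ s ≤ a + N
  · apply coll_id (a + 1) y1 a (y1 + 1) (by omega) (by omega) (by omega) <;>
    · unfold D
      simp (disch := omega) only [cd_a, cd_b, cd_c, cd_d, cd_e, cd_f, cd_g, cd_h]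
      try omega
  by_cases c2 : a + N < s
  · apply coll_id (-1) y1 0 (y1 + 1) (by omega) (by omega) (by omega) <;>
    · unfold D
      simp (disch := omega) only [cd_a, cd_b, cd_c, cd_d, cd_e, cd_f, cd_g, cd_h]
      try omega
  have c3 : s ≤ a := by omega
  by_cases c4 : 0 < y1
  · apply coll_id a (y1 - 1) (a + 1) y1 (by omega) (by omega) (by omega) <;>
    · unfold D
      simp (disch := omega) only [cd_a, cd_b, cd_c, cd_d, cd_e, cd_f, cd_g, cd_h]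
      try omega
  have c5 : y3 < M := by omega
  apply coll_id (a + 1) y3 a (y3 + 1) (by omega) (by omega) (by omega) <;>
  · unfold D
    simp (disch := omega) only [cd_a, cd_b, cd_c, cd_d, cd_e, cd_f, cd_g, cd_h]
    try omega

/-- two points in row `0`, third point in row `M` above the short arc -/
theorem T2o {N M b c : ℤ} (hN : 2 ≤ N) (hM : 1 ≤ M) (hb : 0 ≤ b) (hbc : b ≤ c) (hc : 1 ≤ c)
    (ha : b + c < N) :
    Coll (2 * N + 1) M 0 0 (b + c) 0 b M := by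
  by_cases c3 : (c - M) % 2 = 0
  · obtain ⟨x, hx⟩ : ∃ x, x = min (c - 1) ((c + M) / 2 - 1) := ⟨_, rfl⟩
    obtain ⟨y, hy⟩ : ∃ y, y = (c + M) / 2 - 1 - x := ⟨_, rfl⟩
    apply coll_23 (b + c - x) y (b + c - x - 1) (y + 1) (by omega) (by omega) (by omega) <;>
    · unfold D
      simp (disch := omega) only [cd_a, cd_b, cd_c, cd_d, cd_e, cd_f, cd_g, cd_h]
      try omega
  by_cases c2 : 2 ≤ c
  · obtain ⟨v, hv⟩ : ∃ v, v = max 1 ((c + 1 - M) / 2) := ⟨_, rfl⟩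
    obtain ⟨y, hy⟩ : ∃ y, y = v + (M + 1 - c) / 2 := ⟨_, rfl⟩
    apply coll_23 (b + c - (N + v)) y (b + c - (N + v + 1)) (y - 1) (by omega) (by omega)
      (by omega) <;>
    · unfold D
      simp (disch := omega) only [cd_a, cd_b, cd_c, cd_d, cd_e, cd_f, cd_g, cd_h]
      try omega
  by_cases c1 : b = 1
  · have c4 : c = 1 := by omega
    subst c1
    subst c4
    apply coll_12 0 0 2 0 (by omega) (by omega) (by omega) <;>
    · unfold D
      simp (disch := omega) only [cd_a, cd_b, cd_c, cd_d, cd_e, cd_f, cd_g, cd_h]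
      try omega
  obtain ⟨k, hk⟩ : ∃ k, M = 2 * k := ⟨M / 2, by omega⟩
  have c7 : b = 0 := by omega
  have c8 : c = 1 := by omega
  subst c7
  subst c8
  apply coll_13 1 (k + 1) (-1) (k - 1) (by omega) (by omega) (by omega) <;>
  · unfold D
    simp (disch := omega) only [cd_a, cd_b, cd_c, cd_d, cd_e, cd_f, cd_g, cd_h]
    try omega

/-- three points in row `0` inside a short arc -/
theorem T1o_long {N M p q : ℤ} (hM : 1 ≤ M) (hp : 1 ≤ p) (hq : 1 ≤ q) (h : p + q < N) :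
    Coll (2 * N + 1) M 0 0 p 0 (p + q) 0 := by
  apply coll_id (p + q + 1) 0 (p + q) 1 (by omega) (by omega) (by omega) <;>
  · unfold D
    simp (disch := omega) only [cd_a, cd_b, cd_c, cd_d, cd_e, cd_f, cd_g, cd_h]
    try omega

/-- arcs `p, q, r` with `q ≡ r` -/
theorem T1o_t1 {N M p q r d : ℤ} (hN : 2 ≤ N) (hM : 1 ≤ M) (hp : 1 ≤ p) (hq : 1 ≤ q) (hr : 1 ≤ r)
    (hs : p + q + r = 2 * N + 1) (hqN : q ≤ N + 1) (hd : q - r = 2 * d)
    (hd0 : 0 ≤ d) (h : d ≤ M) (h2 : d ≤ N - p) :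
    Coll (2 * N + 1) M 0 0 p 0 (p + q) 0 := by
  by_cases c : q ≤ N
  · apply coll_12 0 d (p + d) 0 (by omega) (by omega) (by omega) <;>
    · unfold D
      simp (disch := omega) only [cd_a, cd_b, cd_c, cd_d, cd_e, cd_f, cd_g, cd_h]
      try omega
  · apply coll_12 0 d (p + d) 0 (by omega) (by omega) (by omega) <;>
    · unfold D
      simp (disch := omega) only [cd_a, cd_b, cd_c, cd_d, cd_e, cd_f, cd_g, cd_h]
      try omega

theorem T1o_A {N M p G g : ℤ} (hN : 2 ≤ N) (hM : 1 ≤ M) (hp : 1 ≤ p) (hg : 1 ≤ g) (hGg : g ≤ G)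
    (hs : p + 2 * G + 2 * g = 2 * N + 1) (hpN : p ≤ N + 1) (hGN : 2 * G ≤ N + 1)
    (h : G - g ≤ M) (h2 : N - p < G - g) (h3 : G ≤ 2 * g) :
    Coll (2 * N + 1) M 0 0 p 0 (p + 2 * G) 0 := by
  apply coll_mk (p + 2 * G + (2 * g - G)) (G - g) (p + 2 * G - (2 * G - g)) 0
    (by omega) (by omega) (by omega)
  unfold D
  simp (disch := omega) only [cd_a, cd_b, cd_c, cd_d, cd_e, cd_f, cd_g, cd_h]
  omega

theorem T1o_B {N M p G g : ℤ} (hN : 2 ≤ N) (hM : 1 ≤ M) (hp : 1 ≤ p) (hg : 1 ≤ g) (hGg : g ≤ G)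
    (hs : p + 2 * G + 2 * g = 2 * N + 1) (hpN : p ≤ N + 1) (hGN : 2 * G ≤ N + 1)
    (h : g ≤ M) (h2 : N - p < G - g) (h3 : 2 * g ≤ G) :
    Coll (2 * N + 1) M 0 0 p 0 (p + 2 * G) 0 := by
  apply coll_mk (p + 2 * G - (G - 2 * g)) g (p + 2 * G - (G + g)) 0
    (by omega) (by omega) (by omega)
  unfold D
  simp (disch := omega) only [cd_a, cd_b, cd_c, cd_d, cd_e, cd_f, cd_g, cd_h]
  omega

theorem T1o_C {N M p q r : ℤ} (hN : 2 ≤ N) (hM : 1 ≤ M) (hr : 0 ≤ r) (hqr : r ≤ q) (hpq : q ≤ p)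
    (hs : p + q + r + 1 = N) (hpN : 2 * p + 1 ≤ N + 1)
    (h : q - r ≤ M) (h3 : 2 * q + 1 ≤ 2 * (2 * r + 1)) :
    Coll (2 * N + 1) M 0 0 (2 * p + 1) 0 (2 * p + 1 + (2 * q + 1)) 0 := by
  apply coll_mk (2 * p + 1 - (p - r)) 0 (p - q) (q - r)
    (by omega) (by omega) (by omega)
  unfold D
  simp (disch := omega) only [cd_a, cd_b, cd_c, cd_d, cd_e, cd_f, cd_g, cd_h]
  omega

end Pool.Agent.H9.MDim
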