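import Pool.Agent.H9.MDim.Odd
import Pool.Agent.H9.MDim.EvenMain

set_option linter.unusedSimpArgs false
set_option linter.unusedVariables false

namespace Pool.Agent.H9.MDim

/-- all rows different -/
theorem IVo {N M a1 b1 a2 b2 a3 b3 : ℤ} (hN : 2 ≤ N) (ha1 : 0 ≤ a1 ∧ a1 < 2 * N + 1)
    (ha2 : 0 ≤ a2 ∧ a2 < 2 * N + 1) (ha3 : 0 ≤ a3 ∧ a3 < 2 * N + 1) (hb1 : 0 ≤ b1) (hb12 : b1 < b2)
    (hb23 : b2 < b3) (hb3 : b3 ≤ M) : Coll (2 * N + 1) M a1 b1 a2 b2 a3 b3 := by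
  obtain ⟨s, hs0, hs1, hs⟩ := norm_col ha1.1 ha1.2 ha2.1 ha2.2
  obtain ⟨t, ht0, ht1, ht⟩ := norm_col ha1.1 ha1.2 ha3.1 ha3.2
  suffices h : Coll (2 * N + 1) M 0 b1 s b2 t b3 from h.trans a1 _ _ _ (by omega) hs ht
  have key : ∀ s t : ℤ, 1 ≤ t → t ≤ N → 0 ≤ s → s < 2 * N + 1 →
      Coll (2 * N + 1) M 0 b1 s b2 t b3 := by
    intro s t ht0 ht1 hs0 hs1
    by_cases h1 : s = N + 1 ∧ t = 1
    · obtain ⟨h1, h2⟩ := h1
      subst h1
      subst h2
      exact IVo_anti hN hb1 hb12 hb23 hb3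
    · exact IVo_local hN hb1 hb12 hb23 hb3 ht0 ht1 hs0 hs1 h1
  by_cases h1 : t = 0
  · subst h1
    by_cases h2 : s ≤ N
    · exact IVo_eq hN hb1 hb12 hb23 hb3 hs0 h2
    · exact Coll.refl (by omega) (IVo_eq (a := 2 * N + 1 - s) hN hb1 hb12 hb23 hb3 (by omega)
        (by omega)) 0 _ _ _ (by omega) (by omega) (by omega)
  · by_cases h2 : t ≤ N
    · exact key s t (by omega) h2 hs0 hs1
    · by_cases h3 : s = 0
      · subst h3
        exact Coll.refl (by omega) (key 0 (2 * N + 1 - t)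
          (by omega) (by omega) (by omega) (by omega)) 0 _ _ _ (by omega) (by omega) (by omega)
      · exact Coll.refl (by omega) (key (2 * N + 1 - s) (2 * N + 1 - t)
          (by omega) (by omega) (by omega) (by omega)) 0 _ _ _ (by omega) (by omega) (by omega)

/-- antipodal pair in one row, third higher -/
theorem T4o {N M y1 y3 s : ℤ} (hN : 2 ≤ N) (h0 : 0 ≤ y1) (h1 : y1 < y3)
    (h3 : y3 ≤ M) (hs0 : 0 ≤ s) (hs1 : s < 2 * N + 1) :
    Coll (2 * N + 1) M 0 y1 N y1 s y3 := by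
  by_cases c1 : 2 * s ≤ N
  · exact T4o_short hN h0 h1 h3 hs0 c1
  by_cases c2 : s ≤ N
  · have := T4o_short (s := N - s) hN h0 h1 h3 (by omega) (by omega)
    exact (Coll.refl (by omega) this N N 0 s (by omega) (by omega) (by omega)).swap12
  by_cases c3 : 2 * (2 * N + 1 - s) ≤ N + 1
  · have := T4o_long (g := 2 * N + 1 - s) hN h0 h1 h3 (by omega) (by omega)
    exact Coll.trans this 0 _ _ _ (by omega) (by omega) (by omega)
  · have := T4o_long (g := s - N) hN h0 h1 h3 (by omega) (by omega)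
    exact (Coll.refl (by omega) this N N 0 s (by omega) (by omega) (by omega)).swap12

/-- two points in the lowest row, third one higher -/
theorem IIo {N M a1 a2 a3 b b3 : ℤ} (hN : 2 ≤ N) (ha1 : 0 ≤ a1 ∧ a1 < 2 * N + 1)
    (ha2 : 0 ≤ a2 ∧ a2 < 2 * N + 1) (ha3 : 0 ≤ a3 ∧ a3 < 2 * N + 1) (hb1 : 0 ≤ b)
    (hb3 : b < b3) (hbM : b3 ≤ M) (hne : a1 ≠ a2) :
    Coll (2 * N + 1) M a1 b a2 b a3 b3 := by
  obtain ⟨s, hs0, hs1, hs⟩ := norm_col ha1.1 ha1.2 ha2.1 ha2.2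
  obtain ⟨t, ht0, ht1, ht⟩ := norm_col ha1.1 ha1.2 ha3.1 ha3.2
  suffices h : Coll (2 * N + 1) M 0 b s b t b3 from h.trans a1 _ _ _ (by omega) hs ht
  have hs2 : 1 ≤ s := by omega
  have key : ∀ s t : ℤ, 1 ≤ s → s ≤ N → 0 ≤ t → t < 2 * N + 1 →
      Coll (2 * N + 1) M 0 b s b t b3 := by
    intro s t hs2 hs3 ht0 ht1
    by_cases h0 : s = N
    · subst h0
      exact T4o hN hb1 hb3 hbM ht0 ht1
    have hs3 : s < N := by omega
    by_cases h1 : s < t ∨ 0 < b ∨ b3 < M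
    · exact IIo_local hN hb1 hb3 hbM hs2 hs3 ht0 ht1 h1
    · have h2 : b = 0 := by omega
      have h3 : b3 = M := by omega
      subst h2
      subst h3
      by_cases h4 : t ≤ s - t
      · have := T2o (b := t) (c := s - t) hN (M := b3) (by omega) (by omega) h4 (by omega) (by omega)
        rw [show t + (s - t) = s by ring] at this
        exact this
      · have := T2o (b := s - t) (c := t) hN (M := b3) (by omega) (by omega) (by omega) (by omega)
          (by omega)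
        rw [show s - t + t = s by ring] at this
        exact (Coll.refl (by omega) this s s 0 t (by omega) (by omega) (by omega)).swap12
  by_cases h1 : s ≤ N
  · exact key s t hs2 h1 ht0 ht1
  · by_cases h3 : t = 0
    · subst h3
      exact Coll.refl (by omega) (key (2 * N + 1 - s) 0 (by omega) (by omega) (by omega) (by omega))
        0 _ _ _ (by omega) (by omega) (by omega)
    · exact Coll.refl (by omega) (key (2 * N + 1 - s) (2 * N + 1 - t) (by omega) (by omega)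
        (by omega) (by omega)) 0 _ _ _ (by omega) (by omega) (by omega)

/-- two even arcs `2G ≥ 2g`, odd arc `p` -/
theorem T1o_EE {N M p G g : ℤ} (hN : 2 ≤ N) (hM : 1 ≤ M) (hp : 1 ≤ p) (hg : 1 ≤ g) (hGg : g ≤ G)
    (hs : p + 2 * G + 2 * g = 2 * N + 1) (hpN : p ≤ N + 1) (hGN : 2 * G ≤ N + 1)
    (h : (G - g ≤ M ∧ (G - g ≤ N - p ∨ G ≤ 2 * g)) ∨
      (g ≤ M ∧ N - p < G - g ∧ 2 * g ≤ G)) :
    Coll (2 * N + 1) M 0 0 p 0 (p + 2 * G) 0 := by
  by_cases c1 : G - g ≤ M ∧ G - g ≤ N - p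
  · exact T1o_t1 (r := 2 * g) (d := G - g) hN hM hp (by omega) (by omega) (by omega) hGN
      (by omega) (by omega) c1.1 c1.2
  by_cases c2 : G - g ≤ M ∧ G ≤ 2 * g
  · exact T1o_A hN hM hp hg hGg hs hpN hGN c2.1 (by omega) c2.2
  · exact T1o_B hN hM hp hg hGg hs hpN hGN (by omega) (by omega) (by omega)

theorem T1o_sorted {N M p q r : ℤ} (hN : 2 ≤ N) (hM : 1 ≤ M) (hr : 1 ≤ r) (hqr : r ≤ q)
    (hpq : q ≤ p) (hs : p + q + r = 2 * N + 1)
    (hcond : N < 3 * (M + 1) - 1 ∨ (N % 2 = 0 ∧ N < 3 * (M + 1) + 1)) :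
    Coll (2 * N + 1) M 0 0 p 0 (p + q) 0 := by
  by_cases c0 : N + 1 < p
  · apply T1_rot hs
    exact T1o_long hM (by omega) (by omega) (by omega)
  -- exactly one odd arc, or all odd
  by_cases o1 : q % 2 = 0 ∧ r % 2 = 0
  · -- arcs p odd, q ≥ r even
    obtain ⟨G, hG⟩ : ∃ G, q = 2 * G := ⟨q / 2, by omega⟩
    obtain ⟨g, hg⟩ : ∃ g, r = 2 * g := ⟨r / 2, by omega⟩
    subst hG
    exact T1o_EE (g := g) hN hM (by omega) (by omega) (by omega) (by omega) (by omega) (by omega)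
      (by omega)
  by_cases o2 : p % 2 = 0 ∧ r % 2 = 0
  · -- arcs (q, p, r)
    obtain ⟨G, hG⟩ : ∃ G, p = 2 * G := ⟨p / 2, by omega⟩
    obtain ⟨g, hg⟩ : ∃ g, r = 2 * g := ⟨r / 2, by omega⟩
    apply T1_rot hs
    apply T1_refl (r := p) (by omega) (by omega)
    apply T1_rot (r := q) (by omega)
    apply T1_rot (r := p) (by omega)
    subst hG
    exact T1o_EE (g := g) hN hM (by omega) (by omega) (by omega) (by omega) (by omega) (by omega)
      (by omega)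
  by_cases o3 : p % 2 = 0 ∧ q % 2 = 0
  · -- arcs (r, p, q)
    obtain ⟨G, hG⟩ : ∃ G, p = 2 * G := ⟨p / 2, by omega⟩
    obtain ⟨g, hg⟩ : ∃ g, q = 2 * g := ⟨q / 2, by omega⟩
    apply T1_rot hs
    apply T1_rot (r := p) (by omega)
    subst hG
    exact T1o_EE (g := g) hN hM (by omega) (by omega) (by omega) (by omega) (by omega) (by omega)
      (by omega)
  -- all odd
  by_cases d1 : (p - q) / 2 ≤ M
  · apply T1_rot hs
    apply T1_rot (r := p) (by omega)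
    exact T1o_t1 (r := q) (d := (p - q) / 2) hN hM (by omega) (by omega) (by omega) (by omega)
      (by omega) (by omega) (by omega) (by omega) (by omega)
  by_cases d2 : (q - r) / 2 ≤ M ∧ (q - r) / 2 ≤ N - p
  · exact T1o_t1 (r := r) (d := (q - r) / 2) hN hM (by omega) (by omega) (by omega) (by omega)
      (by omega) (by omega) (by omega) (by omega) (by omega)
  by_cases d3 : (q - r) / 2 ≤ M ∧ q ≤ 2 * r
  · obtain ⟨p', hp'⟩ : ∃ p', p = 2 * p' + 1 := ⟨p / 2, by omega⟩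
    obtain ⟨q', hq'⟩ : ∃ q', q = 2 * q' + 1 := ⟨q / 2, by omega⟩
    obtain ⟨r', hr'⟩ : ∃ r', r = 2 * r' + 1 := ⟨r / 2, by omega⟩
    subst hp'
    subst hq'
    exact T1o_C (r := r') hN hM (by omega) (by omega) (by omega) (by omega) (by omega) (by omega)
      (by omega)
  exfalso
  omega

theorem T1o {N M p q r : ℤ} (hN : 2 ≤ N) (hM : 1 ≤ M) (hp : 1 ≤ p) (hq : 1 ≤ q)
    (hr : 1 ≤ r) (hs : p + q + r = 2 * N + 1)
    (hcond : N < 3 * (M + 1) - 1 ∨ (N % 2 = 0 ∧ N < 3 * (M + 1) + 1)) :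
    Coll (2 * N + 1) M 0 0 p 0 (p + q) 0 := by
  rcases le_total p q with h1 | h1 <;> rcases le_total q r with h2 | h2 <;>
    rcases le_total p r with h3 | h3
  · -- p ≤ q ≤ r
    exact T1_refl (by omega) hs (T1o_sorted hN hM hp h1 h2 (by omega) hcond)
  · exact T1_refl (by omega) hs (T1o_sorted hN hM hp h1 h2 (by omega) hcond)
  · -- r ≤ q, p ≤ r : q ≥ r ≥ p
    exact T1_rot hs (T1o_sorted hN hM hp h3 h2 (by omega) hcond)
  · -- q ≥ p ≥ r
    apply T1_refl (by omega) hs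
    apply T1_rot (r := p) (by omega)
    exact T1o_sorted hN hM hr h3 h1 (by omega) hcond
  · -- q ≤ p, q ≤ r, p ≤ r: r ≥ p ≥ q
    apply T1_rot hs
    apply T1_rot (r := p) (by omega)
    exact T1o_sorted hN hM hq h1 h3 (by omega) hcond
  · -- p ≥ r ≥ q
    apply T1_rot hs
    apply T1_refl (r := p) (by omega) (by omega)
    exact T1o_sorted hN hM hq h2 h3 (by omega) hcond
  · exact T1o_sorted hN hM hr h2 h1 hs hcond
  · exact T1o_sorted hN hM hr h2 h1 hs hcond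

/-- all points in row 0 -/
theorem I_of_T1 {n M a1 a2 a3 : ℤ} (ha1 : 0 ≤ a1 ∧ a1 < n)
    (ha2 : 0 ≤ a2 ∧ a2 < n) (ha3 : 0 ≤ a3 ∧ a3 < n) (h12 : a1 ≠ a2) (h13 : a1 ≠ a3)
    (h23 : a2 ≠ a3)
    (H : ∀ p q r : ℤ, 1 ≤ p → 1 ≤ q → 1 ≤ r → p + q + r = n → Coll n M 0 0 p 0 (p + q) 0) :
    Coll n M a1 0 a2 0 a3 0 := by
  have key : ∀ a1 a2 a3 : ℤ, 0 ≤ a1 → a1 < a2 → a2 < a3 → a3 < n →
      Coll n M a1 0 a2 0 a3 0 := by
    intro a1 a2 a3 h1 h2 h3 h4
    have := H (a2 - a1) (a3 - a2) (n - (a3 - a1)) (by omega)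
      (by omega) (by omega) (by omega)
    exact this.trans a1 _ _ _ (by omega) (by omega) (by omega)
  rcases lt_or_gt_of_ne h12 with h1 | h1 <;> rcases lt_or_gt_of_ne h23 with h2 | h2 <;>
    rcases lt_or_gt_of_ne h13 with h3 | h3
  · exact key _ _ _ ha1.1 h1 h2 ha3.2
  · omega
  · exact (key a1 a3 a2 ha1.1 h3 h2 ha2.2).swap23
  · exact (key a3 a1 a2 ha3.1 h3 h1 ha2.2).swap12.swap23
  · exact (key a2 a1 a3 ha2.1 h1 h3 ha3.2).swap12
  · exact (key a2 a3 a1 ha2.1 h2 h3 ha1.2).swap23.swap12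
  · omega
  · exact (key a3 a2 a1 ha3.1 h2 h1 ha1.2).swap13

end Pool.Agent.H9.MDim
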