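import Pool.Agent.H9.MDim.Check

set_option linter.unusedSimpArgs false
set_option linter.unusedVariables false

namespace Pool.Agent.H9.MDim

def prs_6_2 : List ((ℕ × ℕ) × (ℕ × ℕ)) :=
  [((0, 0), (3, 1)), ((0, 1), (1, 0)), ((1, 1), (4, 0)), ((0, 0), (1, 1)), ((0, 0), (4, 0)), ((0,
  0), (5, 1)), ((1, 1), (2, 0)), ((0, 1), (5, 0)), ((1, 0), (2, 1)), ((0, 0), (2, 0)), ((1, 0),
  (5, 0)), ((2, 0), (5, 1)), ((0, 0), (1, 0)), ((0, 0), (2, 1)), ((0, 0), (4, 1)), ((0, 0), (5,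
  0)), ((0, 1), (2, 1)), ((0, 1), (4, 1)), ((1, 1), (5, 1)), ((1, 0), (2, 0)), ((1, 0), (5, 1)),
  ((1, 0), (4, 1))]

theorem valid_6_2 : validPairs 6 2 prs_6_2 = true := by decide +kernel

theorem full_6_2 : full 6 2 3 4 prs_6_2 = true := by decide +kernel

def prs_7_2 : List ((ℕ × ℕ) × (ℕ × ℕ)) :=
  [((0, 0), (1, 1)), ((0, 1), (6, 0)), ((1, 0), (2, 1)), ((2, 1), (3, 0)), ((3, 1), (4, 0)), ((4,
  1), (5, 0)), ((5, 0), (6, 1)), ((2, 0), (3, 1)), ((4, 0), (5, 1)), ((3, 0), (4, 1)), ((1, 1),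
  (2, 0)), ((0, 1), (1, 0)), ((0, 0), (6, 1)), ((5, 1), (6, 0)), ((0, 0), (1, 0)), ((0, 0), (6,
  0)), ((3, 1), (4, 1)), ((2, 1), (3, 1)), ((0, 0), (3, 1)), ((0, 1), (3, 0)), ((1, 0), (2, 0)),
  ((1, 0), (4, 1)), ((2, 1), (6, 0)), ((0, 0), (4, 1)), ((1, 1), (4, 0)), ((2, 0), (6, 1)), ((1,
  0), (5, 1)), ((1, 1), (5, 0)), ((2, 0), (5, 1)), ((2, 1), (5, 0)), ((3, 0), (6, 1)), ((3, 1),
  (6, 0)), ((0, 1), (4, 0)), ((0, 0), (2, 0)), ((0, 0), (4, 0)), ((0, 0), (2, 1)), ((0, 0), (5,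
  1)), ((0, 1), (2, 0)), ((0, 1), (5, 0)), ((1, 0), (3, 1)), ((1, 0), (6, 1)), ((1, 1), (3, 0)),
  ((1, 1), (6, 0)), ((2, 0), (4, 1)), ((2, 1), (4, 0)), ((3, 0), (5, 1)), ((3, 1), (5, 0)), ((4,
  0), (6, 1)), ((4, 1), (6, 0))]

theorem valid_7_2 : validPairs 7 2 prs_7_2 = true := by decide +kernel

theorem full_7_2 : full 7 2 3 4 prs_7_2 = true := by decide +kernel

def prs_4_3 : List ((ℕ × ℕ) × (ℕ × ℕ)) :=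
  [((0, 1), (2, 1)), ((1, 0), (3, 2)), ((1, 2), (3, 0)), ((1, 1), (3, 1)), ((0, 0), (0, 2)), ((0,
  1), (1, 0)), ((0, 1), (3, 0)), ((0, 1), (1, 2)), ((0, 1), (3, 2)), ((0, 0), (1, 1)), ((0, 0),
  (3, 1)), ((0, 2), (1, 1)), ((0, 2), (3, 1)), ((0, 1), (1, 1)), ((0, 1), (3, 1)), ((0, 0), (0,
  1)), ((0, 1), (0, 2)), ((0, 1), (2, 0)), ((0, 1), (2, 2)), ((0, 0), (2, 1)), ((0, 2), (2, 0))]

theorem valid_4_3 : validPairs 4 3 prs_4_3 = true := by decide +kernel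

theorem full_4_3 : full 4 3 3 4 prs_4_3 = true := by decide +kernel

def prs_5_3 : List ((ℕ × ℕ) × (ℕ × ℕ)) :=
  [((0, 0), (0, 2)), ((0, 1), (1, 1)), ((3, 1), (4, 1)), ((0, 1), (4, 1)), ((1, 1), (2, 1)), ((2,
  0), (3, 1)), ((2, 1), (3, 2)), ((0, 0), (4, 1)), ((0, 1), (4, 2)), ((0, 1), (1, 0)), ((1, 0),
  (2, 1)), ((3, 1), (4, 2)), ((2, 1), (3, 1)), ((0, 2), (1, 1)), ((1, 2), (2, 1)), ((1, 0), (1,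
  1)), ((1, 1), (1, 2)), ((3, 0), (3, 1)), ((0, 2), (4, 1)), ((2, 1), (3, 0)), ((1, 0), (4, 2)),
  ((2, 2), (3, 1)), ((0, 0), (1, 1)), ((0, 1), (1, 2)), ((0, 1), (4, 0)), ((1, 1), (2, 0)), ((1,
  0), (1, 2)), ((1, 1), (2, 2)), ((3, 0), (3, 2)), ((3, 2), (4, 1)), ((4, 0), (4, 2)), ((2, 0),
  (2, 2)), ((1, 0), (3, 2)), ((3, 0), (4, 1)), ((3, 1), (3, 2)), ((3, 1), (4, 0)), ((4, 0), (4,
  1)), ((0, 1), (0, 2)), ((0, 0), (3, 2)), ((0, 1), (3, 0)), ((0, 2), (3, 0)), ((1, 2), (4, 0)),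
  ((1, 2), (4, 1)), ((0, 0), (2, 1)), ((0, 0), (3, 1)), ((0, 1), (3, 2)), ((0, 2), (2, 1)), ((1,
  0), (4, 1)), ((1, 1), (4, 2)), ((2, 1), (4, 0)), ((2, 1), (4, 2)), ((0, 0), (0, 1)), ((0, 1),
  (2, 0)), ((0, 1), (2, 2)), ((0, 2), (3, 1)), ((1, 0), (3, 1)), ((1, 1), (3, 0)), ((1, 1), (3,
  2)), ((1, 1), (4, 0)), ((1, 2), (3, 1)), ((2, 0), (2, 1)), ((2, 0), (4, 1)), ((2, 1), (2, 2)),
  ((2, 2), (4, 1)), ((4, 1), (4, 2))]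

theorem valid_5_3 : validPairs 5 3 prs_5_3 = true := by decide +kernel

theorem full_5_3 : full 5 3 3 4 prs_5_3 = true := by decide +kernel

def prs_6_3 : List ((ℕ × ℕ) × (ℕ × ℕ)) :=
  [((0, 0), (3, 2)), ((1, 1), (2, 0)), ((1, 2), (2, 1)), ((0, 2), (1, 1)), ((2, 1), (3, 0)), ((0,
  1), (1, 0)), ((2, 2), (3, 1)), ((1, 1), (5, 1)), ((1, 0), (2, 1)), ((1, 1), (2, 2)), ((1, 2),
  (4, 0)), ((0, 1), (4, 1)), ((3, 1), (5, 1)), ((2, 0), (5, 2)), ((2, 1), (3, 2)), ((2, 0), (3,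
  1)), ((0, 1), (1, 2)), ((0, 0), (1, 1)), ((2, 2), (5, 1)), ((0, 0), (0, 2)), ((0, 2), (3, 0)),
  ((2, 1), (4, 1)), ((0, 1), (2, 1)), ((1, 1), (3, 1)), ((1, 1), (4, 2)), ((0, 2), (3, 1)), ((0,
  2), (2, 0)), ((0, 2), (4, 0)), ((0, 0), (2, 2)), ((0, 0), (4, 2)), ((1, 0), (4, 2)), ((2, 2),
  (5, 0)), ((0, 0), (3, 1)), ((1, 1), (4, 0)), ((2, 0), (5, 1)), ((1, 0), (5, 2)), ((1, 2), (5,
  0)), ((0, 0), (5, 1)), ((0, 1), (3, 0)), ((0, 1), (1, 1)), ((0, 1), (3, 2)), ((0, 1), (5, 1)),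
  ((0, 2), (5, 1)), ((1, 0), (2, 0)), ((1, 2), (2, 2))]

theorem valid_6_3 : validPairs 6 3 prs_6_3 = true := by decide +kernel

theorem full_6_3 : full 6 3 3 4 prs_6_3 = true := by decide +kernel

def prs_7_3 : List ((ℕ × ℕ) × (ℕ × ℕ)) :=
  [((0, 0), (0, 2)), ((2, 0), (3, 1)), ((4, 1), (5, 0)), ((3, 0), (4, 1)), ((0, 1), (6, 2)), ((0,
  1), (1, 2)), ((0, 1), (6, 0)), ((4, 1), (5, 2)), ((2, 2), (3, 1)), ((0, 1), (1, 0)), ((3, 1),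
  (4, 2)), ((1, 1), (2, 2)), ((5, 0), (6, 1)), ((0, 0), (6, 1)), ((5, 2), (6, 1)), ((5, 1), (6,
  0)), ((1, 1), (2, 0)), ((0, 2), (6, 1)), ((3, 1), (4, 0)), ((0, 1), (6, 1)), ((3, 2), (4, 1)),
  ((0, 1), (1, 1)), ((5, 1), (6, 1)), ((1, 1), (2, 1)), ((2, 1), (3, 1)), ((4, 1), (5, 1)), ((4,
  0), (5, 1)), ((5, 1), (6, 2)), ((4, 2), (5, 1)), ((3, 1), (4, 1)), ((0, 0), (1, 1)), ((0, 2),
  (1, 1)), ((1, 0), (2, 1)), ((1, 2), (2, 1)), ((2, 1), (3, 0)), ((2, 1), (3, 2)), ((2, 0), (5,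
  2)), ((2, 2), (5, 0)), ((0, 0), (3, 2)), ((0, 0), (4, 2)), ((1, 0), (5, 2)), ((0, 2), (3, 0)),
  ((1, 2), (5, 0)), ((0, 2), (4, 0)), ((2, 0), (6, 2)), ((2, 2), (6, 0)), ((1, 0), (4, 2)), ((1,
  2), (4, 0)), ((3, 0), (6, 2)), ((3, 2), (6, 0)), ((1, 0), (1, 2)), ((2, 0), (2, 2)), ((3, 0),
  (3, 2)), ((4, 0), (4, 2)), ((5, 0), (5, 2)), ((6, 0), (6, 2)), ((0, 1), (2, 1)), ((0, 1), (5,
  1)), ((1, 1), (3, 1)), ((1, 1), (6, 1)), ((2, 1), (4, 1)), ((3, 1), (5, 1)), ((4, 1), (6, 1)),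
  ((0, 0), (3, 1)), ((0, 0), (4, 1)), ((0, 1), (3, 0)), ((0, 1), (4, 0)), ((1, 0), (4, 1)), ((1,
  0), (5, 1)), ((1, 1), (4, 0)), ((1, 1), (5, 0)), ((2, 0), (5, 1)), ((2, 0), (6, 1)), ((2, 1),
  (5, 0)), ((2, 1), (6, 0)), ((3, 0), (6, 1)), ((3, 1), (6, 0)), ((0, 2), (1, 2)), ((0, 2), (6,
  2)), ((1, 2), (2, 2)), ((2, 2), (3, 2)), ((3, 2), (4, 2)), ((4, 2), (5, 2)), ((5, 2), (6, 2)),
  ((0, 0), (0, 1)), ((0, 0), (1, 0)), ((0, 0), (6, 0)), ((0, 1), (2, 2)), ((0, 1), (3, 2)), ((0,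
  1), (4, 2)), ((0, 1), (5, 2)), ((0, 2), (2, 1)), ((0, 2), (3, 1)), ((0, 2), (4, 1)), ((0, 2),
  (5, 1)), ((1, 1), (5, 2)), ((1, 1), (6, 2)), ((1, 2), (5, 1)), ((1, 2), (6, 1)), ((2, 0), (3,
  0)), ((2, 1), (6, 2)), ((2, 2), (6, 1)), ((3, 0), (3, 1)), ((3, 0), (4, 0)), ((0, 1), (2, 0)),
  ((1, 0), (3, 1))]

theorem valid_7_3 : validPairs 7 3 prs_7_3 = true := by decide +kernel

theorem full_7_3 : full 7 3 3 4 prs_7_3 = true := by decide +kernel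

def prs_4_4 : List ((ℕ × ℕ) × (ℕ × ℕ)) :=
  [((0, 1), (1, 2)), ((0, 2), (2, 2)), ((0, 2), (3, 1)), ((1, 0), (3, 3)), ((2, 1), (3, 2)), ((1,
  1), (2, 2)), ((1, 1), (3, 1)), ((1, 3), (3, 0)), ((0, 3), (3, 2)), ((0, 1), (3, 0)), ((1, 2),
  (2, 3)), ((1, 0), (2, 1)), ((0, 0), (1, 1)), ((0, 2), (1, 3)), ((2, 0), (3, 1)), ((2, 2), (3,
  3)), ((0, 1), (2, 2)), ((0, 1), (1, 1)), ((0, 1), (3, 1)), ((0, 1), (0, 3)), ((0, 0), (0, 2)),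
  ((0, 1), (2, 0)), ((0, 1), (0, 2)), ((0, 2), (2, 3)), ((2, 0), (2, 2)), ((0, 0), (0, 1)), ((2,
  1), (2, 3)), ((0, 3), (2, 1)), ((0, 2), (0, 3)), ((2, 2), (2, 3)), ((0, 1), (3, 2)), ((1, 2),
  (2, 1)), ((2, 2), (3, 1)), ((0, 0), (3, 1))]

theorem valid_4_4 : validPairs 4 4 prs_4_4 = true := by decide +kernel

theorem full_4_4 : full 4 4 3 4 prs_4_4 = true := by decide +kernel

def prs_5_4 : List ((ℕ × ℕ) × (ℕ × ℕ)) :=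
  [((0, 1), (1, 2)), ((2, 1), (3, 2)), ((0, 2), (4, 1)), ((1, 1), (2, 2)), ((3, 1), (4, 2)), ((0,
  1), (4, 2)), ((0, 2), (1, 1)), ((1, 2), (2, 1)), ((2, 2), (3, 1)), ((3, 2), (4, 1)), ((0, 1),
  (1, 1)), ((2, 2), (3, 2)), ((0, 1), (4, 1)), ((1, 1), (2, 1)), ((3, 2), (4, 2)), ((0, 1), (0,
  2)), ((2, 1), (2, 2)), ((3, 1), (3, 2)), ((0, 0), (0, 2)), ((3, 1), (3, 3)), ((1, 3), (2, 2)),
  ((3, 0), (4, 1)), ((3, 2), (4, 3)), ((0, 1), (0, 3)), ((1, 0), (2, 1)), ((1, 2), (2, 3)), ((2,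
  0), (2, 2)), ((3, 1), (4, 0)), ((2, 0), (3, 1)), ((0, 3), (1, 2)), ((2, 2), (3, 3)), ((0, 0),
  (4, 1)), ((2, 1), (2, 3)), ((0, 2), (4, 3)), ((0, 1), (1, 0)), ((1, 2), (4, 1)), ((2, 1), (3,
  0)), ((0, 2), (1, 3)), ((3, 0), (3, 2)), ((1, 0), (1, 2)), ((4, 1), (4, 3)), ((1, 1), (2, 0)),
  ((0, 2), (3, 1)), ((0, 1), (4, 0)), ((0, 3), (4, 2)), ((3, 3), (4, 2)), ((0, 0), (1, 1)), ((1,
  1), (1, 3)), ((4, 0), (4, 2)), ((2, 3), (3, 2)), ((0, 2), (4, 2)), ((0, 2), (1, 2)), ((3, 1),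
  (4, 1)), ((1, 2), (2, 2)), ((2, 1), (3, 1)), ((1, 1), (1, 2)), ((4, 1), (4, 2)), ((0, 1), (2,
  2)), ((0, 1), (3, 2)), ((0, 2), (2, 1)), ((1, 1), (3, 2)), ((1, 1), (4, 2)), ((1, 2), (3, 1)),
  ((2, 1), (4, 2)), ((2, 2), (4, 1)), ((0, 0), (0, 1)), ((0, 2), (0, 3)), ((2, 0), (2, 1)), ((2,
  2), (2, 3)), ((0, 0), (2, 1)), ((0, 0), (3, 1)), ((0, 1), (2, 0)), ((0, 1), (3, 0)), ((0, 2),
  (2, 3)), ((0, 2), (3, 3)), ((0, 3), (2, 2)), ((0, 3), (3, 2)), ((1, 0), (3, 1)), ((1, 0), (4,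
  1)), ((1, 1), (3, 0)), ((1, 1), (4, 0)), ((1, 2), (3, 3)), ((1, 2), (4, 3)), ((1, 3), (3, 2)),
  ((1, 3), (4, 2)), ((2, 0), (4, 1)), ((2, 1), (4, 0)), ((2, 2), (4, 3)), ((2, 3), (4, 2)), ((3,
  0), (3, 1)), ((3, 2), (3, 3)), ((1, 0), (1, 1)), ((1, 2), (1, 3)), ((4, 0), (4, 1)), ((4, 2),
  (4, 3))]

theorem valid_5_4 : validPairs 5 4 prs_5_4 = true := by decide +kernel

theorem full_5_4 : full 5 4 3 4 prs_5_4 = true := by decide +kernel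

def prs_6_4 : List ((ℕ × ℕ) × (ℕ × ℕ)) :=
  [((0, 1), (1, 2)), ((2, 1), (3, 2)), ((4, 1), (5, 2)), ((0, 2), (5, 1)), ((1, 1), (2, 2)), ((3,
  1), (4, 2)), ((0, 1), (2, 1)), ((1, 1), (3, 1)), ((1, 2), (5, 2)), ((1, 3), (2, 2)), ((3, 0),
  (4, 1)), ((1, 0), (2, 1)), ((1, 2), (2, 3)), ((0, 1), (5, 0)), ((0, 3), (5, 2)), ((0, 3), (1,
  2)), ((2, 0), (3, 1)), ((0, 0), (1, 1)), ((4, 0), (5, 1)), ((1, 2), (4, 3)), ((0, 2), (1, 3)),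
  ((1, 1), (2, 1)), ((0, 2), (5, 2)), ((0, 2), (1, 2)), ((1, 1), (1, 2)), ((0, 2), (5, 3)), ((1,
  1), (1, 3)), ((3, 1), (5, 1)), ((0, 1), (4, 1)), ((1, 0), (1, 2)), ((2, 2), (4, 2)), ((4, 1),
  (5, 1)), ((3, 2), (4, 2)), ((2, 2), (3, 2)), ((2, 2), (5, 2)), ((0, 1), (3, 1)), ((0, 3), (4,
  1)), ((1, 0), (5, 2)), ((0, 0), (2, 2)), ((0, 2), (4, 0)), ((0, 0), (4, 2)), ((1, 1), (5, 2)),
  ((0, 1), (3, 2)), ((2, 2), (5, 1)), ((5, 1), (5, 2)), ((0, 2), (3, 1)), ((2, 1), (5, 2)), ((1,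
  0), (4, 1)), ((1, 2), (4, 1)), ((0, 2), (2, 0)), ((1, 2), (5, 0)), ((3, 0), (3, 2)), ((2, 2),
  (4, 1)), ((3, 1), (5, 2)), ((0, 0), (0, 2)), ((0, 0), (5, 2)), ((4, 1), (4, 3)), ((0, 0), (1,
  2)), ((0, 2), (0, 3)), ((0, 1), (2, 3)), ((0, 2), (1, 1)), ((1, 3), (5, 1)), ((0, 0), (3, 3)),
  ((0, 1), (5, 2)), ((0, 3), (2, 1)), ((1, 1), (4, 0)), ((1, 2), (2, 1)), ((1, 3), (4, 2)), ((1,
  0), (3, 2)), ((1, 2), (2, 0))]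

theorem valid_6_4 : validPairs 6 4 prs_6_4 = true := by decide +kernel

theorem full_6_4 : full 6 4 3 4 prs_6_4 = true := by decide +kernel

def prs_6_5 : List ((ℕ × ℕ) × (ℕ × ℕ)) :=
  [((0, 1), (1, 2)), ((4, 2), (5, 3)), ((0, 1), (5, 2)), ((3, 2), (4, 3)), ((4, 2), (5, 1)), ((0,
  3), (5, 2)), ((0, 2), (1, 3)), ((3, 1), (4, 2)), ((0, 2), (5, 1)), ((1, 2), (5, 2)), ((4, 3),
  (5, 2)), ((0, 2), (2, 2)), ((0, 4), (3, 0)), ((1, 2), (3, 2)), ((0, 2), (5, 3)), ((4, 1), (5,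
  2)), ((1, 0), (4, 4)), ((0, 0), (5, 1)), ((0, 3), (5, 4)), ((2, 4), (5, 0)), ((0, 3), (1, 4)),
  ((0, 0), (1, 1)), ((4, 3), (5, 4)), ((4, 0), (5, 1)), ((0, 1), (5, 0)), ((4, 4), (5, 3)), ((0,
  4), (5, 3)), ((4, 1), (5, 0)), ((3, 0), (4, 1)), ((1, 2), (2, 2)), ((0, 2), (1, 2)), ((3, 3),
  (4, 4)), ((2, 2), (3, 2)), ((2, 2), (4, 2)), ((0, 2), (4, 2)), ((3, 2), (5, 2)), ((4, 1), (4,
  3)), ((0, 2), (5, 2)), ((3, 2), (4, 2)), ((4, 2), (5, 2)), ((0, 2), (3, 2)), ((0, 3), (4, 1)),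
  ((1, 3), (5, 1)), ((3, 1), (5, 3)), ((0, 1), (4, 3)), ((1, 1), (5, 3)), ((0, 1), (2, 3)), ((1,
  2), (4, 2)), ((2, 2), (5, 2)), ((4, 1), (4, 2)), ((1, 2), (4, 1)), ((4, 2), (4, 3)), ((1, 2),
  (4, 3)), ((0, 3), (3, 2)), ((4, 0), (4, 2)), ((0, 2), (3, 3)), ((2, 2), (5, 3)), ((2, 3), (5,
  2)), ((1, 2), (1, 3)), ((0, 1), (0, 2)), ((0, 1), (0, 3)), ((5, 2), (5, 4)), ((0, 3), (1, 2)),
  ((0, 0), (0, 2)), ((2, 3), (3, 1)), ((2, 1), (2, 3)), ((3, 2), (3, 4)), ((3, 2), (4, 1)), ((2,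
  0), (2, 2)), ((3, 3), (4, 2)), ((4, 3), (5, 1)), ((0, 1), (1, 3)), ((0, 2), (1, 1)), ((3, 1),
  (4, 3)), ((0, 4), (2, 2)), ((0, 0), (1, 3)), ((0, 3), (1, 1)), ((0, 3), (5, 1)), ((1, 1), (2,
  3)), ((1, 1), (4, 2)), ((0, 0), (4, 2)), ((0, 2), (4, 0)), ((1, 4), (4, 3)), ((2, 3), (5, 3)),
  ((0, 0), (3, 1)), ((0, 0), (5, 3)), ((0, 4), (4, 2)), ((1, 4), (5, 2)), ((3, 3), (4, 1)), ((0,
  0), (2, 2)), ((0, 1), (1, 4)), ((0, 1), (3, 0)), ((0, 1), (5, 3)), ((0, 1), (5, 4)), ((0, 2),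
  (0, 4)), ((1, 2), (5, 4)), ((1, 3), (2, 0)), ((1, 3), (2, 1)), ((1, 4), (2, 1)), ((2, 0), (3,
  3)), ((2, 0), (5, 1)), ((2, 1), (3, 4)), ((2, 1), (5, 0)), ((3, 3), (4, 0)), ((3, 4), (4, 1)),
  ((4, 0), (5, 3)), ((4, 1), (5, 3)), ((4, 1), (5, 4)), ((0, 1), (1, 0)), ((0, 1), (3, 1)), ((0,
  2), (4, 4)), ((1, 2), (5, 0))]

theorem valid_6_5 : validPairs 6 5 prs_6_5 = true := by decide +kernel

theorem full_6_5 : full 6 5 3 4 prs_6_5 = true := by decide +kernel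

end Pool.Agent.H9.MDim
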