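import Pool.Agent.H9.MDim.Graph

/-! Infrastructure for upper and trivial lower bounds. -/

set_option linter.unusedSimpArgs false
set_option linter.unusedVariables false

namespace Pool.Agent.H9.MDim

open SimpleGraph

theorem ms2 {a b a' b' : ℤ} (h : ({a, b} : Multiset ℤ) = {a', b'}) :
    (a = a' ∧ b = b') ∨ (a = b' ∧ b = a') := by
  have h1 : a ∈ ({a', b'} : Multiset ℤ) := by rw [← h]; simp
  simp only [Multiset.insert_eq_cons, Multiset.mem_cons, Multiset.mem_singleton] at h1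
  rcases h1 with rfl | rfl
  · left
    refine ⟨rfl, ?_⟩
    simpa [Multiset.insert_eq_cons] using h
  · right
    refine ⟨rfl, ?_⟩
    have h2 : ({a, b} : Multiset ℤ) = {a, a'} := by
      rw [h]; exact Multiset.pair_comm a' a
    simpa [Multiset.insert_eq_cons] using h2

theorem ms3 {a b c a' b' c' : ℤ} (h : ({a, b, c} : Multiset ℤ) = {a', b', c'}) :
    (a = a' ∧ ((b = b' ∧ c = c') ∨ (b = c' ∧ c = b'))) ∨
    (a = b' ∧ ((b = a' ∧ c = c') ∨ (b = c' ∧ c = a'))) ∨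
    (a = c' ∧ ((b = a' ∧ c = b') ∨ (b = b' ∧ c = a'))) := by
  have h1 : a ∈ ({a', b', c'} : Multiset ℤ) := by rw [← h]; simp
  simp only [Multiset.insert_eq_cons, Multiset.mem_cons, Multiset.mem_singleton] at h1
  rcases h1 with rfl | rfl | rfl
  · left
    refine ⟨rfl, ms2 ?_⟩
    simpa [Multiset.insert_eq_cons] using h
  · right; left
    refine ⟨rfl, ms2 ?_⟩
    have h2 : ({a, b, c} : Multiset ℤ) = {a, a', c'} := by
      rw [h]; exact ms_swap12 _ _ _
    simpa [Multiset.insert_eq_cons] using h2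
  · right; right
    refine ⟨rfl, ms2 ?_⟩
    have h2 : ({a, b, c} : Multiset ℤ) = {a, a', b'} := by
      rw [h, ms_swap23]; exact ms_swap12 _ _ _
    simpa [Multiset.insert_eq_cons] using h2

theorem ms4 {a b c d a' b' c' d' : ℤ}
    (h : ({a, b, c, d} : Multiset ℤ) = {a', b', c', d'}) :
    (a = a' ∧ ((b = b' ∧ ((c = c' ∧ d = d') ∨ (c = d' ∧ d = c'))) ∨
      (b = c' ∧ ((c = b' ∧ d = d') ∨ (c = d' ∧ d = b'))) ∨
      (b = d' ∧ ((c = b' ∧ d = c') ∨ (c = c' ∧ d = b'))))) ∨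
    (a = b' ∧ ((b = a' ∧ ((c = c' ∧ d = d') ∨ (c = d' ∧ d = c'))) ∨
      (b = c' ∧ ((c = a' ∧ d = d') ∨ (c = d' ∧ d = a'))) ∨
      (b = d' ∧ ((c = a' ∧ d = c') ∨ (c = c' ∧ d = a'))))) ∨
    (a = c' ∧ ((b = a' ∧ ((c = b' ∧ d = d') ∨ (c = d' ∧ d = b'))) ∨
      (b = b' ∧ ((c = a' ∧ d = d') ∨ (c = d' ∧ d = a'))) ∨
      (b = d' ∧ ((c = a' ∧ d = b') ∨ (c = b' ∧ d = a'))))) ∨
    (a = d' ∧ ((b = a' ∧ ((c = b' ∧ d = c') ∨ (c = c' ∧ d = b'))) ∨
      (b = b' ∧ ((c = a' ∧ d = c') ∨ (c = c' ∧ d = a'))) ∨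
      (b = c' ∧ ((c = a' ∧ d = b') ∨ (c = b' ∧ d = a'))))) := by
  have h1 : a ∈ ({a', b', c', d'} : Multiset ℤ) := by rw [← h]; simp
  simp only [Multiset.insert_eq_cons, Multiset.mem_cons, Multiset.mem_singleton] at h1
  have s12 : ∀ p q r s : ℤ, ({p, q, r, s} : Multiset ℤ) = {q, p, r, s} := by
    intro p q r s
    show p ::ₘ q ::ₘ r ::ₘ s ::ₘ 0 = q ::ₘ p ::ₘ r ::ₘ s ::ₘ 0
    rw [Multiset.cons_swap p q]
  have s23 : ∀ p q r s : ℤ, ({p, q, r, s} : Multiset ℤ) = {p, r, q, s} := by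
    intro p q r s
    show p ::ₘ q ::ₘ r ::ₘ s ::ₘ 0 = p ::ₘ r ::ₘ q ::ₘ s ::ₘ 0
    rw [Multiset.cons_swap q r]
  have s34 : ∀ p q r s : ℤ, ({p, q, r, s} : Multiset ℤ) = {p, q, s, r} := by
    intro p q r s
    show p ::ₘ q ::ₘ r ::ₘ s ::ₘ 0 = p ::ₘ q ::ₘ s ::ₘ r ::ₘ 0
    rw [Multiset.cons_swap r s]
  have cancel : ∀ p q r s q' r' s' : ℤ, ({p, q, r, s} : Multiset ℤ) = {p, q', r', s'} →
      ({q, r, s} : Multiset ℤ) = {q', r', s'} := by
    intro p q r s q' r' s' h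
    simpa [Multiset.insert_eq_cons] using h
  rcases h1 with rfl | rfl | rfl | rfl
  · exact Or.inl ⟨rfl, ms3 (cancel _ _ _ _ _ _ _ h)⟩
  · rw [s12 a'] at h
    exact Or.inr (Or.inl ⟨rfl, ms3 (cancel _ _ _ _ _ _ _ h)⟩)
  · rw [s23 a', s12 a'] at h
    exact Or.inr (Or.inr (Or.inl ⟨rfl, ms3 (cancel _ _ _ _ _ _ _ h)⟩))
  · rw [s34 a', s23 a', s12 a'] at h
    exact Or.inr (Or.inr (Or.inr ⟨rfl, ms3 (cancel _ _ _ _ _ _ _ h)⟩))

theorem mdim_le_of_resolving {V : Type*} (G : SimpleGraph V) (S : Finset V) (k : ℕ)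
    (hS : IsMultisetResolving G S) (hk : S.card ≤ k) : mdim G ≤ k := by
  unfold mdim
  exact (iInf₂_le S hS).trans (by exact_mod_cast hk)

theorem le_mdim_of {V : Type*} (G : SimpleGraph V) (k : ℕ)
    (h : ∀ S : Finset V, IsMultisetResolving G S → k ≤ S.card) : (k : ℕ∞) ≤ mdim G := by
  unfold mdim
  exact le_iInf₂ fun S hS => by exact_mod_cast h S hS

/-- representative of a column in the window `[w, w + n)` -/
def rep (n : ℕ) (w : ℤ) (u : Fin n) : ℤ := if w ≤ (u.val : ℤ) then (u.val : ℤ) else u.val + n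

theorem rep_D {n : ℕ} (w : ℤ) (u : Fin n) (y a b : ℤ) :
    D n (rep n w u) y a b = D n u.val y a b := by
  unfold rep D
  split_ifs with h
  · rfl
  · congr 1
    apply cd_congr
    exact ⟨1, by ring⟩

theorem dist_rep {n m : ℕ} (hn : 3 ≤ n) (w : ℤ) (u p : Fin n × Fin m) :
    (((cycleGraph n □ pathGraph m).dist u p : ℕ) : ℤ) =
      D n (rep n w u.1) u.2.val p.1.val p.2.val := by
  rw [dist_cylinder hn, cyl_eq_D (by exact Fin.isLt _) (by exact Fin.isLt _), rep_D]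

theorem mdim_le_three {n m : ℕ} (hn : 3 ≤ n) (w : ℤ) (hw0 : 0 ≤ w) (hw1 : w ≤ n)
    (a1 b1 a2 b2 a3 b3 : ℕ) (ha1 : a1 < n) (ha2 : a2 < n) (ha3 : a3 < n)
    (hb1 : b1 < m) (hb2 : b2 < m) (hb3 : b3 < m)
    (h12 : ¬ (a1 = a2 ∧ b1 = b2)) (h13 : ¬ (a1 = a3 ∧ b1 = b3)) (h23 : ¬ (a2 = a3 ∧ b2 = b3))
    (H : ∀ x y x' y' : ℤ, w ≤ x → x < w + n → w ≤ x' → x' < w + n → 0 ≤ y → y < m → 0 ≤ y' →
      y' < m → ({D n x y a1 b1, D n x y a2 b2, D n x y a3 b3} : Multiset ℤ) =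
      {D n x' y' a1 b1, D n x' y' a2 b2, D n x' y' a3 b3} → x = x' ∧ y = y') :
    mdim (cycleGraph n □ pathGraph m) ≤ 3 := by
  let p1 : Fin n × Fin m := (⟨a1, ha1⟩, ⟨b1, hb1⟩)
  let p2 : Fin n × Fin m := (⟨a2, ha2⟩, ⟨b2, hb2⟩)
  let p3 : Fin n × Fin m := (⟨a3, ha3⟩, ⟨b3, hb3⟩)
  have e12 : p1 ≠ p2 := by
    intro h; apply h12
    exact ⟨congrArg (fun p => p.1.val) h, congrArg (fun p => p.2.val) h⟩
  have e13 : p1 ≠ p3 := by
    intro h; apply h13
    exact ⟨congrArg (fun p => p.1.val) h, congrArg (fun p => p.2.val) h⟩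
  have e23 : p2 ≠ p3 := by
    intro h; apply h23
    exact ⟨congrArg (fun p => p.1.val) h, congrArg (fun p => p.2.val) h⟩
  refine mdim_le_of_resolving _ {p1, p2, p3} 3 ?_ Finset.card_le_three
  intro u v huv heq
  apply huv
  have h2 : Multiset.map (fun k : ℕ => (k : ℤ)) (multisetRep (cycleGraph n □ pathGraph m)
      {p1, p2, p3} u) = Multiset.map (fun k : ℕ => (k : ℤ)) (multisetRep
      (cycleGraph n □ pathGraph m) {p1, p2, p3} v) := by rw [heq]
  unfold multisetRep at h2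
  rw [Multiset.map_map, Multiset.map_map] at h2
  rw [Finset.insert_val_of_notMem (by simp [e12, e13]),
    Finset.insert_val_of_notMem (by simp [e23]), Finset.singleton_val] at h2
  simp only [Multiset.map_cons, Multiset.map_singleton, Function.comp] at h2
  rw [dist_rep hn w, dist_rep hn w, dist_rep hn w, dist_rep hn w, dist_rep hn w,
    dist_rep hn w] at h2
  have hu1 := u.1.isLt
  have hv1 := v.1.isLt
  have hu2 := u.2.isLt
  have hv2 := v.2.isLt
  have := H (rep n w u.1) u.2.val (rep n w v.1) v.2.val (by unfold rep; split_ifs <;> omega)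
    (by unfold rep; split_ifs <;> omega) (by unfold rep; split_ifs <;> omega)
    (by unfold rep; split_ifs <;> omega) (by omega) (by omega) (by omega) (by omega) h2
  have h3 := this.1
  unfold rep at h3
  apply Prod.ext
  · apply Fin.ext
    split_ifs at h3 <;> omega
  · apply Fin.ext
    omega

theorem mdim_le_four {n m : ℕ} (hn : 3 ≤ n) (w : ℤ) (hw0 : 0 ≤ w) (hw1 : w ≤ n)
    (a1 b1 a2 b2 a3 b3 a4 b4 : ℕ) (ha1 : a1 < n) (ha2 : a2 < n) (ha3 : a3 < n) (ha4 : a4 < n)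
    (hb1 : b1 < m) (hb2 : b2 < m) (hb3 : b3 < m) (hb4 : b4 < m)
    (h12 : ¬ (a1 = a2 ∧ b1 = b2)) (h13 : ¬ (a1 = a3 ∧ b1 = b3)) (h14 : ¬ (a1 = a4 ∧ b1 = b4))
    (h23 : ¬ (a2 = a3 ∧ b2 = b3)) (h24 : ¬ (a2 = a4 ∧ b2 = b4)) (h34 : ¬ (a3 = a4 ∧ b3 = b4))
    (H : ∀ x y x' y' : ℤ, w ≤ x → x < w + n → w ≤ x' → x' < w + n → 0 ≤ y → y < m → 0 ≤ y' →
      y' < m → ({D n x y a1 b1, D n x y a2 b2, D n x y a3 b3, D n x y a4 b4} : Multiset ℤ) =
      {D n x' y' a1 b1, D n x' y' a2 b2, D n x' y' a3 b3, D n x' y' a4 b4} → x = x' ∧ y = y') :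
    mdim (cycleGraph n □ pathGraph m) ≤ 4 := by
  let p1 : Fin n × Fin m := (⟨a1, ha1⟩, ⟨b1, hb1⟩)
  let p2 : Fin n × Fin m := (⟨a2, ha2⟩, ⟨b2, hb2⟩)
  let p3 : Fin n × Fin m := (⟨a3, ha3⟩, ⟨b3, hb3⟩)
  let p4 : Fin n × Fin m := (⟨a4, ha4⟩, ⟨b4, hb4⟩)
  have e12 : p1 ≠ p2 := by
    intro h; apply h12
    exact ⟨congrArg (fun p => p.1.val) h, congrArg (fun p => p.2.val) h⟩
  have e13 : p1 ≠ p3 := by
    intro h; apply h13
    exact ⟨congrArg (fun p => p.1.val) h, congrArg (fun p => p.2.val) h⟩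
  have e14 : p1 ≠ p4 := by
    intro h; apply h14
    exact ⟨congrArg (fun p => p.1.val) h, congrArg (fun p => p.2.val) h⟩
  have e23 : p2 ≠ p3 := by
    intro h; apply h23
    exact ⟨congrArg (fun p => p.1.val) h, congrArg (fun p => p.2.val) h⟩
  have e24 : p2 ≠ p4 := by
    intro h; apply h24
    exact ⟨congrArg (fun p => p.1.val) h, congrArg (fun p => p.2.val) h⟩
  have e34 : p3 ≠ p4 := by
    intro h; apply h34
    exact ⟨congrArg (fun p => p.1.val) h, congrArg (fun p => p.2.val) h⟩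
  refine mdim_le_of_resolving _ {p1, p2, p3, p4} 4 ?_ Finset.card_le_four
  intro u v huv heq
  apply huv
  have h2 : Multiset.map (fun k : ℕ => (k : ℤ)) (multisetRep (cycleGraph n □ pathGraph m)
      {p1, p2, p3, p4} u) = Multiset.map (fun k : ℕ => (k : ℤ)) (multisetRep
      (cycleGraph n □ pathGraph m) {p1, p2, p3, p4} v) := by rw [heq]
  unfold multisetRep at h2
  rw [Multiset.map_map, Multiset.map_map] at h2
  rw [Finset.insert_val_of_notMem (by simp [e12, e13, e14]),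
    Finset.insert_val_of_notMem (by simp [e23, e24]),
    Finset.insert_val_of_notMem (by simp [e34]), Finset.singleton_val] at h2
  simp only [Multiset.map_cons, Multiset.map_singleton, Function.comp] at h2
  rw [dist_rep hn w, dist_rep hn w, dist_rep hn w, dist_rep hn w, dist_rep hn w,
    dist_rep hn w, dist_rep hn w, dist_rep hn w] at h2
  have hu1 := u.1.isLt
  have hv1 := v.1.isLt
  have hu2 := u.2.isLt
  have hv2 := v.2.isLt
  have := H (rep n w u.1) u.2.val (rep n w v.1) v.2.val (by unfold rep; split_ifs <;> omega)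
    (by unfold rep; split_ifs <;> omega) (by unfold rep; split_ifs <;> omega)
    (by unfold rep; split_ifs <;> omega) (by omega) (by omega) (by omega) (by omega) h2
  have h3 := this.1
  unfold rep at h3
  apply Prod.ext
  · apply Fin.ext
    split_ifs at h3 <;> omega
  · apply Fin.ext
    omega

/-- no set with at most two elements resolves -/
theorem three_le_card {n m : ℕ} (hn : 4 ≤ n) (hm : 1 ≤ m) (S : Finset (Fin n × Fin m))
    (hS : IsMultisetResolving (cycleGraph n □ pathGraph m) S) : 3 ≤ S.card := by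
  by_contra hcon
  have hc : S.card = 0 ∨ S.card = 1 ∨ S.card = 2 := by omega
  have hne : vtx n m (by omega) 1 0 (by omega) (by omega) ≠
      vtx n m (by omega) (-1) 0 (by omega) (by omega) := by
    apply vtx_ne
    intro _
    exact not_dvd_small (by omega) (by omega) (by omega)
  rcases hc with hc | hc | hc
  · rw [Finset.card_eq_zero] at hc
    subst hc
    exact hS _ _ hne (by simp [multisetRep])
  · obtain ⟨p, rfl⟩ := Finset.card_eq_one.mp hc
    have hp2 := p.2.isLt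
    have hne' : vtx n m (by omega) ((p.1.val : ℤ) + 1) p.2.val (by omega) (by omega) ≠
        vtx n m (by omega) ((p.1.val : ℤ) - 1) p.2.val (by omega) (by omega) := by
      apply vtx_ne
      intro _
      exact not_dvd_small (by omega) (by omega) (by omega)
    apply hS _ _ hne'
    apply multisetRep_cast_inj
    rw [Finset.singleton_val, Multiset.map_singleton, Multiset.map_singleton,
      dist_vtx (by omega), dist_vtx (by omega)]
    congr 1
    unfold D
    rw [cd_a (by omega) (by omega) (by omega), cd_b (by omega) (by omega) (by omega)]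
    omega
  · obtain ⟨p, q, hpq, rfl⟩ := Finset.card_eq_two.mp hc
    apply hS p q hpq
    unfold multisetRep
    rw [Finset.insert_val_of_notMem (by simp [hpq]), Finset.singleton_val]
    simp only [Multiset.map_cons, Multiset.map_singleton, SimpleGraph.dist_self]
    rw [SimpleGraph.dist_comm (u := q) (v := p)]
    exact Multiset.cons_swap _ _ _

end Pool.Agent.H9.MDim
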