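import Pool.Agent.H9.MDim.Check
import Pool.Agent.H9.MDim.Upper

set_option linter.unusedSimpArgs false
set_option linter.unusedVariables false

namespace Pool.Agent.H9.MDim

def prs_4_1 : List ((ℕ × ℕ) × (ℕ × ℕ)) :=
  [((0, 0), (1, 0)), ((0, 0), (2, 0)), ((0, 0), (3, 0)), ((1, 0), (2, 0)), ((1, 0), (3, 0)), ((2,
  0), (3, 0))]

theorem valid_4_1 : validPairs 4 1 prs_4_1 = true := by decide +kernel

theorem full_4_1_3 : full 4 1 4 3 prs_4_1 = true := by decide +kernel

theorem full_4_1_4 : full 4 1 4 4 prs_4_1 = true := by decide +kernel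

theorem none_4_1 (S : Finset (Fin 4 × Fin 1)) :
    ¬ IsMultisetResolving (SimpleGraph.boxProd (SimpleGraph.cycleGraph 4) (SimpleGraph.pathGraph 1)) S := by
  intro hR
  have h1 := three_le_card (by norm_num) (by norm_num) S hR
  have h2 : S.card ≤ 4 := by
    have := Finset.card_le_univ S
    simpa using this
  obtain ⟨k, hk⟩ : ∃ k, S.card = k := ⟨_, rfl⟩
  rw [hk] at h1 h2
  interval_cases k
  · exact not_resolving_of_full (b := 4) (by norm_num) (by norm_num) (by norm_num) (by norm_num)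
      full_4_1_3 valid_4_1 S hk hR
  · exact not_resolving_of_full (b := 4) (by norm_num) (by norm_num) (by norm_num) (by norm_num)
      full_4_1_4 valid_4_1 S hk hR

def prs_5_1 : List ((ℕ × ℕ) × (ℕ × ℕ)) :=
  [((0, 0), (1, 0)), ((0, 0), (2, 0)), ((0, 0), (3, 0)), ((0, 0), (4, 0)), ((1, 0), (2, 0)), ((1,
  0), (3, 0)), ((1, 0), (4, 0)), ((2, 0), (3, 0)), ((2, 0), (4, 0)), ((3, 0), (4, 0))]

theorem valid_5_1 : validPairs 5 1 prs_5_1 = true := by decide +kernel

theorem full_5_1_3 : full 5 1 4 3 prs_5_1 = true := by decide +kernel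

theorem full_5_1_4 : full 5 1 4 4 prs_5_1 = true := by decide +kernel

theorem full_5_1_5 : full 5 1 4 5 prs_5_1 = true := by decide +kernel

theorem none_5_1 (S : Finset (Fin 5 × Fin 1)) :
    ¬ IsMultisetResolving (SimpleGraph.boxProd (SimpleGraph.cycleGraph 5) (SimpleGraph.pathGraph 1)) S := by
  intro hR
  have h1 := three_le_card (by norm_num) (by norm_num) S hR
  have h2 : S.card ≤ 5 := by
    have := Finset.card_le_univ S
    simpa using this
  obtain ⟨k, hk⟩ : ∃ k, S.card = k := ⟨_, rfl⟩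
  rw [hk] at h1 h2
  interval_cases k
  · exact not_resolving_of_full (b := 4) (by norm_num) (by norm_num) (by norm_num) (by norm_num)
      full_5_1_3 valid_5_1 S hk hR
  · exact not_resolving_of_full (b := 4) (by norm_num) (by norm_num) (by norm_num) (by norm_num)
      full_5_1_4 valid_5_1 S hk hR
  · exact not_resolving_of_full (b := 4) (by norm_num) (by norm_num) (by norm_num) (by norm_num)
      full_5_1_5 valid_5_1 S hk hR

def prs_4_2 : List ((ℕ × ℕ) × (ℕ × ℕ)) :=
  [((0, 0), (0, 1)), ((0, 0), (1, 0)), ((0, 0), (1, 1)), ((0, 0), (2, 0)), ((0, 0), (2, 1)), ((0,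
  0), (3, 0)), ((0, 0), (3, 1)), ((0, 1), (1, 0)), ((0, 1), (1, 1)), ((0, 1), (2, 0)), ((0, 1),
  (2, 1)), ((0, 1), (3, 0)), ((0, 1), (3, 1)), ((1, 0), (1, 1)), ((1, 0), (2, 0)), ((1, 0), (2,
  1)), ((1, 0), (3, 0)), ((1, 0), (3, 1)), ((1, 1), (2, 0)), ((1, 1), (2, 1)), ((1, 1), (3, 0)),
  ((1, 1), (3, 1)), ((2, 0), (2, 1)), ((2, 0), (3, 0)), ((2, 0), (3, 1)), ((2, 1), (3, 0)), ((2,
  1), (3, 1)), ((3, 0), (3, 1))]

theorem valid_4_2 : validPairs 4 2 prs_4_2 = true := by decide +kernel

theorem full_4_2_3 : full 4 2 4 3 prs_4_2 = true := by decide +kernel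

theorem full_4_2_4 : full 4 2 4 4 prs_4_2 = true := by decide +kernel

theorem full_4_2_5 : full 4 2 4 5 prs_4_2 = true := by decide +kernel

theorem full_4_2_6 : full 4 2 4 6 prs_4_2 = true := by decide +kernel

theorem full_4_2_7 : full 4 2 4 7 prs_4_2 = true := by decide +kernel

theorem full_4_2_8 : full 4 2 4 8 prs_4_2 = true := by decide +kernel

theorem none_4_2 (S : Finset (Fin 4 × Fin 2)) :
    ¬ IsMultisetResolving (SimpleGraph.boxProd (SimpleGraph.cycleGraph 4) (SimpleGraph.pathGraph 2)) S := by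
  intro hR
  have h1 := three_le_card (by norm_num) (by norm_num) S hR
  have h2 : S.card ≤ 8 := by
    have := Finset.card_le_univ S
    simpa using this
  obtain ⟨k, hk⟩ : ∃ k, S.card = k := ⟨_, rfl⟩
  rw [hk] at h1 h2
  interval_cases k
  · exact not_resolving_of_full (b := 4) (by norm_num) (by norm_num) (by norm_num) (by norm_num)
      full_4_2_3 valid_4_2 S hk hR
  · exact not_resolving_of_full (b := 4) (by norm_num) (by norm_num) (by norm_num) (by norm_num)
      full_4_2_4 valid_4_2 S hk hR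
  · exact not_resolving_of_full (b := 4) (by norm_num) (by norm_num) (by norm_num) (by norm_num)
      full_4_2_5 valid_4_2 S hk hR
  · exact not_resolving_of_full (b := 4) (by norm_num) (by norm_num) (by norm_num) (by norm_num)
      full_4_2_6 valid_4_2 S hk hR
  · exact not_resolving_of_full (b := 4) (by norm_num) (by norm_num) (by norm_num) (by norm_num)
      full_4_2_7 valid_4_2 S hk hR
  · exact not_resolving_of_full (b := 4) (by norm_num) (by norm_num) (by norm_num) (by norm_num)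
      full_4_2_8 valid_4_2 S hk hR

def prs_5_2 : List ((ℕ × ℕ) × (ℕ × ℕ)) :=
  [((0, 0), (0, 1)), ((0, 0), (1, 0)), ((0, 0), (1, 1)), ((0, 0), (2, 0)), ((0, 0), (2, 1)), ((0,
  0), (3, 0)), ((0, 0), (3, 1)), ((0, 0), (4, 0)), ((0, 0), (4, 1)), ((0, 1), (1, 0)), ((0, 1),
  (1, 1)), ((0, 1), (2, 0)), ((0, 1), (2, 1)), ((0, 1), (3, 0)), ((0, 1), (3, 1)), ((0, 1), (4,
  0)), ((0, 1), (4, 1)), ((1, 0), (1, 1)), ((1, 0), (2, 0)), ((1, 0), (2, 1)), ((1, 0), (3, 0)),
  ((1, 0), (3, 1)), ((1, 0), (4, 0)), ((1, 0), (4, 1)), ((1, 1), (2, 0)), ((1, 1), (2, 1)), ((1,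
  1), (3, 0)), ((1, 1), (3, 1)), ((1, 1), (4, 0)), ((1, 1), (4, 1)), ((2, 0), (2, 1)), ((2, 0),
  (3, 0)), ((2, 0), (3, 1)), ((2, 0), (4, 0)), ((2, 0), (4, 1)), ((2, 1), (3, 0)), ((2, 1), (3,
  1)), ((2, 1), (4, 0)), ((2, 1), (4, 1)), ((3, 0), (3, 1)), ((3, 0), (4, 0)), ((3, 0), (4, 1)),
  ((3, 1), (4, 0)), ((3, 1), (4, 1)), ((4, 0), (4, 1))]

theorem valid_5_2 : validPairs 5 2 prs_5_2 = true := by decide +kernel

theorem full_5_2_3 : full 5 2 4 3 prs_5_2 = true := by decide +kernel

theorem full_5_2_4 : full 5 2 4 4 prs_5_2 = true := by decide +kernel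

theorem full_5_2_5 : full 5 2 4 5 prs_5_2 = true := by decide +kernel

theorem full_5_2_6 : full 5 2 4 6 prs_5_2 = true := by decide +kernel

theorem full_5_2_7 : full 5 2 4 7 prs_5_2 = true := by decide +kernel

theorem full_5_2_8 : full 5 2 4 8 prs_5_2 = true := by decide +kernel

theorem full_5_2_9 : full 5 2 4 9 prs_5_2 = true := by decide +kernel

theorem full_5_2_10 : full 5 2 4 10 prs_5_2 = true := by decide +kernel

theorem none_5_2 (S : Finset (Fin 5 × Fin 2)) :
    ¬ IsMultisetResolving (SimpleGraph.boxProd (SimpleGraph.cycleGraph 5) (SimpleGraph.pathGraph 2)) S := by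
  intro hR
  have h1 := three_le_card (by norm_num) (by norm_num) S hR
  have h2 : S.card ≤ 10 := by
    have := Finset.card_le_univ S
    simpa using this
  obtain ⟨k, hk⟩ : ∃ k, S.card = k := ⟨_, rfl⟩
  rw [hk] at h1 h2
  interval_cases k
  · exact not_resolving_of_full (b := 4) (by norm_num) (by norm_num) (by norm_num) (by norm_num)
      full_5_2_3 valid_5_2 S hk hR
  · exact not_resolving_of_full (b := 4) (by norm_num) (by norm_num) (by norm_num) (by norm_num)
      full_5_2_4 valid_5_2 S hk hR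
  · exact not_resolving_of_full (b := 4) (by norm_num) (by norm_num) (by norm_num) (by norm_num)
      full_5_2_5 valid_5_2 S hk hR
  · exact not_resolving_of_full (b := 4) (by norm_num) (by norm_num) (by norm_num) (by norm_num)
      full_5_2_6 valid_5_2 S hk hR
  · exact not_resolving_of_full (b := 4) (by norm_num) (by norm_num) (by norm_num) (by norm_num)
      full_5_2_7 valid_5_2 S hk hR
  · exact not_resolving_of_full (b := 4) (by norm_num) (by norm_num) (by norm_num) (by norm_num)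
      full_5_2_8 valid_5_2 S hk hR
  · exact not_resolving_of_full (b := 4) (by norm_num) (by norm_num) (by norm_num) (by norm_num)
      full_5_2_9 valid_5_2 S hk hR
  · exact not_resolving_of_full (b := 4) (by norm_num) (by norm_num) (by norm_num) (by norm_num)
      full_5_2_10 valid_5_2 S hk hR

end Pool.Agent.H9.MDim
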