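import Pool.Agent.H9.MDim.Check

set_option linter.unusedSimpArgs false
set_option linter.unusedVariables false

namespace Pool.Agent.H9.MDim

theorem up_4_3 : mdim (SimpleGraph.boxProd (SimpleGraph.cycleGraph 4) (SimpleGraph.pathGraph 3)) ≤ (5 : ℕ) :=
  mdim_le_of_code (by norm_num) 3 [(0, 0), (1, 0), (2, 0), (0, 1), (1, 2)] (by decide)
    (by decide) (by decide +kernel)

theorem up_4_4 : mdim (SimpleGraph.boxProd (SimpleGraph.cycleGraph 4) (SimpleGraph.pathGraph 4)) ≤ (5 : ℕ) :=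
  mdim_le_of_code (by norm_num) 3 [(0, 0), (1, 0), (2, 0), (0, 1), (1, 2)] (by decide)
    (by decide) (by decide +kernel)

theorem up_4_5 : mdim (SimpleGraph.boxProd (SimpleGraph.cycleGraph 4) (SimpleGraph.pathGraph 5)) ≤ (4 : ℕ) :=
  mdim_le_of_code (by norm_num) 3 [(0, 0), (1, 1), (2, 1), (0, 4)] (by decide)
    (by decide) (by decide +kernel)

theorem up_5_3 : mdim (SimpleGraph.boxProd (SimpleGraph.cycleGraph 5) (SimpleGraph.pathGraph 3)) ≤ (5 : ℕ) :=
  mdim_le_of_code (by norm_num) 3 [(0, 0), (1, 0), (2, 0), (3, 0), (0, 2)] (by decide)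
    (by decide) (by decide +kernel)

theorem up_5_4 : mdim (SimpleGraph.boxProd (SimpleGraph.cycleGraph 5) (SimpleGraph.pathGraph 4)) ≤ (5 : ℕ) :=
  mdim_le_of_code (by norm_num) 3 [(0, 0), (1, 0), (2, 0), (3, 0), (0, 2)] (by decide)
    (by decide) (by decide +kernel)

theorem up_5_5 : mdim (SimpleGraph.boxProd (SimpleGraph.cycleGraph 5) (SimpleGraph.pathGraph 5)) ≤ (4 : ℕ) :=
  mdim_le_of_code (by norm_num) 3 [(0, 0), (2, 0), (3, 1), (4, 4)] (by decide)
    (by decide) (by decide +kernel)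

theorem up_6_2 : mdim (SimpleGraph.boxProd (SimpleGraph.cycleGraph 6) (SimpleGraph.pathGraph 2)) ≤ (5 : ℕ) :=
  mdim_le_of_code (by norm_num) 3 [(0, 0), (1, 0), (2, 0), (4, 0), (0, 1)] (by decide)
    (by decide) (by decide +kernel)

theorem up_6_3 : mdim (SimpleGraph.boxProd (SimpleGraph.cycleGraph 6) (SimpleGraph.pathGraph 3)) ≤ (5 : ℕ) :=
  mdim_le_of_code (by norm_num) 3 [(0, 0), (1, 0), (2, 0), (4, 0), (0, 1)] (by decide)
    (by decide) (by decide +kernel)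

theorem up_6_4 : mdim (SimpleGraph.boxProd (SimpleGraph.cycleGraph 6) (SimpleGraph.pathGraph 4)) ≤ (5 : ℕ) :=
  mdim_le_of_code (by norm_num) 3 [(0, 0), (1, 0), (2, 0), (4, 0), (0, 1)] (by decide)
    (by decide) (by decide +kernel)

theorem up_6_5 : mdim (SimpleGraph.boxProd (SimpleGraph.cycleGraph 6) (SimpleGraph.pathGraph 5)) ≤ (5 : ℕ) :=
  mdim_le_of_code (by norm_num) 3 [(0, 0), (1, 0), (2, 0), (4, 0), (0, 1)] (by decide)
    (by decide) (by decide +kernel)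

theorem up_7_2 : mdim (SimpleGraph.boxProd (SimpleGraph.cycleGraph 7) (SimpleGraph.pathGraph 2)) ≤ (5 : ℕ) :=
  mdim_le_of_code (by norm_num) 3 [(0, 0), (1, 0), (2, 0), (3, 0), (4, 1)] (by decide)
    (by decide) (by decide +kernel)

theorem up_7_3 : mdim (SimpleGraph.boxProd (SimpleGraph.cycleGraph 7) (SimpleGraph.pathGraph 3)) ≤ (5 : ℕ) :=
  mdim_le_of_code (by norm_num) 3 [(0, 0), (1, 0), (2, 0), (3, 0), (4, 1)] (by decide)
    (by decide) (by decide +kernel)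

theorem up_7_4 : mdim (SimpleGraph.boxProd (SimpleGraph.cycleGraph 7) (SimpleGraph.pathGraph 4)) ≤ (4 : ℕ) :=
  mdim_le_of_code (by norm_num) 3 [(0, 0), (1, 1), (3, 2), (6, 3)] (by decide)
    (by decide) (by decide +kernel)

theorem up_7_5 : mdim (SimpleGraph.boxProd (SimpleGraph.cycleGraph 7) (SimpleGraph.pathGraph 5)) ≤ (5 : ℕ) :=
  mdim_le_of_code (by norm_num) 3 [(0, 0), (0, 1), (0, 3), (1, 4), (4, 4)] (by decide)
    (by decide) (by decide +kernel)

end Pool.Agent.H9.MDim
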