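import Pool.Agent.H9.MDim.Fam3
import Pool.Agent.H9.MDim.Fam4
import Pool.Agent.H9.MDim.Small4

set_option linter.unusedSimpArgs false
set_option linter.unusedVariables false

namespace Pool.Agent.H9.MDim

open SimpleGraph

theorem le_three_of_Three {n m : ℕ} (hn : 4 ≤ n) (hm : 1 ≤ m) (h : Three n m) :
    mdim (cycleGraph n □ pathGraph m) ≤ 3 := by
  unfold Three at h
  rcases Nat.even_or_odd' n with ⟨N, hN | hN⟩
  · subst hN
    by_cases c1 : m = 1
    · subst c1
      have hN3 : 3 ≤ N := by omega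
      clear h
      apply mdim_le_three (by omega) 0 (by omega) (by omega) 0 0 1 0 3 0 <;> try omega
      intro x y x' y' h1 h2 h3 h4 h5 h6 h7 h8 he
      push_cast at *
      exact fam6 (N := N) (by omega) (by omega) (by omega) (by omega) (by omega) (by omega)
        (by omega) (by omega) (by omega) he
    by_cases c2 : N % 2 = 1
    · apply mdim_le_three (by omega) 0 (by omega) (by omega) 0 0 (2 * m) 0 N 0 <;> try omega
      intro x y x' y' h1 h2 h3 h4 h5 h6 h7 h8 he
      push_cast at *
      exact fam1 (N := N) (m := m) (by omega) (by omega) (by omega) (by omega) (by omega)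
        (by omega) (by omega) (by omega) (by omega) (by omega) (by omega) he
    by_cases c3 : N = 3 * m
    · apply mdim_le_three (by omega) 0 (by omega) (by omega) 0 0 (2 * m) 0 0 (m - 1) <;>
        try omega
      intro x y x' y' h1 h2 h3 h4 h5 h6 h7 h8 he
      have e1 : (((m - 1 : ℕ) : ℕ) : ℤ) = (m : ℤ) - 1 := by omega
      rw [e1] at he
      push_cast at *
      exact fam3 (N := N) (m := m) (by omega) (by omega) (by omega) (by omega) (by omega)
        (by omega) (by omega) (by omega) (by omega) (by omega) (by omega) he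
    · apply mdim_le_three (by omega) 1 (by omega) (by omega) 0 0 (2 * m + 2) 0 (N + 1) 0 <;>
        try omega
      intro x y x' y' h1 h2 h3 h4 h5 h6 h7 h8 he
      push_cast at *
      exact fam2 (N := N) (m := m) (by omega) (by omega) (by omega) (by omega) (by omega)
        (by omega) (by omega) (by omega) (by omega) (by omega) (by omega) he
  · subst hN
    by_cases c1 : m = 1
    · subst c1
      have hN3 : 3 ≤ N := by omega
      clear h
      apply mdim_le_three (by omega) 0 (by omega) (by omega) 0 0 1 0 3 0 <;> try omega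
      intro x y x' y' h1 h2 h3 h4 h5 h6 h7 h8 he
      push_cast at *
      exact fam7 (N := N) (by omega) (by omega) (by omega) (by omega) (by omega) (by omega)
        (by omega) (by omega) (by omega) he
    by_cases c2 : N % 2 = 1
    · apply mdim_le_three (by omega) 0 (by omega) (by omega) 0 0 (2 * m - 1) 0 N 0 <;> try omega
      intro x y x' y' h1 h2 h3 h4 h5 h6 h7 h8 he
      have e1 : (((2 * m - 1 : ℕ) : ℕ) : ℤ) = 2 * (m : ℤ) - 1 := by omega
      rw [e1] at he
      push_cast at *
      exact fam4 (N := N) (m := m) (by omega) (by omega) (by omega) (by omega) (by omega)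
        (by omega) (by omega) (by omega) (by omega) (by omega) (by omega) he
    · apply mdim_le_three (by omega) 1 (by omega) (by omega) 0 0 (2 * m + 1) 0 (N + 1) 0 <;>
        try omega
      intro x y x' y' h1 h2 h3 h4 h5 h6 h7 h8 he
      push_cast at *
      exact fam5 (N := N) (m := m) (by omega) (by omega) (by omega) (by omega) (by omega)
        (by omega) (by omega) (by omega) (by omega) (by omega) (by omega) he

theorem le_four_even {N m : ℕ} (hN : 4 ≤ N) (hm : 1 ≤ m) :
    mdim (cycleGraph (2 * N) □ pathGraph m) ≤ 4 := by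
  apply mdim_le_four (by omega) 1 (by omega) (by omega) 0 0 1 0 N 0 (N + 2) 0 <;> try omega
  intro x y x' y' h1 h2 h3 h4 h5 h6 h7 h8 he
  push_cast at *
  exact fam8 (N := N) (m := m) (by omega) (by omega) (by omega) (by omega)
        (by omega) (by omega) (by omega) (by omega) (by omega) he

theorem le_four_odd {N m : ℕ} (hN : 6 ≤ N) (hm : 1 ≤ m) :
    mdim (cycleGraph (2 * N + 1) □ pathGraph m) ≤ 4 := by
  apply mdim_le_four (by omega) 1 (by omega) (by omega) 0 0 2 0 3 0 (N + 2) 0 <;> try omega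
  intro x y x' y' h1 h2 h3 h4 h5 h6 h7 h8 he
  push_cast at *
  exact fam9 (N := N) (m := m) (by omega) (by omega) (by omega) (by omega)
        (by omega) (by omega) (by omega) (by omega) (by omega) he

theorem le_four_odd' {N m : ℕ} (hN : N = 4 ∨ N = 5) (hm : 2 ≤ m) :
    mdim (cycleGraph (2 * N + 1) □ pathGraph m) ≤ 4 := by
  apply mdim_le_four (by omega) 1 (by omega) (by omega) 0 0 N 0 (N + 1) 1 (N + 2) 1 <;>
    try omega
  intro x y x' y' h1 h2 h3 h4 h5 h6 h7 h8 he
  push_cast at *
  exact fam10 (N := N) (m := m) (by omega) (by omega) (by omega) (by omega)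
        (by omega) (by omega) (by omega) (by omega) (by omega) he

theorem le_four_even' {N m : ℕ} (hN : N = 2 ∨ N = 3) (hm : 6 ≤ m) :
    mdim (cycleGraph (2 * N) □ pathGraph m) ≤ 4 := by
  apply mdim_le_four (by omega) 1 (by omega) (by omega) 0 0 0 2 0 (m - 1) 1 (m - 1) <;>
    try omega
  intro x y x' y' h1 h2 h3 h4 h5 h6 h7 h8 he
  have e1 : (((m - 1 : ℕ) : ℕ) : ℤ) = (m : ℤ) - 1 := by omega
  rw [e1] at he
  push_cast at *
  exact fam11 (N := N) (m := m) (by omega) (by omega) (by omega) (by omega)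
        (by omega) (by omega) (by omega) (by omega) (by omega) (by omega) he

theorem le_four_odd'' {N m : ℕ} (hN : N = 2 ∨ N = 3) (hm : 6 ≤ m) :
    mdim (cycleGraph (2 * N + 1) □ pathGraph m) ≤ 4 := by
  apply mdim_le_four (by omega) 1 (by omega) (by omega) 0 0 0 2 0 (m - 1) 1 (m - 1) <;>
    try omega
  intro x y x' y' h1 h2 h3 h4 h5 h6 h7 h8 he
  have e1 : (((m - 1 : ℕ) : ℕ) : ℤ) = (m : ℤ) - 1 := by omega
  rw [e1] at he
  push_cast at *
  exact fam12 (N := N) (m := m) (by omega) (by omega) (by omega) (by omega)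
        (by omega) (by omega) (by omega) (by omega) (by omega) (by omega) he

/-- the eleven exceptional cylinders of multiset dimension `5` -/
def Five (n m : ℕ) : Prop :=
  (n = 4 ∧ (m = 3 ∨ m = 4)) ∨ (n = 5 ∧ (m = 3 ∨ m = 4)) ∨
    (n = 6 ∧ (m = 2 ∨ m = 3 ∨ m = 4 ∨ m = 5)) ∨ (n = 7 ∧ (m = 2 ∨ m = 3 ∨ m = 5))

theorem le_five {n m : ℕ} (h : Five n m) : mdim (cycleGraph n □ pathGraph m) ≤ 5 := by
  unfold Five at h
  rcases h with ⟨rfl, rfl | rfl⟩ | ⟨rfl, rfl | rfl⟩ | ⟨rfl, rfl | rfl | rfl | rfl⟩ |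
    ⟨rfl, rfl | rfl | rfl⟩
  · exact up_4_3
  · exact up_4_4
  · exact up_5_3
  · exact up_5_4
  · exact up_6_2
  · exact up_6_3
  · exact up_6_4
  · exact up_6_5
  · exact up_7_2
  · exact up_7_3
  · exact up_7_5

theorem le_four {n m : ℕ} (hn : 4 ≤ n) (hm : 1 ≤ m) (h0 : ¬ (m ≤ 2 ∧ n ≤ 5))
    (h5 : ¬ Five n m) (h3 : ¬ Three n m) : mdim (cycleGraph n □ pathGraph m) ≤ 4 := by
  unfold Five at h5
  unfold Three at h3
  rcases Nat.even_or_odd' n with ⟨N, hN | hN⟩
  · by_cases c1 : 4 ≤ N
    · subst hN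
      exact le_four_even c1 hm
    by_cases c2 : 6 ≤ m
    · subst hN
      exact le_four_even' (by omega) c2
    have c3 : n = 4 ∧ m = 5 := by omega
    obtain ⟨c3, c4⟩ := c3
    rw [c3, c4]
    exact up_4_5
  · by_cases c1 : 6 ≤ N
    · subst hN
      exact le_four_odd c1 hm
    by_cases c1' : N = 4 ∨ N = 5
    · subst hN
      exact le_four_odd' c1' (by omega)
    by_cases c2 : 6 ≤ m
    · subst hN
      exact le_four_odd'' (by omega) c2
    have c3 : (n = 5 ∧ m = 5) ∨ (n = 7 ∧ m = 4) := by omega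
    rcases c3 with ⟨c3, c4⟩ | ⟨c3, c4⟩
    · rw [c3, c4]
      exact up_5_5
    · rw [c3, c4]
      exact up_7_4

end Pool.Agent.H9.MDim
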